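import Pool.Agent.N188.FC.Char

set_option autoImplicit false

/-!
# Local certificates for FC-families
-/

namespace Pool.Agent.U129.UC

open Finset

/-- the sum of the weights of the edges leaving a down-closed family -/
theorem leaving_eq {N : Finset ℕ} {ℱ : Finset (Finset ℕ)} (hN : ∀ T ∈ ℱ, T ⊆ N)
    (hd : ∀ T ∈ ℱ, ∀ T' ⊆ T, T' ∈ ℱ) (c : ℕ → ℝ) :
    ∑ T ∈ ℱ, ∑ k ∈ N.filter (fun k => k ∉ T ∧ insert k T ∉ ℱ), c k =
      ∑ T ∈ ℱ, (∑ k ∈ N, c k - 2 * ∑ k ∈ T, c k) := by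
  have h1 : ∑ T ∈ ℱ, ∑ k ∈ N.filter (fun k => k ∉ T ∧ insert k T ∉ ℱ), c k =
      ∑ k ∈ N, c k * ((ℱ.filter (fun T => k ∉ T ∧ insert k T ∉ ℱ)).card : ℝ) := by
    simp_rw [sum_filter]
    rw [sum_comm]
    refine sum_congr rfl fun k _ => ?_
    rw [← sum_filter, sum_const, nsmul_eq_mul, mul_comm]
  have h2 : ∑ T ∈ ℱ, (∑ k ∈ N, c k - 2 * ∑ k ∈ T, c k) =
      ∑ k ∈ N, c k * ((ℱ.card : ℝ) - 2 * (ℱ.filter (fun T => k ∈ T)).card) := by
    have h3 : ∀ T ∈ ℱ, (∑ k ∈ N, c k - 2 * ∑ k ∈ T, c k) =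
        ∑ k ∈ N, (c k - 2 * (if k ∈ T then c k else 0)) := by
      intro T hT
      rw [sum_sub_distrib, ← mul_sum, ← sum_filter, filter_mem_eq_inter,
        inter_eq_right.2 (hN T hT)]
    rw [sum_congr rfl h3, sum_comm]
    refine sum_congr rfl fun k _ => ?_
    rw [sum_sub_distrib, sum_const, nsmul_eq_mul, ← mul_sum, ← sum_filter, sum_const,
      nsmul_eq_mul]
    ring
  rw [h1, h2]
  refine sum_congr rfl fun k hk => ?_
  congr 1
  have e1 : (ℱ.filter (fun T => k ∈ T)).card + (ℱ.filter (fun T => k ∉ T)).card = ℱ.card :=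
    card_filter_add_card_filter_not (s := ℱ) (fun T => k ∈ T)
  have e2 : ((ℱ.filter (fun T => k ∉ T)).filter (fun T => insert k T ∈ ℱ)).card +
      ((ℱ.filter (fun T => k ∉ T)).filter (fun T => insert k T ∉ ℱ)).card =
      (ℱ.filter (fun T => k ∉ T)).card :=
    card_filter_add_card_filter_not (s := ℱ.filter (fun T => k ∉ T)) (fun T => insert k T ∈ ℱ)
  have e3 : ((ℱ.filter (fun T => k ∉ T)).filter (fun T => insert k T ∈ ℱ)).card =
      (ℱ.filter (fun T => k ∈ T)).card := by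
    refine card_bij' (fun T _ => insert k T) (fun T _ => T.erase k) ?_ ?_ ?_ ?_
    · intro T hT
      rw [mem_filter, mem_filter] at hT
      rw [mem_filter]
      exact ⟨hT.2, mem_insert_self _ _⟩
    · intro T hT
      rw [mem_filter] at hT
      rw [mem_filter, mem_filter, insert_erase hT.2]
      exact ⟨⟨hd T hT.1 _ (erase_subset _ _), notMem_erase _ _⟩, hT.1⟩
    · intro T hT
      rw [mem_filter, mem_filter] at hT
      exact erase_insert hT.1.2
    · intro T hT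
      rw [mem_filter] at hT
      exact insert_erase hT.2
  have e4 : ((ℱ.filter (fun T => k ∉ T)).filter (fun T => insert k T ∉ ℱ)) =
      ℱ.filter (fun T => k ∉ T ∧ insert k T ∉ ℱ) := by
    rw [filter_filter]
  rw [e4] at e2
  have : (ℱ.filter (fun T => k ∉ T ∧ insert k T ∉ ℱ)).card +
      2 * (ℱ.filter (fun T => k ∈ T)).card = ℱ.card := by omega
  rw [← this]
  push_cast
  ring

/-- the edges leaving in the directions in `V` -/
theorem fiber {V : Finset ℕ} {𝒟 : Finset (Finset ℕ)}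
    (hd : ∀ T ∈ 𝒟, ∀ T' ⊆ T, T' ∈ 𝒟) {P : Finset ℕ → Prop} (hP : ∀ D ∈ 𝒟, P (D ∩ V))
    {c : ℕ → ℝ} {φ : ℝ}
    (h : ∀ ℱ : Finset (Finset ℕ), (∀ T ∈ ℱ, T ⊆ V ∧ P T) → (∀ T ∈ ℱ, ∀ T' ⊆ T, T' ∈ ℱ) →
      φ * ℱ.card ≤ ∑ T ∈ ℱ, (∑ k ∈ V, c k - 2 * ∑ k ∈ T, c k)) :
    φ * 𝒟.card ≤ ∑ D ∈ 𝒟, ∑ k ∈ V.filter (fun k => k ∉ D ∧ insert k D ∉ 𝒟), c k := by
  classical
  have hmap : ∀ D ∈ 𝒟, D \ V ∈ 𝒟.image (fun D => D \ V) := fun D hD => mem_image_of_mem _ hD
  rw [← sum_fiberwise_of_maps_to hmap, card_eq_sum_card_fiberwise hmap, Nat.cast_sum, mul_sum]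
  refine sum_le_sum fun E hE => ?_
  have hEV : Disjoint E V := by
    rw [mem_image] at hE
    obtain ⟨D, _, rfl⟩ := hE
    exact sdiff_disjoint
  set ℱ : Finset (Finset ℕ) := V.powerset.filter (fun T => E ∪ T ∈ 𝒟) with hℱ
  have hmem : ∀ T, T ∈ ℱ ↔ T ⊆ V ∧ E ∪ T ∈ 𝒟 := by
    intro T; rw [hℱ, mem_filter, mem_powerset]
  have hcut : ∀ T, T ⊆ V → (E ∪ T) ∩ V = T := by
    intro T hT
    rw [union_inter_distrib_right, disjoint_iff_inter_eq_empty.1 hEV, empty_union,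
      inter_eq_left.2 hT]
  have hdif : ∀ T, T ⊆ V → (E ∪ T) \ V = E := by
    intro T hT
    rw [union_sdiff_distrib, sdiff_eq_empty_iff_subset.2 hT, union_empty,
      sdiff_eq_self_of_disjoint hEV]
  have h1 := h ℱ (by
    intro T hT
    rw [hmem] at hT
    refine ⟨hT.1, ?_⟩
    have := hP _ hT.2
    rwa [hcut T hT.1] at this) (by
    intro T hT T' hT'
    rw [hmem] at hT ⊢
    exact ⟨hT'.trans hT.1, hd _ hT.2 _ (union_subset_union_right hT')⟩)
  rw [← leaving_eq (fun T hT => ((hmem T).1 hT).1) (by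
    intro T hT T' hT'
    rw [hmem] at hT ⊢
    exact ⟨hT'.trans hT.1, hd _ hT.2 _ (union_subset_union_right hT')⟩) c] at h1
  have hcard : (𝒟.filter (fun D => D \ V = E)).card = ℱ.card := by
    refine card_bij' (fun D _ => D ∩ V) (fun T _ => E ∪ T) ?_ ?_ ?_ ?_
    · intro D hD
      rw [mem_filter] at hD
      rw [hmem]
      refine ⟨inter_subset_right, ?_⟩
      rw [← hD.2, sdiff_union_inter]
      exact hD.1
    · intro T hT
      rw [hmem] at hT
      rw [mem_filter]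
      exact ⟨hT.2, hdif T hT.1⟩
    · intro D hD
      rw [mem_filter] at hD
      rw [← hD.2, sdiff_union_inter]
    · intro T hT
      rw [hmem] at hT
      exact hcut T hT.1
  rw [hcard]
  refine h1.trans (le_of_eq ?_)
  symm
  refine sum_bij' (fun D _ => D ∩ V) (fun T _ => E ∪ T) ?_ ?_ ?_ ?_ ?_
  · intro D hD
    rw [mem_filter] at hD
    rw [hmem]
    refine ⟨inter_subset_right, ?_⟩
    rw [← hD.2, sdiff_union_inter]
    exact hD.1
  · intro T hT
    rw [hmem] at hT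
    rw [mem_filter]
    exact ⟨hT.2, hdif T hT.1⟩
  · intro D hD
    rw [mem_filter] at hD
    rw [← hD.2, sdiff_union_inter]
  · intro T hT
    rw [hmem] at hT
    exact hcut T hT.1
  · intro D hD
    rw [mem_filter] at hD
    have hDE : D = E ∪ (D ∩ V) := by rw [← hD.2, sdiff_union_inter]
    refine sum_congr ?_ fun _ _ => rfl
    ext k
    rw [mem_filter, mem_filter]
    constructor
    · rintro ⟨hk, h2, h3⟩
      refine ⟨hk, fun h4 => h2 (mem_inter.1 h4).1, fun h4 => h3 ?_⟩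
      rw [hmem] at h4
      rw [hDE, ← union_insert]
      exact h4.2
    · rintro ⟨hk, h2, h3⟩
      refine ⟨hk, fun h4 => h2 (mem_inter.2 ⟨h4, hk⟩), fun h4 => h3 ?_⟩
      rw [hmem]
      refine ⟨insert_subset hk inter_subset_right, ?_⟩
      rw [union_insert, ← hDE]
      exact h4

/-- disjoint parts -/
theorem parts {g : ℕ → ℝ} (hg : ∀ k, 0 ≤ g k) : ∀ (L : List (Finset ℕ × ℕ)) (M : Finset ℕ),
    L.Pairwise (fun p q => Disjoint p.1 q.1) → (∀ p ∈ L, p.1 ⊆ M) →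
    (L.map (fun p => ∑ k ∈ p.1, g k)).sum ≤ ∑ k ∈ M, g k
  | [], M, _, _ => by simpa using sum_nonneg (fun k _ => hg k)
  | p :: L, M, h1, h2 => by
    rw [List.pairwise_cons] at h1
    have h3 := parts hg L (M \ p.1) h1.2 (by
      intro q hq
      rw [subset_sdiff]
      exact ⟨h2 q (List.mem_cons_of_mem _ hq), (h1.1 q hq).symm⟩)
    rw [List.map_cons, List.sum_cons, ← sum_sdiff (h2 p List.mem_cons_self)]
    linarith

/-- every finite family of finite sets which is union-closed and absorbs `G` has an element of a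
member of `G` in at least half of its members -/
def FCa (G : Finset (Finset ℕ)) : Prop :=
  ∀ F : Finset (Finset ℕ), (∀ A ∈ F, ∀ B ∈ F, A ∪ B ∈ F) → (∀ A ∈ F, ∀ B ∈ G, A ∪ B ∈ F) →
    ∃ x ∈ G.biUnion id, F.card ≤ 2 * (F.filter (fun A => x ∈ A)).card

/-- the subsets of `V` containing no `B \ {x}`, `x ∈ B ∈ G` -/
def indep (G : Finset (Finset ℕ)) (x : ℕ) (V : Finset ℕ) : Finset (Finset ℕ) :=
  V.powerset.filter (fun T => ∀ B ∈ G, x ∈ B → ¬ B ⊆ insert x T)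

/-- the local inequality -/
def LocOK (c : ℕ → ℕ) (I : Finset (Finset ℕ)) (V : Finset ℕ) (φ : ℕ) : Prop :=
  ∀ ℱ ∈ I.powerset, (∀ T ∈ ℱ, ∀ k ∈ T, T.erase k ∈ ℱ) →
    (0 : ℤ) ≤ ∑ T ∈ ℱ, (∑ k ∈ V, (c k : ℤ) - φ - 2 * ∑ k ∈ T, (c k : ℤ))

instance (c : ℕ → ℕ) (I : Finset (Finset ℕ)) (V : Finset ℕ) (φ : ℕ) :
    Decidable (LocOK c I V φ) := by unfold LocOK; infer_instance

/-- the certificate at a vertex -/
def VertexOK (G : Finset (Finset ℕ)) (S : Finset ℕ) (c : ℕ → ℕ) (x : ℕ)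
    (L : List (Finset ℕ × ℕ)) : Prop :=
  L.Pairwise (fun p q => Disjoint p.1 q.1) ∧
    (∀ p ∈ L, p.1 ⊆ S.erase x ∧ LocOK c (indep G x p.1) p.1 p.2) ∧
    c x ≤ (L.map (fun p => p.2)).sum

instance (G : Finset (Finset ℕ)) (S : Finset ℕ) (c : ℕ → ℕ) (x : ℕ)
    (L : List (Finset ℕ × ℕ)) : Decidable (VertexOK G S c x L) := by
  unfold VertexOK; infer_instance

theorem fca_of_cert {G : Finset (Finset ℕ)} {c : ℕ → ℕ} {cert : ℕ → List (Finset ℕ × ℕ)}
    (hpos : ∃ x ∈ G.biUnion id, 0 < c x)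
    (h : ∀ x ∈ G.biUnion id, VertexOK G (G.biUnion id) c x (cert x)) : FCa G := by
  classical
  intro F hF ha
  refine Pool.Agent.N188.FC.fc_of_weights (G := G) (c := fun k => (c k : ℝ)) hF
    (fun B hB => subset_biUnion_of_mem id hB) ha (fun x => Nat.cast_nonneg _) ?_ ?_
  · obtain ⟨x, hx, h0⟩ := hpos
    exact ⟨x, hx, by exact_mod_cast h0⟩
  · intro x hx 𝒟 hv
    obtain ⟨h1, h2, h3⟩ := h x hx
    obtain ⟨v1, v2, v3⟩ := hv
    have hpart : ∀ D ∈ 𝒟, ((cert x).map (fun p => ∑ k ∈ p.1.filter (fun k => k ∉ D ∧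
        insert k D ∉ 𝒟), (c k : ℝ))).sum ≤ ∑ k ∈ ((G.biUnion id).erase x).filter (fun k => k ∉ D ∧
          insert k D ∉ 𝒟), (c k : ℝ) := by
      intro D _
      simp_rw [sum_filter]
      refine parts (fun k => ?_) (cert x) _ h1 (fun p hp => (h2 p hp).1)
      split_ifs
      · exact Nat.cast_nonneg _
      · exact le_rfl
    have hloc : ∀ p ∈ cert x, (p.2 : ℝ) * 𝒟.card ≤ ∑ D ∈ 𝒟, ∑ k ∈ p.1.filter (fun k => k ∉ D ∧
        insert k D ∉ 𝒟), (c k : ℝ) := by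
      intro p hp
      refine fiber (P := fun T => ∀ B ∈ G, x ∈ B → ¬ B ⊆ insert x T) v2 ?_ ?_
      · intro D hD B hB hxB hsub
        exact v3 D hD B hB hxB (hsub.trans (insert_subset_insert _ inter_subset_left))
      · intro ℱ hℱ hdc
        have h4 := (h2 p hp).2 ℱ (by
          rw [mem_powerset]
          intro T hT
          unfold indep
          rw [mem_filter, mem_powerset]
          exact hℱ T hT) (fun T hT k _ => hdc T hT _ (erase_subset _ _))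
        have h5 : (0 : ℝ) ≤ ∑ T ∈ ℱ, (∑ k ∈ p.1, (c k : ℝ) - p.2 - 2 * ∑ k ∈ T, (c k : ℝ)) := by
          exact_mod_cast h4
        have h6 : ∑ T ∈ ℱ, (∑ k ∈ p.1, (c k : ℝ) - p.2 - 2 * ∑ k ∈ T, (c k : ℝ)) =
            ∑ T ∈ ℱ, (∑ k ∈ p.1, (c k : ℝ) - 2 * ∑ k ∈ T, (c k : ℝ)) - p.2 * ℱ.card := by
          have : ∀ T ∈ ℱ, (∑ k ∈ p.1, (c k : ℝ) - p.2 - 2 * ∑ k ∈ T, (c k : ℝ)) =
              (∑ k ∈ p.1, (c k : ℝ) - 2 * ∑ k ∈ T, (c k : ℝ)) - p.2 := fun T _ => by ring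
          rw [sum_congr rfl this, sum_sub_distrib, sum_const, nsmul_eq_mul]
          ring
        rw [h6] at h5
        linarith
    have hsum : ∀ L : List (Finset ℕ × ℕ), (∀ p ∈ L, (p.2 : ℝ) * 𝒟.card ≤
        ∑ D ∈ 𝒟, ∑ k ∈ p.1.filter (fun k => k ∉ D ∧ insert k D ∉ 𝒟), (c k : ℝ)) →
        (((L.map (fun p => p.2)).sum : ℕ) : ℝ) * 𝒟.card ≤ ∑ D ∈ 𝒟, (L.map (fun p =>
          ∑ k ∈ p.1.filter (fun k => k ∉ D ∧ insert k D ∉ 𝒟), (c k : ℝ))).sum := by
      intro L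
      induction L with
      | nil => intro _; simp
      | cons p L ih =>
        intro hL
        have i1 := ih (fun q hq => hL q (List.mem_cons_of_mem _ hq))
        have i2 := hL p List.mem_cons_self
        simp only [List.map_cons, List.sum_cons]
        rw [sum_add_distrib]
        push_cast
        push_cast at i1
        linarith
    have h7 := hsum (cert x) hloc
    have h8 : (c x : ℝ) ≤ (((cert x).map (fun p => p.2)).sum : ℕ) := by exact_mod_cast h3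
    have h9 : (c x : ℝ) * 𝒟.card ≤ (((cert x).map (fun p => p.2)).sum : ℕ) * 𝒟.card :=
      mul_le_mul_of_nonneg_right h8 (Nat.cast_nonneg _)
    exact h9.trans (h7.trans (sum_le_sum hpart))

end Pool.Agent.U129.UC
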