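import Pool.Agent.U129.UC.Tab

set_option autoImplicit false

/-!
# Growth of connected families of 3-sets
-/

namespace Pool.Agent.U129.UC

open Finset

theorem fix_ren {N : Finset (Finset ℕ)} {n : ℕ} (hN : ∀ A ∈ N, ∀ i ∈ A, i < n)
    {σ : Equiv.Perm ℕ} (hσ : ∀ i < n, σ i = i) : ren σ N = N := by
  have h1 : ∀ A ∈ N, A.image σ = A := by
    intro A hA
    conv_rhs => rw [← image_id (s := A)]
    exact image_congr (fun i hi => hσ i (hN A hA i (mem_coe.1 hi)))
  unfold ren
  conv_rhs => rw [← image_id (s := N)]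
  exact image_congr (fun A hA => h1 A (mem_coe.1 hA))

theorem step0 {N : Finset (Finset ℕ)} {n : ℕ} {t : List (Finset ℕ × ℕ × List (ℕ × ℕ))}
    (ht : Tab N n t) (hN : ∀ A ∈ N, ∀ i ∈ A, i < n) {B : Finset ℕ} (hB : B.card = 3)
    (hBN : B ∉ N) (hm : ∃ i ∈ B, i < n) :
    FCa (insert B N) ∨ ∃ N' ∈ nons, Iso N' (insert B N) := by
  obtain ⟨σ, h1, h2, h3⟩ := normal n B hB hm
  have hfix := fix_ren hN h1
  have hren : ren σ (insert B N) = insert (B.image σ) N := by rw [ren_insert, hfix]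
  have hback : ren σ.symm (insert (B.image σ) N) = insert B N := by
    rw [← hren, ren_symm]
  have h4 : B.image σ ∉ N := by
    intro h
    rw [← hfix, mem_ren] at h
    obtain ⟨A, hA, hAB⟩ := h
    have := inj_image σ hAB
    exact hBN (this ▸ hA)
  obtain ⟨e, -, -, he⟩ := ht _ h2 (by
    obtain ⟨i, hi, hin⟩ := hm
    exact ⟨i, mem_image.2 ⟨i, hi, h1 i hin⟩, hin⟩) h3 h4
  rcases he with ⟨hk, he⟩ | ⟨hk, hk2, he⟩
  · left
    have hm : mins.getD e.2.1 ∅ ∈ mins := by
      have hl : e.2.1 < mins.length := by simpa [mins] using hk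
      rw [List.getD_eq_getElem _ _ hl]
      exact List.getElem_mem hl
    have h5 := (fca_mins _ hm).ren (pm e.2.2)
    rw [← ap_eq] at h5
    have h6 := (h5.mono he).ren σ.symm
    rwa [hback] at h6
  · right
    have hm : nons.getD (e.2.1 - 17) ∅ ∈ nons := by
      have hl : e.2.1 - 17 < nons.length := by simp [nons]; omega
      rw [List.getD_eq_getElem _ _ hl]
      exact List.getElem_mem hl
    refine ⟨_, hm, ?_⟩
    rw [← hback]
    exact Iso.ren ⟨pm e.2.2, by rw [← ap_eq]; exact he⟩ _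

theorem nons_tab : ∀ N ∈ nons, ∃ n t, Tab N n t ∧ (∀ A ∈ N, ∀ i ∈ A, i < n) := by
  intro N hN
  simp only [nons, List.mem_cons, List.not_mem_nil, or_false] at hN
  rcases hN with rfl | rfl | rfl | rfl | rfl | rfl | rfl
  · exact ⟨3, _, okL1, by decide⟩
  · exact ⟨5, _, okL2, by decide⟩
  · exact ⟨7, _, okL3, by decide⟩
  · exact ⟨9, _, okL4, by decide⟩
  · exact ⟨4, _, okF1, by decide⟩
  · exact ⟨6, _, okF2, by decide⟩
  · exact ⟨8, _, okF3, by decide⟩

theorem step {N C : Finset (Finset ℕ)} (hN : N ∈ nons) (hC : Iso N C) {B : Finset ℕ}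
    (hB : B.card = 3) (hBC : B ∉ C) (hm : ∃ A ∈ C, ¬ Disjoint A B) :
    FCa (insert B C) ∨ ∃ N' ∈ nons, Iso N' (insert B C) := by
  obtain ⟨n, t, ht, hn⟩ := nons_tab N hN
  obtain ⟨σ, rfl⟩ := hC
  have hren : ren σ (insert (B.image σ.symm) N) = insert B (ren σ N) := by
    rw [ren_insert, image_image, Equiv.self_comp_symm, image_id]
  have := step0 ht hn (B := B.image σ.symm)
    (by rw [card_image_of_injective _ σ.symm.injective, hB]) (by
      intro h
      apply hBC
      rw [mem_ren]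
      exact ⟨_, h, by rw [image_image, Equiv.self_comp_symm, image_id]⟩) (by
      obtain ⟨A, hA, hd⟩ := hm
      rw [mem_ren] at hA
      obtain ⟨A', hA', rfl⟩ := hA
      rw [not_disjoint_iff] at hd
      obtain ⟨x, hx, hxB⟩ := hd
      obtain ⟨i, hi, rfl⟩ := mem_image.1 hx
      exact ⟨i, mem_image.2 ⟨σ i, hxB, by simp⟩, hn _ hA' i hi⟩)
  rcases this with h | ⟨N', hN', h⟩
  · left
    rw [← hren]
    exact h.ren σ
  · right
    refine ⟨N', hN', ?_⟩
    rw [← hren]
    exact h.ren σ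

/-- `C` is connected: it is not empty and cannot be divided into two nonempty parts such that every
member of one part is disjoint from every member of the other -/
def Conn (C : Finset (Finset ℕ)) : Prop :=
  C.Nonempty ∧ ∀ H ⊆ C, H.Nonempty → H ≠ C → ∃ A ∈ H, ∃ B ∈ C, B ∉ H ∧ ¬ Disjoint A B

/-- a connected family of 3-sets is FC or one of the seven -/
theorem dichotomy {C : Finset (Finset ℕ)} (h3 : ∀ A ∈ C, A.card = 3) (hC : Conn C) :
    FCa C ∨ ∃ N ∈ nons, Iso N C := by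
  classical
  by_contra hcon
  push Not at hcon
  obtain ⟨hFC, hno⟩ := hcon
  obtain ⟨⟨A0, hA0⟩, hconn⟩ := hC
  -- the largest subfamily which is one of the seven
  let 𝒮 : Finset (Finset (Finset ℕ)) := C.powerset.filter (fun H => ∃ N ∈ nons, Iso N H)
  have hmem : ∀ H, H ∈ 𝒮 ↔ H ⊆ C ∧ ∃ N ∈ nons, Iso N H := by
    intro H; simp only [𝒮, mem_filter, mem_powerset]
  have hne : 𝒮.Nonempty := by
    refine ⟨{A0}, ?_⟩
    rw [hmem]
    refine ⟨singleton_subset_iff.2 hA0, loosePath 1, by simp [nons], ?_⟩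
    obtain ⟨σ, hσ⟩ := single A0 (h3 A0 hA0)
    refine ⟨σ, ?_⟩
    rw [← hσ]
    rfl
  obtain ⟨H, hH, hmax⟩ := exists_max_image 𝒮 Finset.card hne
  rw [hmem] at hH
  obtain ⟨hHC, N, hN, hiso⟩ := hH
  have hHne : H.Nonempty := by
    rw [nonempty_iff_ne_empty]
    rintro rfl
    have h1 := hmax _ ((hmem {A0}).2 ⟨singleton_subset_iff.2 hA0, loosePath 1, by simp [nons], by
      obtain ⟨σ, hσ⟩ := single A0 (h3 A0 hA0)
      exact ⟨σ, by rw [← hσ]; rfl⟩⟩)
    simp at h1
  have hne2 : H ≠ C := by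
    rintro rfl
    exact hno N hN hiso
  obtain ⟨A, hA, B, hB, hBH, hd⟩ := hconn H hHC hHne hne2
  have hsub : insert B H ⊆ C := insert_subset hB hHC
  rcases step hN hiso (h3 B hB) hBH ⟨A, hA, hd⟩ with h | ⟨N', hN', h⟩
  · exact hFC (h.mono hsub)
  · have h1 := hmax _ ((hmem _).2 ⟨hsub, N', hN', h⟩)
    rw [card_insert_of_notMem hBH] at h1
    omega

theorem nons_card : ∀ N ∈ nons, N.card ≤ 4 := by
  intro N hN
  simp only [nons, List.mem_cons, List.not_mem_nil, or_false] at hN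
  rcases hN with rfl | rfl | rfl | rfl | rfl | rfl | rfl <;> decide

/-- **connected families of five 3-sets** -/
theorem five {C : Finset (Finset ℕ)} (h3 : ∀ A ∈ C, A.card = 3) (hC : Conn C)
    (h5 : 5 ≤ C.card) : FCa C := by
  rcases dichotomy h3 hC with h | ⟨N, hN, σ, rfl⟩
  · exact h
  · have := nons_card N hN
    rw [card_ren] at h5
    omega

end Pool.Agent.U129.UC
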