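import Pool.Agent.U129.UC.Base

set_option autoImplicit false

/-!
# The seventeen minimal FC-families of 3-sets
-/

namespace Pool.Agent.U129.UC

open Finset

/-- minimal FC-family number 0 -/
def m0 : Finset (Finset ℕ) := {{0, 1, 2}, {0, 1, 3}, {0, 2, 3}}

/-- weights -/
def w0 (i : ℕ) : ℕ := [1, 1, 1, 1].getD i 0

/-- local certificates -/
def c0 (i : ℕ) : List (Finset ℕ × ℕ) :=
  [[({1, 2, 3}, 1)], [({0, 2, 3}, 1)], [({0, 1, 3}, 1)], [({0, 1, 2}, 1)]].getD i []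

theorem fca0 : FCa m0 := by
  refine fca_of_cert (c := w0) (cert := c0) ?_ ?_
  · decide +kernel
  · decide +kernel

/-- minimal FC-family number 1 -/
def m1 : Finset (Finset ℕ) := {{0, 1, 2}, {0, 1, 3}, {0, 1, 4}}

/-- weights -/
def w1 (i : ℕ) : ℕ := [3, 3, 2, 2, 2].getD i 0

/-- local certificates -/
def c1 (i : ℕ) : List (Finset ℕ × ℕ) :=
  [[({1, 2, 3, 4}, 3)], [({0, 2, 3, 4}, 3)], [({0, 1}, 2)], [({0, 1}, 2)], [({0, 1}, 2)]].getD i []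

theorem fca1 : FCa m1 := by
  refine fca_of_cert (c := w1) (cert := c1) ?_ ?_
  · decide +kernel
  · decide +kernel

/-- minimal FC-family number 2 -/
def m2 : Finset (Finset ℕ) := {{0, 1, 2}, {0, 1, 3}, {0, 2, 4}}

/-- weights -/
def w2 (i : ℕ) : ℕ := [4, 3, 3, 2, 2].getD i 0

/-- local certificates -/
def c2 (i : ℕ) : List (Finset ℕ × ℕ) :=
  [[({1, 2, 3, 4}, 4)], [({0, 2, 3}, 3)], [({0, 1, 4}, 3)], [({0, 1}, 2)], [({0, 2}, 2)]].getD i []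

theorem fca2 : FCa m2 := by
  refine fca_of_cert (c := w2) (cert := c2) ?_ ?_
  · decide +kernel
  · decide +kernel

/-- minimal FC-family number 3 -/
def m3 : Finset (Finset ℕ) := {{0, 1, 2}, {0, 1, 3}, {2, 3, 4}}

/-- weights -/
def w3 (i : ℕ) : ℕ := [6, 6, 9, 9, 6].getD i 0

/-- local certificates -/
def c3 (i : ℕ) : List (Finset ℕ × ℕ) :=
  [[({1, 2, 3}, 6)], [({0, 2, 3}, 6)], [({0, 1}, 4), ({3, 4}, 5)], [({0, 1}, 4), ({2, 4}, 5)], [({2, 3}, 6)]].getD i []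

theorem fca3 : FCa m3 := by
  refine fca_of_cert (c := w3) (cert := c3) ?_ ?_
  · decide +kernel
  · decide +kernel

/-- minimal FC-family number 4 -/
def m4 : Finset (Finset ℕ) := {{0, 1, 2}, {0, 1, 3}, {0, 4, 5}}

/-- weights -/
def w4 (i : ℕ) : ℕ := [64, 54, 39, 39, 24, 24].getD i 0

/-- local certificates -/
def c4 (i : ℕ) : List (Finset ℕ × ℕ) :=
  [[({1, 2, 3}, 48), ({4, 5}, 16)], [({0, 2, 3}, 54)], [({0, 1}, 39)], [({0, 1}, 39)], [({0, 5}, 24)], [({0, 4}, 24)]].getD i []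

theorem fca4 : FCa m4 := by
  refine fca_of_cert (c := w4) (cert := c4) ?_ ?_
  · decide +kernel
  · decide +kernel

/-- minimal FC-family number 5 -/
def m5 : Finset (Finset ℕ) := {{0, 1, 2}, {0, 3, 4}, {1, 3, 5}}

/-- weights -/
def w5 (i : ℕ) : ℕ := [2, 2, 1, 2, 1, 1].getD i 0

/-- local certificates -/
def c5 (i : ℕ) : List (Finset ℕ × ℕ) :=
  [[({1, 2}, 1), ({3, 4}, 1)], [({0, 2}, 1), ({3, 5}, 1)], [({0, 1}, 1)], [({0, 4}, 1), ({1, 5}, 1)], [({0, 3}, 1)], [({1, 3}, 1)]].getD i []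

theorem fca5 : FCa m5 := by
  refine fca_of_cert (c := w5) (cert := c5) ?_ ?_
  · decide +kernel
  · decide +kernel

/-- minimal FC-family number 6 -/
def m6 : Finset (Finset ℕ) := {{0, 1, 2}, {0, 3, 4}, {0, 5, 6}}

/-- weights -/
def w6 (i : ℕ) : ℕ := [6, 3, 3, 3, 3, 3, 3].getD i 0

/-- local certificates -/
def c6 (i : ℕ) : List (Finset ℕ × ℕ) :=
  [[({1, 2}, 2), ({3, 4}, 2), ({5, 6}, 2)], [({0, 2}, 3)], [({0, 1}, 3)], [({0, 4}, 3)], [({0, 3}, 3)], [({0, 6}, 3)], [({0, 5}, 3)]].getD i []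

theorem fca6 : FCa m6 := by
  refine fca_of_cert (c := w6) (cert := c6) ?_ ?_
  · decide +kernel
  · decide +kernel

/-- minimal FC-family number 7 -/
def m7 : Finset (Finset ℕ) := {{0, 1, 2}, {0, 1, 3}, {2, 4, 5}, {3, 4, 5}}

/-- weights -/
def w7 (i : ℕ) : ℕ := [2, 2, 2, 2, 2, 2].getD i 0

/-- local certificates -/
def c7 (i : ℕ) : List (Finset ℕ × ℕ) :=
  [[({1, 2, 3}, 2)], [({0, 2, 3}, 2)], [({0, 1}, 1), ({4, 5}, 1)], [({0, 1}, 1), ({4, 5}, 1)], [({2, 3, 5}, 2)], [({2, 3, 4}, 2)]].getD i []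

theorem fca7 : FCa m7 := by
  refine fca_of_cert (c := w7) (cert := c7) ?_ ?_
  · decide +kernel
  · decide +kernel

/-- minimal FC-family number 8 -/
def m8 : Finset (Finset ℕ) := {{0, 1, 2}, {0, 1, 3}, {2, 4, 5}, {3, 4, 6}}

/-- weights -/
def w8 (i : ℕ) : ℕ := [12, 12, 21, 21, 24, 15, 15].getD i 0

/-- local certificates -/
def c8 (i : ℕ) : List (Finset ℕ × ℕ) :=
  [[({1, 2, 3}, 12)], [({0, 2, 3}, 12)], [({0, 1}, 8), ({4, 5}, 13)], [({0, 1}, 8), ({4, 6}, 13)], [({2, 5}, 12), ({3, 6}, 12)], [({2, 4}, 15)], [({3, 4}, 15)]].getD i []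

theorem fca8 : FCa m8 := by
  refine fca_of_cert (c := w8) (cert := c8) ?_ ?_
  · decide +kernel
  · decide +kernel

/-- minimal FC-family number 9 -/
def m9 : Finset (Finset ℕ) := {{0, 1, 2}, {0, 1, 3}, {2, 4, 5}, {4, 5, 6}}

/-- weights -/
def w9 (i : ℕ) : ℕ := [3, 3, 4, 2, 3, 3, 2].getD i 0

/-- local certificates -/
def c9 (i : ℕ) : List (Finset ℕ × ℕ) :=
  [[({1, 2, 3}, 3)], [({0, 2, 3}, 3)], [({0, 1}, 2), ({4, 5}, 2)], [({0, 1}, 2)], [({2, 5, 6}, 3)], [({2, 4, 6}, 3)], [({4, 5}, 2)]].getD i []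

theorem fca9 : FCa m9 := by
  refine fca_of_cert (c := w9) (cert := c9) ?_ ?_
  · decide +kernel
  · decide +kernel

/-- minimal FC-family number 10 -/
def m10 : Finset (Finset ℕ) := {{0, 1, 2}, {0, 1, 3}, {2, 4, 5}, {3, 6, 7}}

/-- weights -/
def w10 (i : ℕ) : ℕ := [6, 6, 6, 6, 3, 3, 3, 3].getD i 0

/-- local certificates -/
def c10 (i : ℕ) : List (Finset ℕ × ℕ) :=
  [[({1, 2, 3}, 6)], [({0, 2, 3}, 6)], [({0, 1}, 4), ({4, 5}, 2)], [({0, 1}, 4), ({6, 7}, 2)], [({2, 5}, 3)], [({2, 4}, 3)], [({3, 7}, 3)], [({3, 6}, 3)]].getD i []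

theorem fca10 : FCa m10 := by
  refine fca_of_cert (c := w10) (cert := c10) ?_ ?_
  · decide +kernel
  · decide +kernel

/-- minimal FC-family number 11 -/
def m11 : Finset (Finset ℕ) := {{0, 1, 2}, {0, 3, 4}, {1, 5, 6}, {3, 5, 7}}

/-- weights -/
def w11 (i : ℕ) : ℕ := [2, 2, 1, 2, 1, 2, 1, 1].getD i 0

/-- local certificates -/
def c11 (i : ℕ) : List (Finset ℕ × ℕ) :=
  [[({1, 2}, 1), ({3, 4}, 1)], [({0, 2}, 1), ({5, 6}, 1)], [({0, 1}, 1)], [({0, 4}, 1), ({5, 7}, 1)], [({0, 3}, 1)], [({1, 6}, 1), ({3, 7}, 1)], [({1, 5}, 1)], [({3, 5}, 1)]].getD i []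

theorem fca11 : FCa m11 := by
  refine fca_of_cert (c := w11) (cert := c11) ?_ ?_
  · decide +kernel
  · decide +kernel

/-- minimal FC-family number 12 -/
def m12 : Finset (Finset ℕ) := {{0, 1, 2}, {0, 3, 4}, {1, 5, 6}, {2, 7, 8}}

/-- weights -/
def w12 (i : ℕ) : ℕ := [6, 6, 6, 3, 3, 3, 3, 3, 3].getD i 0

/-- local certificates -/
def c12 (i : ℕ) : List (Finset ℕ × ℕ) :=
  [[({1, 2}, 4), ({3, 4}, 2)], [({0, 2}, 4), ({5, 6}, 2)], [({0, 1}, 4), ({7, 8}, 2)], [({0, 4}, 3)], [({0, 3}, 3)], [({1, 6}, 3)], [({1, 5}, 3)], [({2, 8}, 3)], [({2, 7}, 3)]].getD i []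

theorem fca12 : FCa m12 := by
  refine fca_of_cert (c := w12) (cert := c12) ?_ ?_
  · decide +kernel
  · decide +kernel

/-- minimal FC-family number 13 -/
def m13 : Finset (Finset ℕ) := {{0, 1, 2}, {0, 1, 3}, {2, 4, 5}, {4, 6, 7}, {6, 7, 8}}

/-- weights -/
def w13 (i : ℕ) : ℕ := [6, 6, 9, 4, 9, 6, 6, 6, 4].getD i 0

/-- local certificates -/
def c13 (i : ℕ) : List (Finset ℕ × ℕ) :=
  [[({1, 2, 3}, 6)], [({0, 2, 3}, 6)], [({0, 1}, 4), ({4, 5}, 5)], [({0, 1}, 4)], [({2, 5}, 5), ({6, 7}, 4)], [({2, 4}, 6)], [({4, 7, 8}, 6)], [({4, 6, 8}, 6)], [({6, 7}, 4)]].getD i []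

theorem fca13 : FCa m13 := by
  refine fca_of_cert (c := w13) (cert := c13) ?_ ?_
  · decide +kernel
  · decide +kernel

/-- minimal FC-family number 14 -/
def m14 : Finset (Finset ℕ) := {{0, 1, 2}, {0, 1, 3}, {2, 4, 5}, {4, 6, 7}, {6, 8, 9}}

/-- weights -/
def w14 (i : ℕ) : ℕ := [144, 144, 222, 96, 228, 150, 177, 135, 84, 84].getD i 0

/-- local certificates -/
def c14 (i : ℕ) : List (Finset ℕ × ℕ) :=
  [[({1, 2, 3}, 144)], [({0, 2, 3}, 144)], [({0, 1}, 96), ({4, 5}, 126)], [({0, 1}, 96)], [({2, 5}, 124), ({6, 7}, 104)], [({2, 4}, 150)], [({4, 7}, 121), ({8, 9}, 56)], [({4, 6}, 135)], [({6, 9}, 84)], [({6, 8}, 84)]].getD i []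

theorem fca14 : FCa m14 := by
  refine fca_of_cert (c := w14) (cert := c14) ?_ ?_
  · decide +kernel
  · decide +kernel

/-- minimal FC-family number 15 -/
def m15 : Finset (Finset ℕ) := {{0, 1, 2}, {0, 3, 4}, {1, 5, 6}, {3, 7, 8}, {5, 7, 9}}

/-- weights -/
def w15 (i : ℕ) : ℕ := [2, 2, 1, 2, 1, 2, 1, 2, 1, 1].getD i 0

/-- local certificates -/
def c15 (i : ℕ) : List (Finset ℕ × ℕ) :=
  [[({1, 2}, 1), ({3, 4}, 1)], [({0, 2}, 1), ({5, 6}, 1)], [({0, 1}, 1)], [({0, 4}, 1), ({7, 8}, 1)], [({0, 3}, 1)], [({1, 6}, 1), ({7, 9}, 1)], [({1, 5}, 1)], [({3, 8}, 1), ({5, 9}, 1)], [({3, 7}, 1)], [({5, 7}, 1)]].getD i []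

theorem fca15 : FCa m15 := by
  refine fca_of_cert (c := w15) (cert := c15) ?_ ?_
  · decide +kernel
  · decide +kernel

/-- minimal FC-family number 16 -/
def m16 : Finset (Finset ℕ) := {{0, 1, 2}, {0, 3, 4}, {1, 5, 6}, {3, 7, 8}, {5, 9, 10}}

/-- weights -/
def w16 (i : ℕ) : ℕ := [36, 36, 24, 27, 21, 27, 21, 12, 12, 12, 12].getD i 0

/-- local certificates -/
def c16 (i : ℕ) : List (Finset ℕ × ℕ) :=
  [[({1, 2}, 20), ({3, 4}, 16)], [({0, 2}, 20), ({5, 6}, 16)], [({0, 1}, 24)], [({0, 4}, 19), ({7, 8}, 8)], [({0, 3}, 21)], [({1, 6}, 19), ({9, 10}, 8)], [({1, 5}, 21)], [({3, 8}, 12)], [({3, 7}, 12)], [({5, 10}, 12)], [({5, 9}, 12)]].getD i []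

theorem fca16 : FCa m16 := by
  refine fca_of_cert (c := w16) (cert := c16) ?_ ?_
  · decide +kernel
  · decide +kernel

/-- the minimal families -/
def mins : List (Finset (Finset ℕ)) := [m0, m1, m2, m3, m4, m5, m6, m7, m8, m9, m10, m11, m12, m13, m14, m15, m16]

theorem fca_mins : ∀ G ∈ mins, FCa G := by
  intro G hG
  simp only [mins, List.mem_cons, List.not_mem_nil, or_false] at hG
  rcases hG with rfl | rfl | rfl | rfl | rfl | rfl | rfl | rfl | rfl | rfl | rfl | rfl | rfl | rfl | rfl | rfl | rfl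
  · exact fca0
  · exact fca1
  · exact fca2
  · exact fca3
  · exact fca4
  · exact fca5
  · exact fca6
  · exact fca7
  · exact fca8
  · exact fca9
  · exact fca10
  · exact fca11
  · exact fca12
  · exact fca13
  · exact fca14
  · exact fca15
  · exact fca16

end Pool.Agent.U129.UC
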