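import Pool.Agent.U129.UC.Grow

set_option autoImplicit false

/-!
# Families of 3-sets which are not FC
-/

namespace Pool.Agent.U129.UC

open Finset

theorem full_zero (W : Finset ℕ) (c : ℕ → ℝ) :
    ∑ U ∈ W.powerset, (∑ k ∈ W, c k - 2 * ∑ k ∈ U, c k) = 0 := by
  rw [← leaving_eq (fun T hT => mem_powerset.1 hT) (by
    intro T hT T' hT'
    rw [mem_powerset] at *
    exact hT'.trans hT) c]
  refine sum_eq_zero fun T hT => ?_
  refine sum_eq_zero fun k hk => ?_
  rw [mem_filter] at hk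
  exact absurd (mem_powerset.2 (insert_subset hk.1 (mem_powerset.1 hT))) hk.2.2

/-- the sum of a product family -/
theorem prod_sum {N V : Finset ℕ} (hV : V ⊆ N) {I : Finset (Finset ℕ)} (hI : ∀ T ∈ I, T ⊆ V)
    (c : ℕ → ℝ) :
    ((N.powerset.filter (fun D => D ∩ V ∈ I)).card : ℝ) = I.card * (N \ V).powerset.card ∧
    ∑ D ∈ N.powerset.filter (fun D => D ∩ V ∈ I), (∑ k ∈ N, c k - 2 * ∑ k ∈ D, c k) =
      (N \ V).powerset.card * ∑ T ∈ I, (∑ k ∈ V, c k - 2 * ∑ k ∈ T, c k) := by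
  classical
  set 𝒟 := N.powerset.filter (fun D => D ∩ V ∈ I) with h𝒟
  have hmem : ∀ D, D ∈ 𝒟 ↔ D ⊆ N ∧ D ∩ V ∈ I := by
    intro D; rw [h𝒟, mem_filter, mem_powerset]
  have e1 : ∀ T ∈ I, ∀ U, U ⊆ N \ V → (T ∪ U) ∩ V = T := by
    intro T hT U hU
    rw [union_inter_distrib_right, inter_eq_left.2 (hI T hT),
      disjoint_iff_inter_eq_empty.1 (disjoint_of_subset_left hU sdiff_disjoint), union_empty]
  have e2 : ∀ T ∈ I, ∀ U, U ⊆ N \ V → (T ∪ U) \ V = U := by
    intro T hT U hU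
    rw [union_sdiff_distrib, sdiff_eq_empty_iff_subset.2 (hI T hT), empty_union,
      sdiff_eq_self_of_disjoint (disjoint_of_subset_left hU sdiff_disjoint)]
  constructor
  · have : 𝒟.card = (I ×ˢ (N \ V).powerset).card := by
      refine card_bij' (fun D _ => (D ∩ V, D \ V)) (fun p _ => p.1 ∪ p.2) ?_ ?_ ?_ ?_
      · intro D hD
        rw [hmem] at hD
        rw [mem_product, mem_powerset]
        exact ⟨hD.2, sdiff_subset_sdiff hD.1 subset_rfl⟩
      · rintro ⟨T, U⟩ hp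
        rw [mem_product, mem_powerset] at hp
        rw [hmem]
        exact ⟨union_subset ((hI T hp.1).trans hV) (hp.2.trans sdiff_subset),
          by rw [e1 T hp.1 U hp.2]; exact hp.1⟩
      · intro D _
        rw [union_comm]; exact sdiff_union_inter D V
      · rintro ⟨T, U⟩ hp
        rw [mem_product, mem_powerset] at hp
        exact Prod.ext (e1 T hp.1 U hp.2) (e2 T hp.1 U hp.2)
    rw [this, card_product]
    push_cast
    rfl
  · have h1 : ∑ D ∈ 𝒟, (∑ k ∈ N, c k - 2 * ∑ k ∈ D, c k) =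
        ∑ p ∈ I ×ˢ (N \ V).powerset, ((∑ k ∈ V, c k - 2 * ∑ k ∈ p.1, c k) +
          (∑ k ∈ N \ V, c k - 2 * ∑ k ∈ p.2, c k)) := by
      refine sum_bij' (fun D _ => (D ∩ V, D \ V)) (fun p _ => p.1 ∪ p.2) ?_ ?_ ?_ ?_ ?_
      · intro D hD
        rw [hmem] at hD
        rw [mem_product, mem_powerset]
        exact ⟨hD.2, sdiff_subset_sdiff hD.1 subset_rfl⟩
      · rintro ⟨T, U⟩ hp
        rw [mem_product, mem_powerset] at hp
        rw [hmem]
        exact ⟨union_subset ((hI T hp.1).trans hV) (hp.2.trans sdiff_subset),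
          by rw [e1 T hp.1 U hp.2]; exact hp.1⟩
      · intro D _
        rw [union_comm]; exact sdiff_union_inter D V
      · rintro ⟨T, U⟩ hp
        rw [mem_product, mem_powerset] at hp
        exact Prod.ext (e1 T hp.1 U hp.2) (e2 T hp.1 U hp.2)
      · intro D hD
        have a1 : ∑ k ∈ N \ V, c k + ∑ k ∈ V, c k = ∑ k ∈ N, c k := sum_sdiff hV
        have a2 : ∑ k ∈ D \ V, c k + ∑ k ∈ D ∩ V, c k = ∑ k ∈ D, c k := by
          rw [← sum_sdiff (inter_subset_left : D ∩ V ⊆ D), sdiff_inter_self_left]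
        show _ = (∑ k ∈ V, c k - 2 * ∑ k ∈ D ∩ V, c k) +
          (∑ k ∈ N \ V, c k - 2 * ∑ k ∈ D \ V, c k)
        linarith
    rw [h1, sum_add_distrib, sum_product, sum_product]
    simp only [full_zero, sum_const_zero, add_zero, sum_const, nsmul_eq_mul]
    rw [mul_sum]

/-- the elements joined to `y` by a member of `G` -/
def lk (G : Finset (Finset ℕ)) (y : ℕ) : Finset ℕ := ((G.filter (fun B => y ∈ B)).biUnion id).erase y

theorem indep_sub {G : Finset (Finset ℕ)} {y : ℕ} {V : Finset ℕ} : ∀ T ∈ indep G y V, T ⊆ V := by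
  intro T hT
  unfold indep at hT
  rw [mem_filter, mem_powerset] at hT
  exact hT.1

/-- the inequality at `y` -/
def Ineq (G : Finset (Finset ℕ)) (c : ℕ → ℝ) (y : ℕ) : Prop :=
  c y * (indep G y (lk G y)).card ≤
    ∑ T ∈ indep G y (lk G y), (∑ k ∈ lk G y, c k - 2 * ∑ k ∈ T, c k)

theorem ineq_of {G : Finset (Finset ℕ)} {c : ℕ → ℝ} {y : ℕ}
    (h : ∀ 𝒟 : Finset (Finset ℕ), Pool.Agent.N188.FC.Valid (G.biUnion id) G y 𝒟 →
      c y * 𝒟.card ≤ ∑ D ∈ 𝒟, ∑ k ∈ ((G.biUnion id).erase y).filter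
        (fun k => k ∉ D ∧ insert k D ∉ 𝒟), c k) : Ineq G c y := by
  classical
  set N := (G.biUnion id).erase y with hN
  set V := lk G y with hV
  have hVN : V ⊆ N := by
    rw [hV, hN]
    unfold lk
    exact erase_subset_erase _ (biUnion_subset_biUnion_of_subset_left id (filter_subset _ _))
  obtain ⟨p1, p2⟩ := prod_sum hVN (I := indep G y V) indep_sub c
  set 𝒟 := N.powerset.filter (fun D => D ∩ V ∈ indep G y V) with h𝒟
  have hmem : ∀ D, D ∈ 𝒟 ↔ D ⊆ N ∧ ∀ B ∈ G, y ∈ B → ¬ B ⊆ insert y D := by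
    intro D
    rw [h𝒟, mem_filter, mem_powerset]
    unfold indep
    rw [mem_filter, mem_powerset]
    constructor
    · rintro ⟨h1, _, h2⟩
      refine ⟨h1, fun B hB hy hsub => h2 B hB hy ?_⟩
      intro k hk
      rw [mem_insert]
      rcases mem_insert.1 (hsub hk) with h3 | h3
      · exact Or.inl h3
      · by_cases h4 : k = y
        · exact Or.inl h4
        right
        rw [mem_inter]
        refine ⟨h3, ?_⟩
        rw [hV]
        unfold lk
        rw [mem_erase, mem_biUnion]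
        exact ⟨h4, B, mem_filter.2 ⟨hB, hy⟩, hk⟩
    · rintro ⟨h1, h2⟩
      refine ⟨h1, inter_subset_right, fun B hB hy hsub => h2 B hB hy (hsub.trans ?_)⟩
      exact insert_subset_insert _ inter_subset_left
  have hdown : ∀ T ∈ 𝒟, ∀ T' ⊆ T, T' ∈ 𝒟 := by
    intro T hT T' hT'
    rw [hmem] at hT ⊢
    exact ⟨hT'.trans hT.1, fun B hB hy hsub => hT.2 B hB hy
      (hsub.trans (insert_subset_insert _ hT'))⟩
  have h1 := h 𝒟 ⟨fun D hD => ((hmem D).1 hD).1, hdown, fun D hD => ((hmem D).1 hD).2⟩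
  rw [leaving_eq (fun D hD => ((hmem D).1 hD).1) hdown, p1, p2] at h1
  unfold Ineq
  have hpos : (0 : ℝ) < ((N \ V).powerset.card : ℝ) := by
    exact_mod_cast card_pos.2 ⟨∅, empty_mem_powerset _⟩
  rw [← mul_assoc, mul_comm ((N \ V).powerset.card : ℝ)] at h1
  exact le_of_mul_le_mul_right h1 hpos

end Pool.Agent.U129.UC
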