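import Pool.Agent.U129.UC.Neg

set_option autoImplicit false

/-!
# Families of 3-sets which are not FC: conclusion
-/

namespace Pool.Agent.U129.UC

open Finset

/-- coefficients of the inequalities -/
def coef (N : Finset (Finset ℕ)) (i j : ℕ) : ℤ :=
  (if i = j then ((indep N i (lk N i)).card : ℤ) else 0) -
    ∑ T ∈ indep N i (lk N i), ((if j ∈ lk N i then 1 else 0) - 2 * (if j ∈ T then 1 else 0))

theorem no_weights {N : Finset (Finset ℕ)} {n : ℕ} {y : ℕ → ℕ} (hN : ∀ A ∈ N, ∀ i ∈ A, i < n)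
    (hc : ∀ j ∈ range n, (0 : ℤ) < ∑ i ∈ range n, (y i : ℤ) * coef N i j) {d : ℕ → ℝ}
    (hd : ∀ i, 0 ≤ d i) (hi : ∀ i < n, Ineq N d i) : ∀ j < n, d j = 0 := by
  classical
  have hV : ∀ i, lk N i ⊆ range n := by
    intro i k hk
    unfold lk at hk
    rw [mem_erase, mem_biUnion] at hk
    obtain ⟨_, B, hB, hkB⟩ := hk
    exact mem_range.2 (hN B (mem_filter.1 hB).1 k hkB)
  have h1 : ∀ i ∈ range n, ∑ j ∈ range n, (coef N i j : ℝ) * d j ≤ 0 := by
    intro i hin
    have h2 := hi i (mem_range.1 hin)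
    unfold Ineq at h2
    have h3 : ∑ j ∈ range n, (coef N i j : ℝ) * d j = d i * (indep N i (lk N i)).card -
        ∑ T ∈ indep N i (lk N i), (∑ k ∈ lk N i, d k - 2 * ∑ k ∈ T, d k) := by
      unfold coef
      push_cast
      simp_rw [sub_mul]
      rw [sum_sub_distrib]
      congr 1
      · simp_rw [ite_mul, zero_mul]
        rw [sum_ite_eq, if_pos hin]
        ring
      · simp_rw [sum_mul]
        rw [sum_comm]
        refine sum_congr rfl fun T hT => ?_
        have hTn : T ⊆ range n := (indep_sub T hT).trans (hV i)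
        simp_rw [sub_mul, mul_assoc, ite_mul, one_mul, zero_mul]
        rw [sum_sub_distrib, ← mul_sum, ← sum_filter, ← sum_filter, filter_mem_eq_inter,
          filter_mem_eq_inter, inter_eq_right.2 (hV i), inter_eq_right.2 hTn]
    rw [h3]
    linarith
  have h2 : ∑ j ∈ range n, ((∑ i ∈ range n, (y i : ℤ) * coef N i j : ℤ) : ℝ) * d j ≤ 0 := by
    have h3 : ∑ j ∈ range n, ((∑ i ∈ range n, (y i : ℤ) * coef N i j : ℤ) : ℝ) * d j =
        ∑ i ∈ range n, (y i : ℝ) * ∑ j ∈ range n, (coef N i j : ℝ) * d j := by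
      push_cast
      simp_rw [sum_mul, mul_sum]
      rw [sum_comm]
      refine sum_congr rfl fun i _ => sum_congr rfl fun j _ => ?_
      ring
    rw [h3]
    refine sum_nonpos fun i hin => ?_
    exact mul_nonpos_of_nonneg_of_nonpos (Nat.cast_nonneg _) (h1 i hin)
  have hnn : ∀ j ∈ range n, 0 ≤ ((∑ i ∈ range n, (y i : ℤ) * coef N i j : ℤ) : ℝ) * d j := by
    intro j hj
    exact mul_nonneg (by exact_mod_cast (hc j hj).le) (hd j)
  intro j hj
  have h4 := (sum_eq_zero_iff_of_nonneg hnn).1 (le_antisymm h2 (sum_nonneg hnn)) j (mem_range.2 hj)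
  rcases mul_eq_zero.1 h4 with h5 | h5
  · have := hc j (mem_range.2 hj)
    have h6 : (∑ i ∈ range n, (y i : ℤ) * coef N i j : ℤ) = 0 := by exact_mod_cast h5
    omega
  · exact h5

theorem lk_ren (σ : Equiv.Perm ℕ) (N : Finset (Finset ℕ)) (i : ℕ) :
    lk (ren σ N) (σ i) = (lk N i).image σ := by
  ext k
  unfold lk
  simp only [mem_erase, mem_biUnion, mem_filter, id, mem_image, mem_ren]
  constructor
  · rintro ⟨hk, B, ⟨⟨A, hA, rfl⟩, hi⟩, hkB⟩
    obtain ⟨j, hj, rfl⟩ := mem_image.1 hkB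
    obtain ⟨i', hi', h⟩ := mem_image.1 hi
    rw [σ.injective h] at hi'
    exact ⟨j, ⟨fun h => hk (by rw [h]), A, ⟨hA, hi'⟩, hj⟩, rfl⟩
  · rintro ⟨j, ⟨hj, A, ⟨hA, hi⟩, hjA⟩, rfl⟩
    exact ⟨fun h => hj (σ.injective h), A.image σ, ⟨⟨A, hA, rfl⟩, mem_image_of_mem _ hi⟩,
      mem_image_of_mem _ hjA⟩

theorem indep_ren (σ : Equiv.Perm ℕ) (N : Finset (Finset ℕ)) (i : ℕ) (V : Finset ℕ) :
    indep (ren σ N) (σ i) (V.image σ) = (indep N i V).image (fun T => T.image σ) := by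
  ext T
  unfold indep
  simp only [mem_filter, mem_powerset, mem_image]
  constructor
  · rintro ⟨hT, h⟩
    obtain ⟨T', hT', rfl⟩ := subset_image_iff.1 hT
    refine ⟨T', ⟨hT', fun B hB hi hsub => ?_⟩, rfl⟩
    refine h (B.image σ) (mem_ren.2 ⟨B, hB, rfl⟩) (mem_image_of_mem _ hi) ?_
    rw [← image_insert]
    exact image_subset_image hsub
  · rintro ⟨T', ⟨hT', h⟩, rfl⟩
    refine ⟨image_subset_image hT', ?_⟩
    intro B hB hi hsub
    obtain ⟨A, hA, rfl⟩ := mem_ren.1 hB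
    obtain ⟨i', hi', h'⟩ := mem_image.1 hi
    rw [σ.injective h'] at hi'
    rw [← image_insert] at hsub
    refine h A hA hi' ?_
    exact (image_subset_image_iff σ.injective).1 hsub

theorem ineq_ren {σ : Equiv.Perm ℕ} {N : Finset (Finset ℕ)} {c : ℕ → ℝ} {i : ℕ}
    (h : Ineq (ren σ N) c (σ i)) : Ineq N (fun k => c (σ k)) i := by
  unfold Ineq at *
  rw [lk_ren, indep_ren, card_image_of_injective _ (inj_image σ),
    sum_image (fun _ _ _ _ h => inj_image σ h)] at h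
  rw [show (∑ T ∈ indep N i (lk N i), (∑ k ∈ lk N i, c (σ k) - 2 * ∑ k ∈ T, c (σ k))) =
    ∑ x ∈ indep N i (lk N i), (∑ k ∈ (lk N i).image σ, c k - 2 * ∑ k ∈ x.image σ, c k) from ?_]
  · exact h
  refine sum_congr rfl fun T _ => ?_
  rw [sum_image (fun _ _ _ _ h => σ.injective h), sum_image (fun _ _ _ _ h => σ.injective h)]

theorem ineq_sub {G C : Finset (Finset ℕ)} (hCG : C ⊆ G) {c : ℕ → ℝ} {y : ℕ}
    (hy : ∀ B ∈ G, y ∈ B → B ∈ C) (h : Ineq G c y) : Ineq C c y := by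
  have h1 : G.filter (fun B => y ∈ B) = C.filter (fun B => y ∈ B) := by
    ext B
    rw [mem_filter, mem_filter]
    exact ⟨fun h => ⟨hy B h.1 h.2, h.2⟩, fun h => ⟨hCG h.1, h.2⟩⟩
  have h2 : lk G y = lk C y := by unfold lk; rw [h1]
  have h3 : ∀ V, indep G y V = indep C y V := by
    intro V
    ext T
    unfold indep
    rw [mem_filter, mem_filter]
    constructor
    · rintro ⟨h4, h5⟩
      exact ⟨h4, fun B hB => h5 B (hCG hB)⟩
    · rintro ⟨h4, h5⟩
      exact ⟨h4, fun B hB hyB => h5 B (hy B hB hyB) hyB⟩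
  unfold Ineq at *
  rw [h2, h3] at h
  exact h

/-- multipliers -/
def yL1 (i : ℕ) : ℕ := [1, 1, 1].getD i 0
/-- multipliers -/
def yL2 (i : ℕ) : ℕ := [2, 2, 1, 2, 2].getD i 0
/-- multipliers -/
def yL3 (i : ℕ) : ℕ := [5, 5, 3, 7, 3, 5, 5].getD i 0
/-- multipliers -/
def yL4 (i : ℕ) : ℕ := [17, 17, 11, 25, 13, 25, 11, 17, 17].getD i 0
/-- multipliers -/
def yF1 (i : ℕ) : ℕ := [4, 4, 3, 3].getD i 0
/-- multipliers -/
def yF2 (i : ℕ) : ℕ := [8, 8, 3, 5, 5, 6].getD i 0
/-- multipliers -/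
def yF3 (i : ℕ) : ℕ := [65, 65, 28, 52, 23, 35, 35, 44].getD i 0

theorem nons_dual : ∀ N ∈ nons, ∃ n, ∃ y : ℕ → ℕ, (∀ A ∈ N, ∀ i ∈ A, i < n) ∧
    (∀ j ∈ range n, (0 : ℤ) < ∑ i ∈ range n, (y i : ℤ) * coef N i j) ∧
    (∀ i < n, i ∈ N.biUnion id) := by
  intro N hN
  simp only [nons, List.mem_cons, List.not_mem_nil, or_false] at hN
  rcases hN with rfl | rfl | rfl | rfl | rfl | rfl | rfl
  · exact ⟨3, yL1, by decide, by decide +kernel, by decide⟩
  · exact ⟨5, yL2, by decide, by decide +kernel, by decide⟩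
  · exact ⟨7, yL3, by decide, by decide +kernel, by decide⟩
  · exact ⟨9, yL4, by decide, by decide +kernel, by decide⟩
  · exact ⟨4, yF1, by decide, by decide +kernel, by decide⟩
  · exact ⟨6, yF2, by decide, by decide +kernel, by decide⟩
  · exact ⟨8, yF3, by decide, by decide +kernel, by decide⟩

/-- every finite union-closed family which contains `G` has an element of a member of `G` in at
least half of its members -/
def FC (G : Finset (Finset ℕ)) : Prop :=
  ∀ F : Finset (Finset ℕ), (∀ A ∈ F, ∀ B ∈ F, A ∪ B ∈ F) → G ⊆ F →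
    ∃ x ∈ G.biUnion id, F.card ≤ 2 * (F.filter (fun A => x ∈ A)).card

theorem FCa.fc {G : Finset (Finset ℕ)} (h : FCa G) : FC G :=
  fun F hF hG => h F hF (fun A hA B hB => hF A hA B (hG hB))

theorem not_fc {G : Finset (Finset ℕ)} (h3 : ∀ A ∈ G, A.Nonempty → A.card = 3)
    (h : ∀ C ⊆ G, (∀ A ∈ C, A.card = 3) → Conn C → ∃ N ∈ nons, Iso N C) : ¬ FC G := by
  classical
  intro hFC
  obtain ⟨c, hc0, ⟨x0, hx0, hpos⟩, hc⟩ := Pool.Agent.N188.FC.weights_of_fc (G := G)
    (S := G.biUnion id) (fun B hB => subset_biUnion_of_mem id hB) hFC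
  rw [mem_biUnion] at hx0
  obtain ⟨A0, hA0, hxA0⟩ := hx0
  -- the component
  let 𝒮 : Finset (Finset (Finset ℕ)) :=
    G.powerset.filter (fun C => A0 ∈ C ∧ (∀ A ∈ C, A.card = 3) ∧ Conn C)
  have hmem : ∀ C, C ∈ 𝒮 ↔ C ⊆ G ∧ A0 ∈ C ∧ (∀ A ∈ C, A.card = 3) ∧ Conn C := by
    intro C; simp only [𝒮, mem_filter, mem_powerset]
  have hone : {A0} ∈ 𝒮 := by
    rw [hmem]
    refine ⟨singleton_subset_iff.2 hA0, mem_singleton_self _, ?_, singleton_nonempty _, ?_⟩
    · intro A hA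
      rw [mem_singleton.1 hA]
      exact h3 A0 hA0 ⟨x0, hxA0⟩
    intro H hH hne hne2
    rcases subset_singleton_iff.1 hH with h1 | h1
    · rw [h1] at hne; exact absurd hne (by simp)
    · exact absurd h1 hne2
  obtain ⟨C, hC, hmax⟩ := exists_max_image 𝒮 Finset.card ⟨_, hone⟩
  rw [hmem] at hC
  obtain ⟨hCG, hAC, hC3, hconn⟩ := hC
  have hcomp : ∀ B ∈ G, B ∉ C → ∀ A ∈ C, Disjoint A B := by
    intro B hB hBC A hA
    by_contra hd
    have h1 : insert B C ∈ 𝒮 := by
      rw [hmem]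
      refine ⟨insert_subset hB hCG, mem_insert_of_mem hAC, ?_, insert_nonempty _ _, ?_⟩
      · intro D hD
        rcases mem_insert.1 hD with h2 | h2
        · rw [h2]
          refine h3 B hB ?_
          obtain ⟨z, _, hz⟩ := not_disjoint_iff.1 hd
          exact ⟨z, hz⟩
        · exact hC3 D h2
      intro H hH hHne hHn
      by_cases hBH : B ∈ H
      · by_cases hHC : (H ∩ C).Nonempty
        · by_cases hall : H ∩ C = C
          · exfalso
            apply hHn
            refine subset_antisymm hH (insert_subset hBH ?_)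
            rw [← hall]; exact inter_subset_left
          · obtain ⟨A', hA', B', hB', hn, hd'⟩ := hconn.2 (H ∩ C) inter_subset_right hHC hall
            exact ⟨A', (mem_inter.1 hA').1, B', mem_insert_of_mem hB',
              fun h2 => hn (mem_inter.2 ⟨h2, hB'⟩), hd'⟩
        · rw [not_nonempty_iff_eq_empty] at hHC
          refine ⟨B, hBH, A, mem_insert_of_mem hA, ?_, ?_⟩
          · intro h2
            have : A ∈ H ∩ C := mem_inter.2 ⟨h2, hA⟩
            rw [hHC] at this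
            exact absurd this (notMem_empty _)
          · rwa [disjoint_comm]
      · have hHC : H ⊆ C := by
          intro D hD
          rcases mem_insert.1 (hH hD) with h2 | h2
          · exact absurd (h2 ▸ hD) hBH
          · exact h2
        by_cases hall : H = C
        · exact ⟨A, hall ▸ hA, B, mem_insert_self _ _, hBH, hd⟩
        · obtain ⟨A', hA', B', hB', hn, hd'⟩ := hconn.2 H hHC hHne hall
          exact ⟨A', hA', B', mem_insert_of_mem hB', hn, hd'⟩
    have h2 := hmax _ h1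
    rw [card_insert_of_notMem hBC] at h2
    omega
  obtain ⟨N, hN, σ, rfl⟩ := h C hCG hC3 hconn
  obtain ⟨n, y, hn, hy, hall⟩ := nons_dual N hN
  have hineq : ∀ i < n, Ineq N (fun k => c (σ k)) i := by
    intro i hi
    obtain ⟨A, hA, hiA⟩ := mem_biUnion.1 (hall i hi)
    have hσA : A.image σ ∈ ren σ N := mem_ren.2 ⟨A, hA, rfl⟩
    have hσi : σ i ∈ A.image σ := mem_image_of_mem _ hiA
    apply ineq_ren
    refine ineq_sub hCG ?_ (ineq_of (hc (σ i) (mem_biUnion.2 ⟨_, hCG hσA, hσi⟩)))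
    intro B hB hyB
    by_contra hBC
    exact (disjoint_left.1 (hcomp B hB hBC _ hσA)) hσi hyB
  have hz := no_weights hn hy (d := fun k => c (σ k)) (fun i => hc0 _) hineq
  obtain ⟨A1, hA1, hA1'⟩ := mem_ren.1 hAC
  rw [← hA1'] at hxA0
  obtain ⟨i, hi, rfl⟩ := mem_image.1 hxA0
  have := hz i (hn A1 hA1 i hi)
  linarith

theorem nons_not_fc : ∀ N ∈ nons, ¬ FC N := by
  intro N hN hFC
  obtain ⟨c, hc0, ⟨x0, hx0, hpos⟩, hc⟩ := Pool.Agent.N188.FC.weights_of_fc (G := N)
    (S := N.biUnion id) (fun B hB => subset_biUnion_of_mem id hB) hFC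
  obtain ⟨n, y, hn, hy, hall⟩ := nons_dual N hN
  have hz := no_weights hn hy hc0 (fun i hi => ineq_of (hc i (hall i hi)))
  obtain ⟨A0, hA0, hxA0⟩ := mem_biUnion.1 hx0
  have := hz x0 (hn A0 hA0 x0 hxA0)
  linarith

theorem fca_one {A : Finset ℕ} (h : A.card = 1) : FCa {A} := by
  obtain ⟨a, rfl⟩ := card_eq_one.1 h
  have h0 : FCa {{0}} := by
    refine fca_of_cert (c := fun _ => 1) (cert := fun _ => [(∅, 1)]) ?_ ?_
    · decide +kernel
    · decide +kernel
  have h1 := h0.ren (Equiv.swap 0 a)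
  have h2 : ren (Equiv.swap 0 a) {{0}} = {{a}} := by
    unfold ren
    rw [image_singleton, image_singleton, Equiv.swap_apply_left]
  rwa [h2] at h1

theorem fca_two {A : Finset ℕ} (h : A.card = 2) : FCa {A} := by
  obtain ⟨a, b, hab, rfl⟩ := card_eq_two.1 h
  have h0 : FCa {{0, 1}} := by
    refine fca_of_cert (c := fun _ => 1) (cert := fun i => [({1 - i}, 1)]) ?_ ?_
    · decide +kernel
    · decide +kernel
  obtain ⟨b', hb'⟩ : ∃ b', b' = Equiv.swap 0 a b := ⟨_, rfl⟩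
  have hb1 : b' ≠ 0 := by
    rw [hb']; intro h
    have : Equiv.swap 0 a b = Equiv.swap 0 a a := by rw [h, Equiv.swap_apply_right]
    exact hab ((Equiv.swap 0 a).injective this).symm
  have h1 := h0.ren ((Equiv.swap 1 b').trans (Equiv.swap 0 a))
  have h2 : ren ((Equiv.swap 1 b').trans (Equiv.swap 0 a)) {{0, 1}} = {{a, b}} := by
    unfold ren
    rw [image_singleton, image_insert, image_singleton]
    simp only [Equiv.trans_apply]
    rw [Equiv.swap_apply_left, Equiv.swap_apply_of_ne_of_ne (a := 1) (by omega) hb1.symm,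
      Equiv.swap_apply_left, hb', Equiv.swap_apply_self]
  rwa [h2] at h1

/-- **the classification** -/
theorem classification {G : Finset (Finset ℕ)} (h3 : ∀ A ∈ G, A.card ≤ 3) :
    (FC G ↔ FCa G) ∧ (FC G ↔ (∃ A ∈ G, A.card = 1 ∨ A.card = 2) ∨
      ∃ C ⊆ G, (∀ A ∈ C, A.card = 3) ∧ Conn C ∧ ¬ ∃ N ∈ nons, Iso N C) := by
  have key : ((∃ A ∈ G, A.card = 1 ∨ A.card = 2) ∨
      ∃ C ⊆ G, (∀ A ∈ C, A.card = 3) ∧ Conn C ∧ ¬ ∃ N ∈ nons, Iso N C) → FCa G := by
    rintro (⟨A, hA, h1 | h2⟩ | ⟨C, hCG, hC3, hC, hno⟩)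
    · exact (fca_one h1).mono (singleton_subset_iff.2 hA)
    · exact (fca_two h2).mono (singleton_subset_iff.2 hA)
    · exact ((dichotomy hC3 hC).resolve_right hno).mono hCG
  have key2 : FC G → ((∃ A ∈ G, A.card = 1 ∨ A.card = 2) ∨
      ∃ C ⊆ G, (∀ A ∈ C, A.card = 3) ∧ Conn C ∧ ¬ ∃ N ∈ nons, Iso N C) := by
    intro h
    by_contra hcon
    push Not at hcon
    refine not_fc (fun A hA hne => ?_) (fun C hC h3 hconn => hcon.2 C hC h3 hconn) h
    have h1 := h3 A hA
    have h2 := hcon.1 A hA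
    have h4 := hne.card_pos
    omega
  exact ⟨⟨fun h => key (key2 h), fun h => h.fc⟩, ⟨key2, fun h => (key h).fc⟩⟩

end Pool.Agent.U129.UC
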