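import Pool.Agent.U129.UC.Base

set_option autoImplicit false

/-!
# Renaming of the elements
-/

namespace Pool.Agent.U129.UC

open Finset

/-- renaming of the elements of the members of a family -/
def ren (f : ℕ → ℕ) (G : Finset (Finset ℕ)) : Finset (Finset ℕ) := G.image (fun A => A.image f)

theorem mem_ren {f : ℕ → ℕ} {G : Finset (Finset ℕ)} {B : Finset ℕ} :
    B ∈ ren f G ↔ ∃ A ∈ G, A.image f = B := by
  unfold ren; rw [mem_image]

theorem ren_ren (f g : ℕ → ℕ) (G : Finset (Finset ℕ)) : ren f (ren g G) = ren (f ∘ g) G := by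
  unfold ren
  rw [image_image]
  congr 1
  ext1 A
  exact image_image

theorem ren_id (G : Finset (Finset ℕ)) : ren id G = G := by
  unfold ren
  simp

theorem ren_symm (σ : Equiv.Perm ℕ) (G : Finset (Finset ℕ)) : ren σ.symm (ren σ G) = G := by
  rw [ren_ren, Equiv.symm_comp_self, ren_id]

theorem ren_symm' (σ : Equiv.Perm ℕ) (G : Finset (Finset ℕ)) : ren σ (ren σ.symm G) = G := by
  rw [ren_ren, Equiv.self_comp_symm, ren_id]

theorem ren_insert (f : ℕ → ℕ) (B : Finset ℕ) (G : Finset (Finset ℕ)) :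
    ren f (insert B G) = insert (B.image f) (ren f G) := by
  unfold ren; rw [image_insert]

theorem ren_mono (f : ℕ → ℕ) {G G' : Finset (Finset ℕ)} (h : G ⊆ G') : ren f G ⊆ ren f G' :=
  image_subset_image h

theorem inj_image (σ : Equiv.Perm ℕ) : Function.Injective (fun A : Finset ℕ => A.image σ) :=
  image_injective σ.injective

theorem card_ren (σ : Equiv.Perm ℕ) (G : Finset (Finset ℕ)) : (ren σ G).card = G.card :=
  card_image_of_injective _ (inj_image σ)

theorem FCa.mono {G G' : Finset (Finset ℕ)} (h : FCa G) (hs : G ⊆ G') : FCa G' := by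
  intro F hF ha
  obtain ⟨x, hx, h1⟩ := h F hF (fun A hA B hB => ha A hA B (hs hB))
  exact ⟨x, biUnion_subset_biUnion_of_subset_left id hs hx, h1⟩

theorem FCa.ren {G : Finset (Finset ℕ)} (h : FCa G) (σ : Equiv.Perm ℕ) :
    FCa (ren σ G) := by
  intro F hF ha
  have hcard : (UC.ren σ.symm F).card = F.card := card_ren _ _
  obtain ⟨x, hx, h1⟩ := h (UC.ren σ.symm F) (by
    intro A hA B hB
    rw [mem_ren] at hA hB ⊢
    obtain ⟨A', hA', rfl⟩ := hA
    obtain ⟨B', hB', rfl⟩ := hB
    exact ⟨A' ∪ B', hF _ hA' _ hB', image_union _ _⟩) (by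
    intro A hA B hB
    rw [mem_ren] at hA ⊢
    obtain ⟨A', hA', rfl⟩ := hA
    refine ⟨A' ∪ B.image σ, ha _ hA' _ (mem_ren.2 ⟨B, hB, rfl⟩), ?_⟩
    rw [image_union, image_image, Equiv.symm_comp_self, image_id])
  refine ⟨σ x, ?_, ?_⟩
  · rw [mem_biUnion] at hx ⊢
    obtain ⟨A, hA, hxA⟩ := hx
    exact ⟨A.image σ, mem_ren.2 ⟨A, hA, rfl⟩, mem_image_of_mem σ hxA⟩
  · rw [hcard] at h1
    refine h1.trans (le_of_eq ?_)
    congr 1
    have : (UC.ren σ.symm F).filter (fun A => x ∈ A) =
        (F.filter (fun A => σ x ∈ A)).image (fun A => A.image σ.symm) := by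
      ext A
      simp only [UC.ren, mem_filter, mem_image]
      constructor
      · rintro ⟨⟨A', hA', rfl⟩, hx⟩
        obtain ⟨y, hy, rfl⟩ := mem_image.1 hx
        exact ⟨A', ⟨hA', by simpa using hy⟩, rfl⟩
      · rintro ⟨A', ⟨hA', hx⟩, rfl⟩
        exact ⟨⟨A', hA', rfl⟩, mem_image.2 ⟨σ x, hx, by simp⟩⟩
    rw [this]
    exact card_image_of_injective _ (inj_image _)

/-- two families are isomorphic -/
def Iso (C C' : Finset (Finset ℕ)) : Prop := ∃ σ : Equiv.Perm ℕ, ren σ C = C'

theorem Iso.ren {C C' : Finset (Finset ℕ)} (h : Iso C C') (τ : Equiv.Perm ℕ) :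
    Iso C (ren τ C') := by
  obtain ⟨σ, rfl⟩ := h
  exact ⟨σ.trans τ, by rw [ren_ren]; rfl⟩

/-- one transposition -/
def tr (p : ℕ × ℕ) (i : ℕ) : ℕ := if i = p.1 then p.2 else if i = p.2 then p.1 else i

/-- product of transpositions, the first one of the list first -/
def ap (l : List (ℕ × ℕ)) (i : ℕ) : ℕ := l.foldl (fun x p => tr p x) i

/-- the permutation -/
def pm : List (ℕ × ℕ) → Equiv.Perm ℕ
  | [] => Equiv.refl ℕ
  | p :: l => (Equiv.swap p.1 p.2).trans (pm l)

theorem ap_eq (l : List (ℕ × ℕ)) : ap l = ⇑(pm l) := by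
  induction l with
  | nil => rfl
  | cons p l ih =>
    funext i
    have h1 : ap (p :: l) i = ap l (tr p i) := rfl
    rw [h1, ih]
    show pm l (tr p i) = pm l (Equiv.swap p.1 p.2 i)
    congr 1

theorem image_mem {n : ℕ} {B : Finset ℕ} (hB : B.card = 3) (σ : Equiv.Perm ℕ)
    (h : ∀ b ∈ B, σ b < n + 2) : B.image σ ∈ powersetCard 3 (range (n + 2)) := by
  rw [mem_powersetCard]
  refine ⟨?_, by rw [card_image_of_injective _ σ.injective, hB]⟩
  intro x hx
  obtain ⟨b, hb, rfl⟩ := mem_image.1 hx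
  exact mem_range.2 (h b hb)

/-- every 3-set with an element below `n` can be moved to a set of a finite list without moving the
numbers below `n` -/
theorem normal (n : ℕ) (B : Finset ℕ) (hB : B.card = 3) (h : ∃ i ∈ B, i < n) :
    ∃ σ : Equiv.Perm ℕ, (∀ i < n, σ i = i) ∧ B.image σ ∈ powersetCard 3 (range (n + 2)) ∧
      (n + 1 ∈ B.image σ → n ∈ B.image σ) := by
  obtain ⟨i, hi, hin⟩ := h
  obtain ⟨B', hB'⟩ : ∃ B', B' = B.filter (fun b => n ≤ b) := ⟨_, rfl⟩
  have hmem : ∀ b, b ∈ B' ↔ b ∈ B ∧ n ≤ b := by intro b; rw [hB', mem_filter]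
  have hc : B'.card ≤ 2 := by
    have h1 : B' ⊆ B.erase i := by
      intro b hb
      rw [hmem] at hb
      rw [mem_erase]
      exact ⟨by rintro rfl; omega, hb.1⟩
    have h2 := card_le_card h1
    rw [card_erase_of_mem hi, hB] at h2
    exact h2
  rcases Nat.lt_or_ge B'.card 1 with h0 | h0
  · have h1 : B' = ∅ := card_eq_zero.1 (by omega)
    have h2 : ∀ b ∈ B, b < n := by
      intro b hb
      by_contra h3
      have : b ∈ B' := (hmem b).2 ⟨hb, by omega⟩
      rw [h1] at this
      exact absurd this (notMem_empty _)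
    refine ⟨Equiv.refl ℕ, fun _ _ => rfl, image_mem hB _ (fun b hb => ?_), fun h3 => ?_⟩
    · show b < n + 2
      have := h2 b hb
      omega
    · obtain ⟨b, hb, hb'⟩ := mem_image.1 h3
      have := h2 b hb
      have hb'' : b = n + 1 := hb'
      omega
  rcases Nat.lt_or_ge B'.card 2 with h1 | h1
  · obtain ⟨y, hy⟩ := card_eq_one.1 (show B'.card = 1 by omega)
    have hyB := (hmem y).1 (by rw [hy]; exact mem_singleton_self _)
    refine ⟨Equiv.swap y n, fun j hj => Equiv.swap_apply_of_ne_of_ne (by omega) (by omega), ?_, ?_⟩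
    · refine image_mem hB _ (fun b hb => ?_)
      by_cases hb2 : b < n
      · rw [Equiv.swap_apply_of_ne_of_ne (by omega) (by omega)]; omega
      · have hb3 := (hmem b).2 ⟨hb, by omega⟩
        rw [hy, mem_singleton] at hb3
        rw [hb3, Equiv.swap_apply_left]; omega
    · intro _
      exact mem_image.2 ⟨y, hyB.1, Equiv.swap_apply_left _ _⟩
  · obtain ⟨y, z, hyz, hy⟩ := card_eq_two.1 (show B'.card = 2 by omega)
    have hyB := (hmem y).1 (by rw [hy]; exact mem_insert_self _ _)
    have hzB := (hmem z).1 (by rw [hy]; exact mem_insert_of_mem (mem_singleton_self _))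
    obtain ⟨z', hz'⟩ : ∃ z', z' = Equiv.swap y n z := ⟨_, rfl⟩
    have hz1 : z' ≠ n := by
      rw [hz']
      intro h2
      have : Equiv.swap y n z = Equiv.swap y n y := by rw [h2, Equiv.swap_apply_left]
      exact hyz ((Equiv.swap y n).injective this).symm
    have hz2 : n ≤ z' := by
      rw [hz', Equiv.swap_apply_def]
      split_ifs <;> omega
    refine ⟨(Equiv.swap y n).trans (Equiv.swap z' (n + 1)), ?_, ?_, ?_⟩
    · intro j hj
      rw [Equiv.trans_apply, Equiv.swap_apply_of_ne_of_ne (a := y) (by omega) (by omega),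
        Equiv.swap_apply_of_ne_of_ne (by omega) (by omega)]
    · refine image_mem hB _ (fun b hb => ?_)
      rw [Equiv.trans_apply]
      by_cases hb2 : b < n
      · rw [Equiv.swap_apply_of_ne_of_ne (a := y) (by omega) (by omega),
          Equiv.swap_apply_of_ne_of_ne (by omega) (by omega)]
        omega
      · have hb3 := (hmem b).2 ⟨hb, by omega⟩
        rw [hy, mem_insert, mem_singleton] at hb3
        rcases hb3 with rfl | rfl
        · rw [Equiv.swap_apply_left, Equiv.swap_apply_of_ne_of_ne hz1.symm (by omega)]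
          omega
        · rw [← hz', Equiv.swap_apply_left]
          omega
    · intro _
      refine mem_image.2 ⟨y, hyB.1, ?_⟩
      rw [Equiv.trans_apply, Equiv.swap_apply_left,
        Equiv.swap_apply_of_ne_of_ne hz1.symm (by omega)]

/-- all 3-sets are isomorphic -/
theorem single (A : Finset ℕ) (hA : A.card = 3) : ∃ σ : Equiv.Perm ℕ,
    ({0, 1, 2} : Finset ℕ).image σ = A := by
  obtain ⟨a, b, c, hab, hac, hbc, rfl⟩ := card_eq_three.1 hA
  obtain ⟨b', hb'⟩ : ∃ b', b' = Equiv.swap 0 a b := ⟨_, rfl⟩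
  have hb1 : b' ≠ 0 := by
    rw [hb']; intro h
    have : Equiv.swap 0 a b = Equiv.swap 0 a a := by rw [h, Equiv.swap_apply_right]
    exact hab ((Equiv.swap 0 a).injective this).symm
  obtain ⟨c', hc'⟩ : ∃ c', c' = Equiv.swap 1 b' (Equiv.swap 0 a c) := ⟨_, rfl⟩
  have e0 : Equiv.swap 1 b' 0 = 0 := Equiv.swap_apply_of_ne_of_ne (by omega) hb1.symm
  have hc0 : c' ≠ 0 := by
    rw [hc']; intro h
    have h2 := (Equiv.swap 1 b').injective (h.trans e0.symm)
    have : Equiv.swap 0 a c = Equiv.swap 0 a a := by rw [h2, Equiv.swap_apply_right]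
    exact hac ((Equiv.swap 0 a).injective this).symm
  have hc1 : c' ≠ 1 := by
    rw [hc']; intro h
    have h2 : Equiv.swap 1 b' (Equiv.swap 0 a c) = Equiv.swap 1 b' b' := by
      rw [h, Equiv.swap_apply_right]
    have h3 := (Equiv.swap 1 b').injective h2
    rw [hb'] at h3
    exact hbc ((Equiv.swap 0 a).injective h3).symm
  refine ⟨((Equiv.swap 2 c').trans (Equiv.swap 1 b')).trans (Equiv.swap 0 a), ?_⟩
  rw [image_insert, image_insert, image_singleton]
  simp only [Equiv.trans_apply]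
  have f0 : Equiv.swap 2 c' 0 = 0 := Equiv.swap_apply_of_ne_of_ne (by omega) hc0.symm
  have f1 : Equiv.swap 2 c' 1 = 1 := Equiv.swap_apply_of_ne_of_ne (by omega) hc1.symm
  have g1 : Equiv.swap 0 a b' = b := by rw [hb', Equiv.swap_apply_self]
  have g2 : Equiv.swap 0 a (Equiv.swap 1 b' c') = c := by
    rw [hc', Equiv.swap_apply_self, Equiv.swap_apply_self]
  rw [f0, f1, Equiv.swap_apply_left, e0, Equiv.swap_apply_left, Equiv.swap_apply_left, g1, g2]

end Pool.Agent.U129.UC
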