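import Pool.Agent.U129.UC.Neg2
import Pool.Agent.N188.FC.Strict

set_option autoImplicit false

/-!
# The strict form: forced elements
-/

namespace Pool.Agent.U129.UC

open Finset
open Pool.Agent.N188.FC

section

variable {α : Type*} [DecidableEq α] {K : Finset (Finset α)} {S : Finset α} {b c : α → ℝ}

open scoped Classical in
theorem boundary_b {G : Finset (Finset α)} (hc0 : ∀ x, 0 ≤ c x) (hb0 : ∀ x, 0 ≤ b x)
    (hU : ∀ A ∈ K, ∀ B ∈ K, A ∪ B ∈ K) (ha : ∀ A ∈ K, ∀ B ∈ G, A ∪ B ∈ K)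
    (hc : ∀ w ∈ S, ∀ D : Finset α → Prop, DownIn (S.erase w) D →
      (∀ A, D A → ¬ Up (fun B => insert w B ∈ G) A) →
        b w * cnt (S.erase w) D ≤ ec (S.erase w) c D) :
    ∑ w ∈ S, b w * (D S K w : ℝ) ≤ ∑ w ∈ S, c w * (Uw S K w : ℝ) := by
  have h1 : ∀ w ∈ S, (2 : ℝ) ^ (S.erase w).card * (b w * D S K w) ≤
      ∑ X ∈ S.powerset, ∑ k ∈ S.erase w, c k * ∑ W ∈ S.powerset, (ind (T K X k w W) : ℝ) := by
    intro w hw
    refine le_trans ?_ (Lc_le (K := K) hc0 hw)
    have := zedc (N := S.erase w) (Q := fun A => A ∈ K) (P := fun A => insert w A ∈ K)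
      (Y := fun B => insert w B ∈ G) hc0 (hb0 w) (hc w hw)
      (by
        intro A B hA hB
        have := hU _ hA _ hB
        rwa [insert_union] at this)
      (by
        intro A B hA hB
        have := hU _ hA _ hB
        have e : insert w A ∪ insert w B = insert w (A ∪ B) := by
          ext x; simp only [mem_union, mem_insert]; tauto
        rwa [e] at this)
      (by
        intro A B hA hB
        have := ha _ hB _ hA
        rwa [union_comm, insert_union] at this)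
      (by
        intro A B hA hB
        have := ha _ hB _ hA
        have e : insert w B ∪ insert w A = insert w (A ∪ B) := by
          ext x; simp only [mem_union, mem_insert]; tauto
        rwa [e] at this)
    exact this
  have h2 : ∀ w ∈ S, ∑ X ∈ S.powerset, ∑ k ∈ S.erase w, c k *
      ∑ W ∈ S.powerset, (ind (T K X k w W) : ℝ) =
      ∑ X ∈ S.powerset, ∑ k ∈ S, c k * ∑ W ∈ S.powerset,
        ((if k ∈ S.erase w then ind (T K X k w W) else 0 : ℕ) : ℝ) := by
    intro w hw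
    refine sum_congr rfl fun X _ => ?_
    have h3 : ∀ k, c k * ∑ W ∈ S.powerset,
        ((if k ∈ S.erase w then ind (T K X k w W) else 0 : ℕ) : ℝ) =
        if k ∈ S.erase w then c k * ∑ W ∈ S.powerset, (ind (T K X k w W) : ℝ) else 0 := by
      intro k; split_ifs <;> simp
    simp_rw [h3]
    rw [← sum_filter]
    congr 1
    ext k
    simp only [mem_filter, mem_erase]
    tauto
  have h3 : 2 * ∑ w ∈ S, ∑ X ∈ S.powerset, ∑ k ∈ S.erase w, c k *
      ∑ W ∈ S.powerset, (ind (T K X k w W) : ℝ) ≤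
      2 ^ S.card * ∑ w ∈ S, c w * (Uw S K w : ℝ) := by
    calc 2 * ∑ w ∈ S, ∑ X ∈ S.powerset, ∑ k ∈ S.erase w, c k *
        ∑ W ∈ S.powerset, (ind (T K X k w W) : ℝ)
        = 2 * ∑ w ∈ S, ∑ X ∈ S.powerset, ∑ k ∈ S, c k * ∑ W ∈ S.powerset,
        ((if k ∈ S.erase w then ind (T K X k w W) else 0 : ℕ) : ℝ) := by
          rw [sum_congr rfl h2]
      _ = ∑ X ∈ S.powerset, ∑ k ∈ S, c k * (2 * ∑ w ∈ S, ∑ W ∈ S.powerset,
          ((if k ∈ S.erase w then ind (T K X k w W) else 0 : ℕ) : ℝ)) := by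
          rw [sum_comm, mul_sum]
          refine sum_congr rfl fun X _ => ?_
          rw [sum_comm, mul_sum]
          refine sum_congr rfl fun k _ => ?_
          rw [← mul_sum]
          ring
      _ ≤ ∑ X ∈ S.powerset, ∑ k ∈ S, c k *
          (2 ^ S.card * (ind (k ∉ X ∧ X ∉ K ∧ insert k X ∈ K) : ℝ)) := by
          refine sum_le_sum fun X hX => sum_le_sum fun k _ =>
            mul_le_mul_of_nonneg_left ?_ (hc0 k)
          exact_mod_cast T_sum X (mem_powerset.1 hX) k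
      _ = 2 ^ S.card * ∑ w ∈ S, c w * (Uw S K w : ℝ) := by
          rw [sum_comm, mul_sum]
          refine sum_congr rfl fun k _ => ?_
          unfold Uw
          push_cast
          rw [mul_sum, mul_sum]
          refine sum_congr rfl fun X _ => ?_
          ring
  have h4 : (2 : ℝ) ^ S.card * (∑ w ∈ S, b w * (D S K w : ℝ)) ≤
      2 * ∑ w ∈ S, ∑ X ∈ S.powerset, ∑ k ∈ S.erase w, c k *
      ∑ W ∈ S.powerset, (ind (T K X k w W) : ℝ) := by
    rw [mul_sum, mul_sum]
    refine sum_le_sum fun w hw => ?_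
    have h5 := h1 w hw
    have h6 : (2 : ℝ) ^ S.card = 2 * 2 ^ (S.erase w).card := by
      rw [← pow_succ', card_erase_of_mem hw]
      congr 1
      have : 0 < S.card := card_pos.2 ⟨w, hw⟩
      omega
    rw [h6]
    nlinarith
  exact le_of_mul_le_mul_left (h4.trans h3) (by positivity)

open scoped Classical in
/-- the weighted average over a family with the strict element `x0` -/
theorem avg_b {G : Finset (Finset α)} {x0 : α} (hx0 : x0 ∈ S) (hc0 : ∀ x, 0 ≤ c x)
    (hK : ∀ A ∈ K, A ⊆ S)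
    (hU : ∀ A ∈ K, ∀ B ∈ K, A ∪ B ∈ K) (ha : ∀ A ∈ K, ∀ B ∈ G, A ∪ B ∈ K)
    (hc : ∀ w ∈ S, ∀ D : Finset α → Prop, DownIn (S.erase w) D →
      (∀ A, D A → ¬ Up (fun B => insert w B ∈ G) A) →
        (c w + if w = x0 then 1 else 0) * cnt (S.erase w) D ≤ ec (S.erase w) c D) :
    (Uw S K x0 : ℝ) + D S K x0 ≤
      ∑ A ∈ K, (2 * ∑ x ∈ A, (2 * c x + if x = x0 then 1 else 0) -
        ∑ x ∈ S, (2 * c x + if x = x0 then 1 else 0)) := by
  have hb0 : ∀ w, (0 : ℝ) ≤ c w + if w = x0 then 1 else 0 := by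
    intro w
    have := hc0 w
    split_ifs <;> linarith
  have h1 := boundary_b (b := fun w => c w + if w = x0 then 1 else 0) hc0 hb0 hU ha hc
  have h2 : ∑ w ∈ S, (c w + if w = x0 then 1 else 0) * (D S K w : ℝ) =
      ∑ w ∈ S, c w * (D S K w : ℝ) + D S K x0 := by
    simp_rw [add_mul]
    rw [sum_add_distrib]
    congr 1
    simp_rw [ite_mul, one_mul, zero_mul]
    rw [sum_ite_eq', if_pos hx0]
  rw [h2] at h1
  obtain ⟨M, hM⟩ : ∃ M : α → ℝ, M = fun x => 2 * c x + if x = x0 then 1 else 0 := ⟨_, rfl⟩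
  have hMe : ∀ x, (2 * c x + if x = x0 then (1 : ℝ) else 0) = M x := fun x => by rw [hM]
  simp_rw [hMe]
  have e4 : ∑ w ∈ S, M w * ((K.card : ℝ) + Uw S K w) =
      ∑ w ∈ S, M w * (2 * ((K.filter (fun A => w ∈ A)).card : ℝ) + D S K w) := by
    refine sum_congr rfl fun w hw => ?_
    congr 1
    exact_mod_cast balance_pt hK hw
  have e6 : ∑ A ∈ K, ∑ x ∈ A, M x = ∑ w ∈ S, M w * ((K.filter (fun A => w ∈ A)).card : ℝ) := by
    have h7 : ∀ A ∈ K, ∑ x ∈ A, M x = ∑ w ∈ S, if w ∈ A then M w else 0 := by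
      intro A hA
      rw [← sum_filter, filter_mem_eq_inter, inter_eq_right.2 (hK A hA)]
    rw [sum_congr rfl h7, sum_comm]
    refine sum_congr rfl fun w _ => ?_
    rw [← sum_filter, sum_const, nsmul_eq_mul, mul_comm]
  have e7 : ∑ w ∈ S, M w * (K.card : ℝ) = K.card * ∑ x ∈ S, M x := by
    rw [← sum_mul, mul_comm]
  have e8 : ∑ A ∈ K, (2 * ∑ x ∈ A, M x - ∑ x ∈ S, M x) =
      ∑ w ∈ S, M w * (Uw S K w : ℝ) - ∑ w ∈ S, M w * (D S K w : ℝ) := by
    rw [sum_sub_distrib, ← mul_sum, sum_const, nsmul_eq_mul, e6]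
    simp only [mul_add, sum_add_distrib, mul_left_comm _ (2 : ℝ), ← mul_sum] at e4
    rw [e7] at e4
    linarith
  have e9 : ∀ f : α → ℕ, ∑ w ∈ S, M w * (f w : ℝ) = 2 * ∑ w ∈ S, c w * (f w : ℝ) + f x0 := by
    intro f
    rw [hM]
    simp_rw [add_mul]
    rw [sum_add_distrib]
    congr 1
    · rw [mul_sum]
      exact sum_congr rfl fun _ _ => by ring
    · simp_rw [ite_mul, one_mul, zero_mul]
      rw [sum_ite_eq', if_pos hx0]
  rw [e8, e9 (fun w => Uw S K w), e9 (fun w => D S K w)]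
  linarith

theorem inv_of_zero {x0 : α} (hK : ∀ A ∈ K, A ⊆ S) (hD : D S K x0 = 0)
    (hU0 : Uw S K x0 = 0) : ∀ A ∈ K, insert x0 A ∈ K ∧ A.erase x0 ∈ K := by
  intro A hA
  constructor
  · by_contra hcon
    have hwA : x0 ∉ A := fun h => hcon (by rwa [insert_eq_of_mem h])
    have h5 := hD
    unfold D cnt at h5
    rw [sum_eq_zero_iff] at h5
    have := h5 A (mem_powerset.2 (subset_erase.2 ⟨hK A hA, hwA⟩))
    unfold ind at this
    simp [hA, hcon] at this
  · by_contra hcon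
    have hwA : x0 ∈ A := by
      by_contra h; rw [erase_eq_of_notMem h] at hcon; exact hcon hA
    have h5 := hU0
    unfold Uw at h5
    rw [sum_eq_zero_iff] at h5
    have h6 := h5 (A.erase x0) (mem_powerset.2 ((erase_subset _ _).trans (hK A hA)))
    unfold ind at h6
    rw [insert_erase hwA] at h6
    simp [hA, hcon] at h6

end

section

variable {α : Type*} [DecidableEq α] {F G : Finset (Finset α)} {S : Finset α} {c : α → ℝ}

open Pool.Agent.N188.LD in
/-- the strict criterion -/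
theorem forced_of_weights {x0 : α} (hx0 : x0 ∈ S) (hF : ∀ A ∈ F, ∀ B ∈ F, A ∪ B ∈ F)
    (hG : ∀ B ∈ G, B ⊆ S) (ha : ∀ A ∈ F, ∀ B ∈ G, A ∪ B ∈ F) (hc0 : ∀ x, 0 ≤ c x)
    (hc : ∀ x ∈ S, ∀ 𝒟 : Finset (Finset α), Valid S G x 𝒟 →
      (c x + if x = x0 then 1 else 0) * 𝒟.card ≤
        ∑ D ∈ 𝒟, ∑ k ∈ (S.erase x).filter (fun k => k ∉ D ∧ insert k D ∉ 𝒟), c k) :
    (∃ y ∈ S, F.card < 2 * (F.filter (fun A => y ∈ A)).card) ∨
      (∀ A ∈ F, insert x0 A ∈ F ∧ A.erase x0 ∈ F) := by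
  classical
  obtain ⟨M, hM⟩ : ∃ M : α → ℝ, M = fun x => 2 * c x + if x = x0 then 1 else 0 := ⟨_, rfl⟩
  have hMe : ∀ x, (2 * c x + if x = x0 then (1 : ℝ) else 0) = M x := fun x => by rw [hM]
  have hM0 : ∀ x, 0 ≤ M x := by
    intro x
    rw [← hMe]
    have := hc0 x
    split_ifs <;> linarith
  have hc' : ∀ w ∈ S, ∀ D : Finset α → Prop, DownIn (S.erase w) D →
      (∀ A, D A → ¬ Up (fun B => insert w B ∈ G) A) →
        (c w + if w = x0 then 1 else 0) * cnt (S.erase w) D ≤ ec (S.erase w) c D := by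
    intro w hw D hD hup
    -- use `isoW_of` with the weights multiplied
    have h1 := hc w hw ((S.erase w).powerset.filter D) ⟨fun E hE => by
        simp only [mem_filter, mem_powerset] at hE
        exact hE.1, fun E hE E' hE' => by
        simp only [mem_filter, mem_powerset] at hE ⊢
        exact ⟨hE'.trans hE.1, down_of hD hE.2 hE' hE.1⟩, fun E hE B hB hxB hBE => by
        simp only [mem_filter, mem_powerset] at hE
        refine hup E hE.2 ⟨B.erase w, ?_, down_insert hBE⟩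
        show insert w (B.erase w) ∈ G
        rwa [insert_erase hxB]⟩
    rw [cnt_eq_card]
    refine le_trans (le_of_eq ?_) (h1.trans ?_)
    · congr 3
    unfold ec
    rw [sum_filter]
    refine sum_le_sum fun E hE => ?_
    split_ifs with hDE
    · rw [sum_filter]
      refine sum_le_sum fun k hk => ?_
      unfold ind
      split_ifs with hc1 hc2 hc2
      · simp
      · exfalso
        apply hc2
        refine ⟨hc1.1, hDE, fun h4 => hc1.2 ?_⟩
        simp only [mem_filter, mem_powerset]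
        exact ⟨insert_subset hk (mem_powerset.1 hE), h4⟩
      · simpa using hc0 k
      · simp
    · exact sum_nonneg fun k _ => mul_nonneg (hc0 k) (Nat.cast_nonneg _)
  have key : ∀ T, (Uw S (fib F S T) x0 : ℝ) + D S (fib F S T) x0 ≤
      ∑ A ∈ fib F S T, (2 * ∑ x ∈ A, M x - ∑ x ∈ S, M x) := by
    intro T
    have := avg_b (S := S) (K := fib F S T) (G := G) hx0 hc0 (fib_sub T)
      (fib_union hF T) (fib_absorb hG ha T) hc'
    simp_rw [hMe] at this
    exact this
  by_cases hall : ∀ T, Uw S (fib F S T) x0 + D S (fib F S T) x0 = 0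
  · right
    intro A hA
    have h1 : A ∩ S ∈ fib F S (A \ S) := mem_fib.2 ⟨A, hA, rfl, rfl⟩
    have h2 := hall (A \ S)
    obtain ⟨h3, h4⟩ := inv_of_zero (S := S) (K := fib F S (A \ S)) (x0 := x0) (fib_sub _)
      (by omega) (by omega) _ h1
    rw [mem_fib] at h3 h4
    constructor
    · obtain ⟨A', hA', h5, h6⟩ := h3
      have : A' = insert x0 A := by
        rw [← sdiff_union_inter A' S, h5, h6, union_insert, sdiff_union_inter]
      rwa [this] at hA'
    · obtain ⟨A', hA', h5, h6⟩ := h4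
      have : A' = A.erase x0 := by
        rw [← sdiff_union_inter A' S, h5, h6]
        ext y
        rw [mem_union, mem_sdiff, mem_erase, mem_inter, mem_erase]
        constructor
        · rintro (⟨h7, h8⟩ | ⟨h7, h8, _⟩)
          · exact ⟨fun h => h8 (h ▸ hx0), h7⟩
          · exact ⟨h7, h8⟩
        · rintro ⟨h7, h8⟩
          by_cases hy : y ∈ S
          · exact Or.inr ⟨h7, h8, hy⟩
          · exact Or.inl ⟨h8, hy⟩
      rwa [this] at hA'
  · left
    push Not at hall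
    obtain ⟨T, hT⟩ := hall
    have hpos : (0 : ℝ) < (Uw S (fib F S T) x0 : ℝ) + D S (fib F S T) x0 := by
      exact_mod_cast Nat.pos_of_ne_zero hT
    have h := fib_pos F S (fun A => 2 * ∑ x ∈ A, M x - ∑ x ∈ S, M x)
      (fun T => le_trans (by positivity) (key T)) ⟨T, hpos.trans_le (key T)⟩
    rw [sum_sub_distrib, ← mul_sum, sum_const, nsmul_eq_mul] at h
    exact exists_of_strict hM0 (by linarith)

end

/-- `x` is a free element of `F` -/
def Free (F : Finset (Finset ℕ)) (x : ℕ) : Prop := ∀ A ∈ F, insert x A ∈ F ∧ A.erase x ∈ F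

/-- some element of the members of `G` is free or some element of the members of `G` lies in more
than half of the members, in every finite union-closed family which absorbs `G` -/
def Forced (G : Finset (Finset ℕ)) : Prop :=
  ∃ x ∈ G.biUnion id, ∀ F : Finset (Finset ℕ), (∀ A ∈ F, ∀ B ∈ F, A ∪ B ∈ F) →
    (∀ A ∈ F, ∀ B ∈ G, A ∪ B ∈ F) →
    (∃ y ∈ G.biUnion id, F.card < 2 * (F.filter (fun A => y ∈ A)).card) ∨ Free F x

theorem cert_bound {G : Finset (Finset ℕ)} {S : Finset ℕ} {c : ℕ → ℕ} {x : ℕ}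
    {L : List (Finset ℕ × ℕ)} (h1 : L.Pairwise (fun p q => Disjoint p.1 q.1))
    (h2 : ∀ p ∈ L, p.1 ⊆ S.erase x ∧ LocOK c (indep G x p.1) p.1 p.2)
    {𝒟 : Finset (Finset ℕ)} (hv : Valid S G x 𝒟) :
    (((L.map (fun p => p.2)).sum : ℕ) : ℝ) * 𝒟.card ≤
      ∑ D ∈ 𝒟, ∑ k ∈ (S.erase x).filter (fun k => k ∉ D ∧ insert k D ∉ 𝒟), (c k : ℝ) := by
  classical
  obtain ⟨v1, v2, v3⟩ := hv
  have hpart : ∀ D ∈ 𝒟, (L.map (fun p => ∑ k ∈ p.1.filter (fun k => k ∉ D ∧
      insert k D ∉ 𝒟), (c k : ℝ))).sum ≤ ∑ k ∈ (S.erase x).filter (fun k => k ∉ D ∧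
        insert k D ∉ 𝒟), (c k : ℝ) := by
    intro D _
    simp_rw [sum_filter]
    refine parts (fun k => ?_) L _ h1 (fun p hp => (h2 p hp).1)
    split_ifs
    · exact Nat.cast_nonneg _
    · exact le_rfl
  have hloc : ∀ p ∈ L, (p.2 : ℝ) * 𝒟.card ≤ ∑ D ∈ 𝒟, ∑ k ∈ p.1.filter (fun k => k ∉ D ∧
      insert k D ∉ 𝒟), (c k : ℝ) := by
    intro p hp
    refine fiber (P := fun T => ∀ B ∈ G, x ∈ B → ¬ B ⊆ insert x T) v2 ?_ ?_
    · intro D hD B hB hxB hsub
      exact v3 D hD B hB hxB (hsub.trans (insert_subset_insert _ inter_subset_left))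
    · intro ℱ hℱ hdc
      have h4 := (h2 p hp).2 ℱ (by
        rw [mem_powerset]
        intro T hT
        unfold indep
        rw [mem_filter, mem_powerset]
        exact hℱ T hT) (fun T hT k _ => hdc T hT _ (erase_subset _ _))
      have h5 : (0 : ℝ) ≤ ∑ T ∈ ℱ, (∑ k ∈ p.1, (c k : ℝ) - p.2 - 2 * ∑ k ∈ T, (c k : ℝ)) := by
        exact_mod_cast h4
      have h6 : ∑ T ∈ ℱ, (∑ k ∈ p.1, (c k : ℝ) - p.2 - 2 * ∑ k ∈ T, (c k : ℝ)) =
          ∑ T ∈ ℱ, (∑ k ∈ p.1, (c k : ℝ) - 2 * ∑ k ∈ T, (c k : ℝ)) - p.2 * ℱ.card := by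
        have : ∀ T ∈ ℱ, (∑ k ∈ p.1, (c k : ℝ) - p.2 - 2 * ∑ k ∈ T, (c k : ℝ)) =
            (∑ k ∈ p.1, (c k : ℝ) - 2 * ∑ k ∈ T, (c k : ℝ)) - p.2 := fun T _ => by ring
        rw [sum_congr rfl this, sum_sub_distrib, sum_const, nsmul_eq_mul]
        ring
      rw [h6] at h5
      linarith
  have hsum : ∀ L : List (Finset ℕ × ℕ), (∀ p ∈ L, (p.2 : ℝ) * 𝒟.card ≤
      ∑ D ∈ 𝒟, ∑ k ∈ p.1.filter (fun k => k ∉ D ∧ insert k D ∉ 𝒟), (c k : ℝ)) →
      (((L.map (fun p => p.2)).sum : ℕ) : ℝ) * 𝒟.card ≤ ∑ D ∈ 𝒟, (L.map (fun p =>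
        ∑ k ∈ p.1.filter (fun k => k ∉ D ∧ insert k D ∉ 𝒟), (c k : ℝ))).sum := by
    intro L
    induction L with
    | nil => intro _; simp
    | cons p L ih =>
      intro hL
      have i1 := ih (fun q hq => hL q (List.mem_cons_of_mem _ hq))
      have i2 := hL p List.mem_cons_self
      simp only [List.map_cons, List.sum_cons]
      rw [sum_add_distrib]
      push_cast
      push_cast at i1
      linarith
  exact (hsum L hloc).trans (sum_le_sum hpart)

theorem forced_of_cert {G : Finset (Finset ℕ)} {c : ℕ → ℕ} {cert : ℕ → List (Finset ℕ × ℕ)}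
    (x0 : ℕ) (hx0 : x0 ∈ G.biUnion id) (hlt : c x0 < ((cert x0).map (fun p => p.2)).sum)
    (h : ∀ x ∈ G.biUnion id, VertexOK G (G.biUnion id) c x (cert x)) : Forced G := by
  refine ⟨x0, hx0, fun F hF ha => ?_⟩
  refine forced_of_weights (G := G) (c := fun k => (c k : ℝ)) hx0 hF
    (fun B hB => subset_biUnion_of_mem id hB) ha (fun x => Nat.cast_nonneg _) ?_
  intro x hx 𝒟 hv
  obtain ⟨h1, h2, h3⟩ := h x hx
  refine le_trans (mul_le_mul_of_nonneg_right ?_ (Nat.cast_nonneg _)) (cert_bound h1 h2 hv)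
  split_ifs with h4
  · subst h4
    exact_mod_cast hlt
  · rw [add_zero]
    exact_mod_cast h3

theorem Forced.mono {G G' : Finset (Finset ℕ)} (h : Forced G) (hs : G ⊆ G') : Forced G' := by
  obtain ⟨x, hx, h⟩ := h
  have hsub := biUnion_subset_biUnion_of_subset_left id hs
  refine ⟨x, hsub hx, fun F hF ha => ?_⟩
  rcases h F hF (fun A hA B hB => ha A hA B (hs hB)) with ⟨y, hy, h1⟩ | h1
  · exact Or.inl ⟨y, hsub hy, h1⟩
  · exact Or.inr h1

theorem card_filter_ren (σ : Equiv.Perm ℕ) (F : Finset (Finset ℕ)) (x : ℕ) :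
    ((ren σ.symm F).filter (fun A => x ∈ A)).card = (F.filter (fun A => σ x ∈ A)).card := by
  have : (ren σ.symm F).filter (fun A => x ∈ A) =
      (F.filter (fun A => σ x ∈ A)).image (fun A => A.image σ.symm) := by
    ext A
    simp only [ren, mem_filter, mem_image]
    constructor
    · rintro ⟨⟨A', hA', rfl⟩, hx⟩
      obtain ⟨y, hy, rfl⟩ := mem_image.1 hx
      exact ⟨A', ⟨hA', by simpa using hy⟩, rfl⟩
    · rintro ⟨A', ⟨hA', hx⟩, rfl⟩
      exact ⟨⟨A', hA', rfl⟩, mem_image.2 ⟨σ x, hx, by simp⟩⟩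
  rw [this]
  exact card_image_of_injective _ (inj_image _)

theorem free_ren {σ : Equiv.Perm ℕ} {F : Finset (Finset ℕ)} {x : ℕ}
    (h : Free (ren σ.symm F) x) : Free F (σ x) := by
  intro A hA
  have h1 := h (A.image σ.symm) (mem_ren.2 ⟨A, hA, rfl⟩)
  rw [mem_ren, mem_ren] at h1
  obtain ⟨⟨B, hB, hB'⟩, ⟨C, hC, hC'⟩⟩ := h1
  constructor
  · have : B = insert (σ x) A := by
      apply inj_image σ.symm
      show B.image σ.symm = (insert (σ x) A).image σ.symm
      rw [hB', image_insert, Equiv.symm_apply_apply]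
    rwa [this] at hB
  · have : C = A.erase (σ x) := by
      apply inj_image σ.symm
      show C.image σ.symm = (A.erase (σ x)).image σ.symm
      rw [hC', image_erase σ.symm.injective, Equiv.symm_apply_apply]
    rwa [this] at hC

theorem Forced.ren {G : Finset (Finset ℕ)} (h : Forced G) (σ : Equiv.Perm ℕ) :
    Forced (ren σ G) := by
  obtain ⟨x, hx, h⟩ := h
  have hmem : ∀ z ∈ G.biUnion id, σ z ∈ (UC.ren σ G).biUnion id := by
    intro z hz
    rw [mem_biUnion] at hz ⊢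
    obtain ⟨A, hA, hzA⟩ := hz
    exact ⟨A.image σ, mem_ren.2 ⟨A, hA, rfl⟩, mem_image_of_mem σ hzA⟩
  refine ⟨σ x, hmem x hx, fun F hF ha => ?_⟩
  have hcard : (UC.ren σ.symm F).card = F.card := card_ren _ _
  rcases h (UC.ren σ.symm F) (by
    intro A hA B hB
    rw [mem_ren] at hA hB ⊢
    obtain ⟨A', hA', rfl⟩ := hA
    obtain ⟨B', hB', rfl⟩ := hB
    exact ⟨A' ∪ B', hF _ hA' _ hB', image_union _ _⟩) (by
    intro A hA B hB
    rw [mem_ren] at hA ⊢
    obtain ⟨A', hA', rfl⟩ := hA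
    refine ⟨A' ∪ B.image σ, ha _ hA' _ (mem_ren.2 ⟨B, hB, rfl⟩), ?_⟩
    rw [image_union, image_image, Equiv.symm_comp_self, image_id]) with ⟨y, hy, h1⟩ | h1
  · left
    refine ⟨σ y, hmem y hy, ?_⟩
    rwa [hcard, card_filter_ren] at h1
  · right
    exact free_ren h1

end Pool.Agent.U129.UC
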