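import Pool.Agent.U129.UC.STab

set_option autoImplicit false

/-!
# Growth of connected families of 2-sets and 3-sets
-/

namespace Pool.Agent.U129.UC

open Finset

/-- every set with at most three elements, one of them below `n`, can be moved to a set of a finite
list without moving the numbers below `n` -/
theorem normal' (n : ℕ) (B : Finset ℕ) (hB : B.card ≤ 3) (h : ∃ i ∈ B, i < n) :
    ∃ σ : Equiv.Perm ℕ, (∀ i < n, σ i = i) ∧ B.image σ ∈ powersetCard B.card (range (n + 2)) ∧
      (n + 1 ∈ B.image σ → n ∈ B.image σ) := by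
  have himg : ∀ σ : Equiv.Perm ℕ, (∀ b ∈ B, σ b < n + 2) →
      B.image σ ∈ powersetCard B.card (range (n + 2)) := by
    intro σ h
    rw [mem_powersetCard]
    refine ⟨?_, card_image_of_injective _ σ.injective⟩
    intro x hx
    obtain ⟨b, hb, rfl⟩ := mem_image.1 hx
    exact mem_range.2 (h b hb)
  obtain ⟨i, hi, hin⟩ := h
  obtain ⟨B', hB'⟩ : ∃ B', B' = B.filter (fun b => n ≤ b) := ⟨_, rfl⟩
  have hmem : ∀ b, b ∈ B' ↔ b ∈ B ∧ n ≤ b := by intro b; rw [hB', mem_filter]
  have hc : B'.card ≤ 2 := by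
    have h1 : B' ⊆ B.erase i := by
      intro b hb
      rw [hmem] at hb
      rw [mem_erase]
      exact ⟨by rintro rfl; omega, hb.1⟩
    have h2 := card_le_card h1
    rw [card_erase_of_mem hi] at h2
    omega
  rcases Nat.lt_or_ge B'.card 1 with h0 | h0
  · have h1 : B' = ∅ := card_eq_zero.1 (by omega)
    have h2 : ∀ b ∈ B, b < n := by
      intro b hb
      by_contra h3
      have : b ∈ B' := (hmem b).2 ⟨hb, by omega⟩
      rw [h1] at this
      exact absurd this (notMem_empty _)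
    refine ⟨Equiv.refl ℕ, fun _ _ => rfl, himg _ (fun b hb => ?_), fun h3 => ?_⟩
    · show b < n + 2
      have := h2 b hb
      omega
    · obtain ⟨b, hb, hb'⟩ := mem_image.1 h3
      have := h2 b hb
      have hb'' : b = n + 1 := hb'
      omega
  rcases Nat.lt_or_ge B'.card 2 with h1 | h1
  · obtain ⟨y, hy⟩ := card_eq_one.1 (show B'.card = 1 by omega)
    have hyB := (hmem y).1 (by rw [hy]; exact mem_singleton_self _)
    refine ⟨Equiv.swap y n, fun j hj => Equiv.swap_apply_of_ne_of_ne (by omega) (by omega), ?_, ?_⟩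
    · refine himg _ (fun b hb => ?_)
      by_cases hb2 : b < n
      · rw [Equiv.swap_apply_of_ne_of_ne (by omega) (by omega)]; omega
      · have hb3 := (hmem b).2 ⟨hb, by omega⟩
        rw [hy, mem_singleton] at hb3
        rw [hb3, Equiv.swap_apply_left]; omega
    · intro _
      exact mem_image.2 ⟨y, hyB.1, Equiv.swap_apply_left _ _⟩
  · obtain ⟨y, z, hyz, hy⟩ := card_eq_two.1 (show B'.card = 2 by omega)
    have hyB := (hmem y).1 (by rw [hy]; exact mem_insert_self _ _)
    have hzB := (hmem z).1 (by rw [hy]; exact mem_insert_of_mem (mem_singleton_self _))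
    obtain ⟨z', hz'⟩ : ∃ z', z' = Equiv.swap y n z := ⟨_, rfl⟩
    have hz1 : z' ≠ n := by
      rw [hz']
      intro h2
      have : Equiv.swap y n z = Equiv.swap y n y := by rw [h2, Equiv.swap_apply_left]
      exact hyz ((Equiv.swap y n).injective this).symm
    have hz2 : n ≤ z' := by
      rw [hz', Equiv.swap_apply_def]
      split_ifs <;> omega
    refine ⟨(Equiv.swap y n).trans (Equiv.swap z' (n + 1)), ?_, ?_, ?_⟩
    · intro j hj
      rw [Equiv.trans_apply, Equiv.swap_apply_of_ne_of_ne (a := y) (by omega) (by omega),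
        Equiv.swap_apply_of_ne_of_ne (by omega) (by omega)]
    · refine himg _ (fun b hb => ?_)
      rw [Equiv.trans_apply]
      by_cases hb2 : b < n
      · rw [Equiv.swap_apply_of_ne_of_ne (a := y) (by omega) (by omega),
          Equiv.swap_apply_of_ne_of_ne (by omega) (by omega)]
        omega
      · have hb3 := (hmem b).2 ⟨hb, by omega⟩
        rw [hy, mem_insert, mem_singleton] at hb3
        rcases hb3 with rfl | rfl
        · rw [Equiv.swap_apply_left, Equiv.swap_apply_of_ne_of_ne hz1.symm (by omega)]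
          omega
        · rw [← hz', Equiv.swap_apply_left]
          omega
    · intro _
      refine mem_image.2 ⟨y, hyB.1, ?_⟩
      rw [Equiv.trans_apply, Equiv.swap_apply_left,
        Equiv.swap_apply_of_ne_of_ne hz1.symm (by omega)]

theorem sstep0 {N : Finset (Finset ℕ)} {n : ℕ} {B : Finset ℕ} (hB : B.card ≤ 3)
    {t : List (Finset ℕ × ℕ × List (ℕ × ℕ))}
    (ht : STab B.card N n t) (hN : ∀ A ∈ N, ∀ i ∈ A, i < n)
    (hBN : B ∉ N) (hm : ∃ i ∈ B, i < n) :
    Forced (insert B N) ∨ ∃ N' ∈ snons, Iso N' (insert B N) := by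
  obtain ⟨σ, h1, h2, h3⟩ := normal' n B hB hm
  have hfix := fix_ren hN h1
  have hren : ren σ (insert B N) = insert (B.image σ) N := by rw [ren_insert, hfix]
  have hback : ren σ.symm (insert (B.image σ) N) = insert B N := by
    rw [← hren, ren_symm]
  have h4 : B.image σ ∉ N := by
    intro h
    rw [← hfix, mem_ren] at h
    obtain ⟨A, hA, hAB⟩ := h
    have := inj_image σ hAB
    exact hBN (this ▸ hA)
  obtain ⟨e, -, -, he⟩ := ht _ h2 (by
    obtain ⟨i, hi, hin⟩ := hm
    exact ⟨i, mem_image.2 ⟨i, hi, h1 i hin⟩, hin⟩) h3 h4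
  rcases he with ⟨hk, he⟩ | ⟨hk, hk2, he⟩
  · left
    have hm : smins.getD e.2.1 ∅ ∈ smins := by
      have hl : e.2.1 < smins.length := by simpa [smins] using hk
      rw [List.getD_eq_getElem _ _ hl]
      exact List.getElem_mem hl
    have h5 := (forced_smins _ hm).ren (pm e.2.2)
    rw [← ap_eq] at h5
    have h6 := (h5.mono he).ren σ.symm
    rwa [hback] at h6
  · right
    have hm : snons.getD (e.2.1 - 26) ∅ ∈ snons := by
      have hl : e.2.1 - 26 < snons.length := by simp [snons]; omega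
      rw [List.getD_eq_getElem _ _ hl]
      exact List.getElem_mem hl
    refine ⟨_, hm, ?_⟩
    rw [← hback]
    exact Iso.ren ⟨pm e.2.2, by rw [← ap_eq]; exact he⟩ _

theorem snons_tab : ∀ N ∈ snons, ∃ n t2 t3, STab 2 N n t2 ∧ STab 3 N n t3 ∧
    (∀ A ∈ N, ∀ i ∈ A, i < n) := by
  intro N hN
  simp only [snons, List.mem_cons, List.not_mem_nil, or_false] at hN
  rcases hN with rfl | rfl | rfl | rfl | rfl | rfl | rfl | rfl | rfl | rfl | rfl | rfl | rfl
  · exact ⟨2, _, _, sokP2, sokP3, by decide⟩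
  · exact ⟨3, _, _, sokL12, sokL13, by decide⟩
  · exact ⟨5, _, _, sokL22, sokL23, by decide⟩
  · exact ⟨7, _, _, sokL32, sokL33, by decide⟩
  · exact ⟨9, _, _, sokL42, sokL43, by decide⟩
  · exact ⟨4, _, _, sokF12, sokF13, by decide⟩
  · exact ⟨6, _, _, sokF22, sokF23, by decide⟩
  · exact ⟨8, _, _, sokF32, sokF33, by decide⟩
  · exact ⟨5, _, _, sokB32, sokB33, by decide⟩
  · exact ⟨7, _, _, sokS32, sokS33, by decide⟩
  · exact ⟨7, _, _, sokDF2, sokDF3, by decide⟩
  · exact ⟨8, _, _, sokBF2, sokBF3, by decide⟩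
  · exact ⟨9, _, _, sokNT2, sokNT3, by decide⟩

theorem sstep {N C : Finset (Finset ℕ)} (hN : N ∈ snons) (hC : Iso N C) {B : Finset ℕ}
    (hB : B.card = 2 ∨ B.card = 3) (hBC : B ∉ C) (hm : ∃ A ∈ C, ¬ Disjoint A B) :
    Forced (insert B C) ∨ ∃ N' ∈ snons, Iso N' (insert B C) := by
  obtain ⟨n, t2, t3, ht2, ht3, hn⟩ := snons_tab N hN
  obtain ⟨σ, rfl⟩ := hC
  have hren : ren σ (insert (B.image σ.symm) N) = insert B (ren σ N) := by
    rw [ren_insert, image_image, Equiv.self_comp_symm, image_id]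
  have hcard : (B.image σ.symm).card = B.card := card_image_of_injective _ σ.symm.injective
  have h1 : B.image σ.symm ∉ N := by
    intro h
    apply hBC
    rw [mem_ren]
    exact ⟨_, h, by rw [image_image, Equiv.self_comp_symm, image_id]⟩
  have h2 : ∃ i ∈ B.image σ.symm, i < n := by
    obtain ⟨A, hA, hd⟩ := hm
    rw [mem_ren] at hA
    obtain ⟨A', hA', rfl⟩ := hA
    rw [not_disjoint_iff] at hd
    obtain ⟨x, hx, hxB⟩ := hd
    obtain ⟨i, hi, rfl⟩ := mem_image.1 hx
    exact ⟨i, mem_image.2 ⟨σ i, hxB, by simp⟩, hn _ hA' i hi⟩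
  have : Forced (insert (B.image σ.symm) N) ∨ ∃ N' ∈ snons, Iso N' (insert (B.image σ.symm) N) := by
    rcases hB with h | h
    · exact sstep0 (B := B.image σ.symm) (t := t2) (by omega) (by rw [hcard, h]; exact ht2) hn h1 h2
    · exact sstep0 (B := B.image σ.symm) (t := t3) (by omega) (by rw [hcard, h]; exact ht3) hn h1 h2
  rcases this with h | ⟨N', hN', h⟩
  · left
    rw [← hren]
    exact h.ren σ
  · right
    refine ⟨N', hN', ?_⟩
    rw [← hren]
    exact h.ren σ

/-- all 2-sets are isomorphic -/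
theorem single2 (A : Finset ℕ) (hA : A.card = 2) : ∃ σ : Equiv.Perm ℕ,
    ({0, 1} : Finset ℕ).image σ = A := by
  obtain ⟨a, b, hab, rfl⟩ := card_eq_two.1 hA
  obtain ⟨b', hb'⟩ : ∃ b', b' = Equiv.swap 0 a b := ⟨_, rfl⟩
  have hb1 : b' ≠ 0 := by
    rw [hb']; intro h
    have : Equiv.swap 0 a b = Equiv.swap 0 a a := by rw [h, Equiv.swap_apply_right]
    exact hab ((Equiv.swap 0 a).injective this).symm
  refine ⟨(Equiv.swap 1 b').trans (Equiv.swap 0 a), ?_⟩
  rw [image_insert, image_singleton]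
  simp only [Equiv.trans_apply]
  rw [Equiv.swap_apply_of_ne_of_ne (a := 1) (by omega) hb1.symm, Equiv.swap_apply_left,
    Equiv.swap_apply_left, hb', Equiv.swap_apply_self]

theorem start (A : Finset ℕ) (hA : A.card = 2 ∨ A.card = 3) : ∃ N ∈ snons, Iso N {A} := by
  rcases hA with h | h
  · obtain ⟨σ, hσ⟩ := single2 A h
    exact ⟨pairFam, by simp [snons], σ, by rw [← hσ]; rfl⟩
  · obtain ⟨σ, hσ⟩ := single A h
    exact ⟨loosePath 1, by simp [snons], σ, by rw [← hσ]; rfl⟩

/-- a connected family of 2-sets and 3-sets is forced or one of the thirteen -/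
theorem sdichotomy {C : Finset (Finset ℕ)} (h3 : ∀ A ∈ C, A.card = 2 ∨ A.card = 3)
    (hC : Conn C) : Forced C ∨ ∃ N ∈ snons, Iso N C := by
  classical
  by_contra hcon
  push Not at hcon
  obtain ⟨hFC, hno⟩ := hcon
  obtain ⟨⟨A0, hA0⟩, hconn⟩ := hC
  let 𝒮 : Finset (Finset (Finset ℕ)) := C.powerset.filter (fun H => ∃ N ∈ snons, Iso N H)
  have hmem : ∀ H, H ∈ 𝒮 ↔ H ⊆ C ∧ ∃ N ∈ snons, Iso N H := by
    intro H; simp only [𝒮, mem_filter, mem_powerset]
  have hone : {A0} ∈ 𝒮 := (hmem _).2 ⟨singleton_subset_iff.2 hA0, start A0 (h3 A0 hA0)⟩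
  obtain ⟨H, hH, hmax⟩ := exists_max_image 𝒮 Finset.card ⟨_, hone⟩
  rw [hmem] at hH
  obtain ⟨hHC, N, hN, hiso⟩ := hH
  have hHne : H.Nonempty := by
    rw [nonempty_iff_ne_empty]
    rintro rfl
    have h1 := hmax _ hone
    simp at h1
  have hne2 : H ≠ C := by
    rintro rfl
    exact hno N hN hiso
  obtain ⟨A, hA, B, hB, hBH, hd⟩ := hconn H hHC hHne hne2
  have hsub : insert B H ⊆ C := insert_subset hB hHC
  rcases sstep hN hiso (h3 B hB) hBH ⟨A, hA, hd⟩ with h | ⟨N', hN', h⟩
  · exact hFC (h.mono hsub)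
  · have h1 := hmax _ ((hmem _).2 ⟨hsub, N', hN', h⟩)
    rw [card_insert_of_notMem hBH] at h1
    omega

theorem snons_card : ∀ N ∈ snons, N.card ≤ 4 := by
  intro N hN
  simp only [snons, List.mem_cons, List.not_mem_nil, or_false] at hN
  rcases hN with rfl | rfl | rfl | rfl | rfl | rfl | rfl | rfl | rfl | rfl | rfl | rfl | rfl <;>
    decide

/-- **connected families of five sets of size two or three** -/
theorem sfive {C : Finset (Finset ℕ)} (h3 : ∀ A ∈ C, A.card = 2 ∨ A.card = 3) (hC : Conn C)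
    (h5 : 5 ≤ C.card) : Forced C := by
  rcases sdichotomy h3 hC with h | ⟨N, hN, σ, rfl⟩
  · exact h
  · have := snons_card N hN
    rw [card_ren] at h5
    omega

end Pool.Agent.U129.UC
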