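import Pool.Agent.U129.UC.SBase

set_option autoImplicit false

/-!
# The twenty-six minimal forced families of 2-sets and 3-sets
-/

namespace Pool.Agent.U129.UC

open Finset

/-- minimal forced family number 0 -/
def s0 : Finset (Finset ℕ) := {{0, 1}, {0, 1, 2}}

/-- weights -/
def sw0 (i : ℕ) : ℕ := [2, 2, 0].getD i 0

/-- local certificates -/
def sc0 (i : ℕ) : List (Finset ℕ × ℕ) :=
  [[({1, 2}, 2)], [({0, 2}, 2)], [({0, 1}, 1)]].getD i []

theorem forced0 : Forced s0 := by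
  refine forced_of_cert (c := sw0) (cert := sc0) 2 ?_ ?_ ?_
  · decide +kernel
  · decide +kernel
  · decide +kernel

/-- minimal forced family number 1 -/
def s1 : Finset (Finset ℕ) := {{0, 1}, {0, 2}}

/-- weights -/
def sw1 (i : ℕ) : ℕ := [1, 1, 1].getD i 0

/-- local certificates -/
def sc1 (i : ℕ) : List (Finset ℕ × ℕ) :=
  [[({1}, 1), ({2}, 1)], [({0}, 1)], [({0}, 1)]].getD i []

theorem forced1 : Forced s1 := by
  refine forced_of_cert (c := sw1) (cert := sc1) 0 ?_ ?_ ?_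
  · decide +kernel
  · decide +kernel
  · decide +kernel

/-- minimal forced family number 2 -/
def s2 : Finset (Finset ℕ) := {{0, 1}, {0, 2, 3}}

/-- weights -/
def sw2 (i : ℕ) : ℕ := [4, 4, 2, 2].getD i 0

/-- local certificates -/
def sc2 (i : ℕ) : List (Finset ℕ × ℕ) :=
  [[({1}, 4), ({2, 3}, 1)], [({0}, 4)], [({0, 3}, 2)], [({0, 2}, 2)]].getD i []

theorem forced2 : Forced s2 := by
  refine forced_of_cert (c := sw2) (cert := sc2) 0 ?_ ?_ ?_
  · decide +kernel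
  · decide +kernel
  · decide +kernel

/-- minimal forced family number 3 -/
def s3 : Finset (Finset ℕ) := {{0, 1, 2}, {0, 1, 3}, {0, 2, 3}}

/-- weights -/
def sw3 (i : ℕ) : ℕ := [2, 2, 2, 2].getD i 0

/-- local certificates -/
def sc3 (i : ℕ) : List (Finset ℕ × ℕ) :=
  [[({1, 2, 3}, 3)], [({0, 2, 3}, 2)], [({0, 1, 3}, 2)], [({0, 1, 2}, 2)]].getD i []

theorem forced3 : Forced s3 := by
  refine forced_of_cert (c := sw3) (cert := sc3) 0 ?_ ?_ ?_
  · decide +kernel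
  · decide +kernel
  · decide +kernel

/-- minimal forced family number 4 -/
def s4 : Finset (Finset ℕ) := {{0, 1, 2}, {0, 1, 3}, {0, 2, 4}}

/-- weights -/
def sw4 (i : ℕ) : ℕ := [5, 4, 4, 2, 3].getD i 0

/-- local certificates -/
def sc4 (i : ℕ) : List (Finset ℕ × ℕ) :=
  [[({1, 2, 3, 4}, 5)], [({0, 2, 3}, 4)], [({0, 1, 4}, 4)], [({0, 1}, 3)], [({0, 2}, 3)]].getD i []

theorem forced4 : Forced s4 := by
  refine forced_of_cert (c := sw4) (cert := sc4) 3 ?_ ?_ ?_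
  · decide +kernel
  · decide +kernel
  · decide +kernel

/-- minimal forced family number 5 -/
def s5 : Finset (Finset ℕ) := {{0, 1, 2}, {0, 1, 3}, {2, 3, 4}}

/-- weights -/
def sw5 (i : ℕ) : ℕ := [3, 3, 3, 3, 1].getD i 0

/-- local certificates -/
def sc5 (i : ℕ) : List (Finset ℕ × ℕ) :=
  [[({1, 2, 3}, 3)], [({0, 2, 3}, 3)], [({0, 1}, 2), ({3, 4}, 1)], [({0, 1}, 2), ({2, 4}, 1)], [({2, 3}, 2)]].getD i []

theorem forced5 : Forced s5 := by
  refine forced_of_cert (c := sw5) (cert := sc5) 4 ?_ ?_ ?_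
  · decide +kernel
  · decide +kernel
  · decide +kernel

/-- minimal forced family number 6 -/
def s6 : Finset (Finset ℕ) := {{0, 1, 2}, {0, 1, 3}, {0, 4, 5}}

/-- weights -/
def sw6 (i : ℕ) : ℕ := [10, 8, 5, 6, 5, 5].getD i 0

/-- local certificates -/
def sc6 (i : ℕ) : List (Finset ℕ × ℕ) :=
  [[({1, 2, 3}, 7), ({4, 5}, 3)], [({0, 2, 3}, 8)], [({0, 1}, 6)], [({0, 1}, 6)], [({0, 5}, 5)], [({0, 4}, 5)]].getD i []

theorem forced6 : Forced s6 := by
  refine forced_of_cert (c := sw6) (cert := sc6) 2 ?_ ?_ ?_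
  · decide +kernel
  · decide +kernel
  · decide +kernel

/-- minimal forced family number 7 -/
def s7 : Finset (Finset ℕ) := {{0, 1, 2}, {0, 3, 4}, {1, 3, 5}}

/-- weights -/
def sw7 (i : ℕ) : ℕ := [6, 6, 3, 6, 4, 4].getD i 0

/-- local certificates -/
def sc7 (i : ℕ) : List (Finset ℕ × ℕ) :=
  [[({1, 2}, 3), ({3, 4}, 3)], [({0, 2}, 3), ({3, 5}, 3)], [({0, 1}, 4)], [({0, 4}, 3), ({1, 5}, 3)], [({0, 3}, 4)], [({1, 3}, 4)]].getD i []

theorem forced7 : Forced s7 := by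
  refine forced_of_cert (c := sw7) (cert := sc7) 2 ?_ ?_ ?_
  · decide +kernel
  · decide +kernel
  · decide +kernel

/-- minimal forced family number 8 -/
def s8 : Finset (Finset ℕ) := {{0, 1, 2}, {0, 1, 3}, {0, 1, 4}, {0, 1, 5}}

/-- weights -/
def sw8 (i : ℕ) : ℕ := [3, 3, 1, 2, 2, 2].getD i 0

/-- local certificates -/
def sc8 (i : ℕ) : List (Finset ℕ × ℕ) :=
  [[({1, 3, 4, 5}, 3)], [({0, 3, 4, 5}, 3)], [({0, 1}, 2)], [({0, 1}, 2)], [({0, 1}, 2)], [({0, 1}, 2)]].getD i []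

theorem forced8 : Forced s8 := by
  refine forced_of_cert (c := sw8) (cert := sc8) 2 ?_ ?_ ?_
  · decide +kernel
  · decide +kernel
  · decide +kernel

/-- minimal forced family number 9 -/
def s9 : Finset (Finset ℕ) := {{0, 1, 2}, {0, 1, 3}, {2, 4, 5}, {3, 4, 5}}

/-- weights -/
def sw9 (i : ℕ) : ℕ := [3, 3, 3, 3, 3, 3].getD i 0

/-- local certificates -/
def sc9 (i : ℕ) : List (Finset ℕ × ℕ) :=
  [[({1, 2, 3}, 3)], [({0, 2, 3}, 3)], [({0, 1}, 2), ({4, 5}, 2)], [({0, 1}, 2), ({4, 5}, 2)], [({2, 3, 5}, 3)], [({2, 3, 4}, 3)]].getD i []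

theorem forced9 : Forced s9 := by
  refine forced_of_cert (c := sw9) (cert := sc9) 2 ?_ ?_ ?_
  · decide +kernel
  · decide +kernel
  · decide +kernel

/-- minimal forced family number 10 -/
def s10 : Finset (Finset ℕ) := {{0, 1, 2}, {0, 1, 3}, {0, 1, 4}, {2, 5, 6}}

/-- weights -/
def sw10 (i : ℕ) : ℕ := [6, 6, 4, 4, 4, 2, 2].getD i 0

/-- local certificates -/
def sc10 (i : ℕ) : List (Finset ℕ × ℕ) :=
  [[({1, 2, 3, 4}, 6)], [({0, 2, 3, 4}, 6)], [({0, 1}, 4), ({5, 6}, 1)], [({0, 1}, 4)], [({0, 1}, 4)], [({2, 6}, 2)], [({2, 5}, 2)]].getD i []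

theorem forced10 : Forced s10 := by
  refine forced_of_cert (c := sw10) (cert := sc10) 2 ?_ ?_ ?_
  · decide +kernel
  · decide +kernel
  · decide +kernel

/-- minimal forced family number 11 -/
def s11 : Finset (Finset ℕ) := {{0, 1, 2}, {0, 1, 3}, {2, 4, 5}, {3, 4, 6}}

/-- weights -/
def sw11 (i : ℕ) : ℕ := [5, 5, 5, 5, 4, 2, 3].getD i 0

/-- local certificates -/
def sc11 (i : ℕ) : List (Finset ℕ × ℕ) :=
  [[({1, 2, 3}, 5)], [({0, 2, 3}, 5)], [({0, 1}, 3), ({4, 5}, 2)], [({0, 1}, 3), ({4, 6}, 2)], [({2, 5}, 2), ({3, 6}, 2)], [({2, 4}, 3)], [({3, 4}, 3)]].getD i []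

theorem forced11 : Forced s11 := by
  refine forced_of_cert (c := sw11) (cert := sc11) 5 ?_ ?_ ?_
  · decide +kernel
  · decide +kernel
  · decide +kernel

/-- minimal forced family number 12 -/
def s12 : Finset (Finset ℕ) := {{0, 1, 2}, {0, 1, 3}, {2, 4, 5}, {2, 6, 7}}

/-- weights -/
def sw12 (i : ℕ) : ℕ := [3, 3, 6, 1, 3, 3, 3, 3].getD i 0

/-- local certificates -/
def sc12 (i : ℕ) : List (Finset ℕ × ℕ) :=
  [[({1, 2, 3}, 3)], [({0, 2, 3}, 3)], [({0, 1}, 2), ({4, 5}, 2), ({6, 7}, 2)], [({0, 1}, 2)], [({2, 5}, 3)], [({2, 4}, 3)], [({2, 7}, 3)], [({2, 6}, 3)]].getD i []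

theorem forced12 : Forced s12 := by
  refine forced_of_cert (c := sw12) (cert := sc12) 3 ?_ ?_ ?_
  · decide +kernel
  · decide +kernel
  · decide +kernel

/-- minimal forced family number 13 -/
def s13 : Finset (Finset ℕ) := {{0, 1, 2}, {0, 3, 4}, {1, 5, 6}, {3, 5, 7}}

/-- weights -/
def sw13 (i : ℕ) : ℕ := [6, 6, 3, 6, 4, 6, 4, 4].getD i 0

/-- local certificates -/
def sc13 (i : ℕ) : List (Finset ℕ × ℕ) :=
  [[({1, 2}, 3), ({3, 4}, 3)], [({0, 2}, 3), ({5, 6}, 3)], [({0, 1}, 4)], [({0, 4}, 3), ({5, 7}, 3)], [({0, 3}, 4)], [({1, 6}, 3), ({3, 7}, 3)], [({1, 5}, 4)], [({3, 5}, 4)]].getD i []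

theorem forced13 : Forced s13 := by
  refine forced_of_cert (c := sw13) (cert := sc13) 2 ?_ ?_ ?_
  · decide +kernel
  · decide +kernel
  · decide +kernel

/-- minimal forced family number 14 -/
def s14 : Finset (Finset ℕ) := {{0, 1, 2}, {0, 3, 4}, {0, 5, 6}, {0, 7, 8}}

/-- weights -/
def sw14 (i : ℕ) : ℕ := [6, 3, 3, 3, 3, 3, 3, 3, 3].getD i 0

/-- local certificates -/
def sc14 (i : ℕ) : List (Finset ℕ × ℕ) :=
  [[({1, 2}, 2), ({3, 4}, 2), ({5, 6}, 2), ({7, 8}, 2)], [({0, 2}, 3)], [({0, 1}, 3)], [({0, 4}, 3)], [({0, 3}, 3)], [({0, 6}, 3)], [({0, 5}, 3)], [({0, 8}, 3)], [({0, 7}, 3)]].getD i []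

theorem forced14 : Forced s14 := by
  refine forced_of_cert (c := sw14) (cert := sc14) 0 ?_ ?_ ?_
  · decide +kernel
  · decide +kernel
  · decide +kernel

/-- minimal forced family number 15 -/
def s15 : Finset (Finset ℕ) := {{0, 1, 2}, {0, 3, 4}, {0, 5, 6}, {1, 7, 8}}

/-- weights -/
def sw15 (i : ℕ) : ℕ := [12, 6, 6, 6, 6, 6, 6, 3, 3].getD i 0

/-- local certificates -/
def sc15 (i : ℕ) : List (Finset ℕ × ℕ) :=
  [[({1, 2}, 4), ({3, 4}, 4), ({5, 6}, 4)], [({0, 2}, 6), ({7, 8}, 2)], [({0, 1}, 6)], [({0, 4}, 6)], [({0, 3}, 6)], [({0, 6}, 6)], [({0, 5}, 6)], [({1, 8}, 3)], [({1, 7}, 3)]].getD i []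

theorem forced15 : Forced s15 := by
  refine forced_of_cert (c := sw15) (cert := sc15) 1 ?_ ?_ ?_
  · decide +kernel
  · decide +kernel
  · decide +kernel

/-- minimal forced family number 16 -/
def s16 : Finset (Finset ℕ) := {{0, 1, 2}, {0, 1, 3}, {2, 4, 5}, {3, 6, 7}, {4, 5, 6}}

/-- weights -/
def sw16 (i : ℕ) : ℕ := [3, 3, 3, 3, 3, 3, 3, 2].getD i 0

/-- local certificates -/
def sc16 (i : ℕ) : List (Finset ℕ × ℕ) :=
  [[({1, 2, 3}, 3)], [({0, 2, 3}, 3)], [({0, 1}, 2), ({4, 5}, 2)], [({0, 1}, 2), ({6, 7}, 1)], [({2, 5, 6}, 3)], [({2, 4, 6}, 3)], [({3, 7}, 1), ({4, 5}, 2)], [({3, 6}, 2)]].getD i []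

theorem forced16 : Forced s16 := by
  refine forced_of_cert (c := sw16) (cert := sc16) 2 ?_ ?_ ?_
  · decide +kernel
  · decide +kernel
  · decide +kernel

/-- minimal forced family number 17 -/
def s17 : Finset (Finset ℕ) := {{0, 1, 2}, {0, 1, 3}, {2, 4, 5}, {3, 6, 7}, {4, 5, 8}}

/-- weights -/
def sw17 (i : ℕ) : ℕ := [6, 6, 6, 6, 3, 3, 3, 3, 1].getD i 0

/-- local certificates -/
def sc17 (i : ℕ) : List (Finset ℕ × ℕ) :=
  [[({1, 2, 3}, 6)], [({0, 2, 3}, 6)], [({0, 1}, 4), ({4, 5}, 2)], [({0, 1}, 4), ({6, 7}, 2)], [({2, 5, 8}, 3)], [({2, 4, 8}, 3)], [({3, 7}, 3)], [({3, 6}, 3)], [({4, 5}, 2)]].getD i []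

theorem forced17 : Forced s17 := by
  refine forced_of_cert (c := sw17) (cert := sc17) 8 ?_ ?_ ?_
  · decide +kernel
  · decide +kernel
  · decide +kernel

/-- minimal forced family number 18 -/
def s18 : Finset (Finset ℕ) := {{0, 1, 2}, {0, 1, 3}, {2, 4, 5}, {3, 6, 7}, {4, 6, 8}}

/-- weights -/
def sw18 (i : ℕ) : ℕ := [5, 5, 5, 5, 4, 2, 4, 3, 2].getD i 0

/-- local certificates -/
def sc18 (i : ℕ) : List (Finset ℕ × ℕ) :=
  [[({1, 2, 3}, 5)], [({0, 2, 3}, 5)], [({0, 1}, 3), ({4, 5}, 2)], [({0, 1}, 3), ({6, 7}, 2)], [({2, 5}, 2), ({6, 8}, 2)], [({2, 4}, 3)], [({3, 7}, 2), ({4, 8}, 2)], [({3, 6}, 3)], [({4, 6}, 2)]].getD i []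

theorem forced18 : Forced s18 := by
  refine forced_of_cert (c := sw18) (cert := sc18) 5 ?_ ?_ ?_
  · decide +kernel
  · decide +kernel
  · decide +kernel

/-- minimal forced family number 19 -/
def s19 : Finset (Finset ℕ) := {{0, 1, 2}, {0, 1, 3}, {2, 4, 5}, {4, 6, 7}, {6, 7, 8}}

/-- weights -/
def sw19 (i : ℕ) : ℕ := [6, 6, 8, 4, 8, 4, 6, 6, 4].getD i 0

/-- local certificates -/
def sc19 (i : ℕ) : List (Finset ℕ × ℕ) :=
  [[({1, 2, 3}, 6)], [({0, 2, 3}, 6)], [({0, 1}, 4), ({4, 5}, 4)], [({0, 1}, 4)], [({2, 5}, 4), ({6, 7}, 4)], [({2, 4}, 5)], [({4, 7, 8}, 6)], [({4, 6, 8}, 6)], [({6, 7}, 4)]].getD i []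

theorem forced19 : Forced s19 := by
  refine forced_of_cert (c := sw19) (cert := sc19) 5 ?_ ?_ ?_
  · decide +kernel
  · decide +kernel
  · decide +kernel

/-- minimal forced family number 20 -/
def s20 : Finset (Finset ℕ) := {{0, 1, 2}, {0, 1, 3}, {2, 4, 5}, {3, 6, 7}, {4, 8, 9}}

/-- weights -/
def sw20 (i : ℕ) : ℕ := [12, 12, 12, 12, 6, 6, 6, 6, 3, 3].getD i 0

/-- local certificates -/
def sc20 (i : ℕ) : List (Finset ℕ × ℕ) :=
  [[({1, 2, 3}, 12)], [({0, 2, 3}, 12)], [({0, 1}, 8), ({4, 5}, 4)], [({0, 1}, 8), ({6, 7}, 4)], [({2, 5}, 6), ({8, 9}, 2)], [({2, 4}, 6)], [({3, 7}, 6)], [({3, 6}, 6)], [({4, 9}, 3)], [({4, 8}, 3)]].getD i []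

theorem forced20 : Forced s20 := by
  refine forced_of_cert (c := sw20) (cert := sc20) 4 ?_ ?_ ?_
  · decide +kernel
  · decide +kernel
  · decide +kernel

/-- minimal forced family number 21 -/
def s21 : Finset (Finset ℕ) := {{0, 1, 2}, {0, 1, 3}, {2, 4, 5}, {4, 6, 7}, {5, 8, 9}}

/-- weights -/
def sw21 (i : ℕ) : ℕ := [3, 3, 6, 1, 6, 6, 3, 3, 3, 3].getD i 0

/-- local certificates -/
def sc21 (i : ℕ) : List (Finset ℕ × ℕ) :=
  [[({1, 2, 3}, 3)], [({0, 2, 3}, 3)], [({0, 1}, 2), ({4, 5}, 4)], [({0, 1}, 2)], [({2, 5}, 4), ({6, 7}, 2)], [({2, 4}, 4), ({8, 9}, 2)], [({4, 7}, 3)], [({4, 6}, 3)], [({5, 9}, 3)], [({5, 8}, 3)]].getD i []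

theorem forced21 : Forced s21 := by
  refine forced_of_cert (c := sw21) (cert := sc21) 3 ?_ ?_ ?_
  · decide +kernel
  · decide +kernel
  · decide +kernel

/-- minimal forced family number 22 -/
def s22 : Finset (Finset ℕ) := {{0, 1, 2}, {0, 1, 3}, {2, 4, 5}, {4, 6, 7}, {6, 8, 9}}

/-- weights -/
def sw22 (i : ℕ) : ℕ := [11, 11, 15, 7, 15, 9, 12, 9, 6, 6].getD i 0

/-- local certificates -/
def sc22 (i : ℕ) : List (Finset ℕ × ℕ) :=
  [[({1, 2, 3}, 11)], [({0, 2, 3}, 11)], [({0, 1}, 7), ({4, 5}, 8)], [({0, 1}, 7)], [({2, 5}, 8), ({6, 7}, 7)], [({2, 4}, 10)], [({4, 7}, 8), ({8, 9}, 4)], [({4, 6}, 9)], [({6, 9}, 6)], [({6, 8}, 6)]].getD i []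

theorem forced22 : Forced s22 := by
  refine forced_of_cert (c := sw22) (cert := sc22) 5 ?_ ?_ ?_
  · decide +kernel
  · decide +kernel
  · decide +kernel

/-- minimal forced family number 23 -/
def s23 : Finset (Finset ℕ) := {{0, 1, 2}, {0, 3, 4}, {1, 5, 6}, {3, 7, 8}, {5, 7, 9}}

/-- weights -/
def sw23 (i : ℕ) : ℕ := [6, 6, 3, 6, 4, 6, 4, 6, 4, 4].getD i 0

/-- local certificates -/
def sc23 (i : ℕ) : List (Finset ℕ × ℕ) :=
  [[({1, 2}, 3), ({3, 4}, 3)], [({0, 2}, 3), ({5, 6}, 3)], [({0, 1}, 4)], [({0, 4}, 3), ({7, 8}, 3)], [({0, 3}, 4)], [({1, 6}, 3), ({7, 9}, 3)], [({1, 5}, 4)], [({3, 8}, 3), ({5, 9}, 3)], [({3, 7}, 4)], [({5, 7}, 4)]].getD i []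

theorem forced23 : Forced s23 := by
  refine forced_of_cert (c := sw23) (cert := sc23) 2 ?_ ?_ ?_
  · decide +kernel
  · decide +kernel
  · decide +kernel

/-- minimal forced family number 24 -/
def s24 : Finset (Finset ℕ) := {{0, 1, 2}, {0, 3, 4}, {1, 5, 6}, {2, 7, 8}, {3, 9, 10}}

/-- weights -/
def sw24 (i : ℕ) : ℕ := [12, 12, 12, 6, 6, 6, 6, 6, 6, 3, 3].getD i 0

/-- local certificates -/
def sc24 (i : ℕ) : List (Finset ℕ × ℕ) :=
  [[({1, 2}, 8), ({3, 4}, 4)], [({0, 2}, 8), ({5, 6}, 4)], [({0, 1}, 8), ({7, 8}, 4)], [({0, 4}, 6), ({9, 10}, 2)], [({0, 3}, 6)], [({1, 6}, 6)], [({1, 5}, 6)], [({2, 8}, 6)], [({2, 7}, 6)], [({3, 10}, 3)], [({3, 9}, 3)]].getD i []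

theorem forced24 : Forced s24 := by
  refine forced_of_cert (c := sw24) (cert := sc24) 3 ?_ ?_ ?_
  · decide +kernel
  · decide +kernel
  · decide +kernel

/-- minimal forced family number 25 -/
def s25 : Finset (Finset ℕ) := {{0, 1, 2}, {0, 3, 4}, {1, 5, 6}, {3, 7, 8}, {5, 9, 10}}

/-- weights -/
def sw25 (i : ℕ) : ℕ := [15, 15, 9, 12, 9, 12, 9, 6, 6, 6, 6].getD i 0

/-- local certificates -/
def sc25 (i : ℕ) : List (Finset ℕ × ℕ) :=
  [[({1, 2}, 8), ({3, 4}, 7)], [({0, 2}, 8), ({5, 6}, 7)], [({0, 1}, 10)], [({0, 4}, 8), ({7, 8}, 4)], [({0, 3}, 9)], [({1, 6}, 8), ({9, 10}, 4)], [({1, 5}, 9)], [({3, 8}, 6)], [({3, 7}, 6)], [({5, 10}, 6)], [({5, 9}, 6)]].getD i []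

theorem forced25 : Forced s25 := by
  refine forced_of_cert (c := sw25) (cert := sc25) 2 ?_ ?_ ?_
  · decide +kernel
  · decide +kernel
  · decide +kernel

/-- the minimal families -/
def smins : List (Finset (Finset ℕ)) := [s0, s1, s2, s3, s4, s5, s6, s7, s8, s9, s10, s11, s12, s13, s14, s15, s16, s17, s18, s19, s20, s21, s22, s23, s24, s25]

theorem forced_smins : ∀ G ∈ smins, Forced G := by
  intro G hG
  simp only [smins, List.mem_cons, List.not_mem_nil, or_false] at hG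
  rcases hG with rfl | rfl | rfl | rfl | rfl | rfl | rfl | rfl | rfl | rfl | rfl | rfl | rfl | rfl | rfl | rfl | rfl | rfl | rfl | rfl | rfl | rfl | rfl | rfl | rfl | rfl
  · exact forced0
  · exact forced1
  · exact forced2
  · exact forced3
  · exact forced4
  · exact forced5
  · exact forced6
  · exact forced7
  · exact forced8
  · exact forced9
  · exact forced10
  · exact forced11
  · exact forced12
  · exact forced13
  · exact forced14
  · exact forced15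
  · exact forced16
  · exact forced17
  · exact forced18
  · exact forced19
  · exact forced20
  · exact forced21
  · exact forced22
  · exact forced23
  · exact forced24
  · exact forced25

end Pool.Agent.U129.UC
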