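import Pool.Agent.U129.UC.SGrow

set_option autoImplicit false

/-!
# Families of 2-sets and 3-sets which are not forced
-/

namespace Pool.Agent.U129.UC

open Finset
open Pool.Agent.N188.FC

/-- the largest down-closed family which avoids `G` at `y` -/
noncomputable def Dm (G : Finset (Finset ℕ)) (y : ℕ) : Finset (Finset ℕ) :=
  ((G.biUnion id).erase y).powerset.filter (fun D => D ∩ lk G y ∈ indep G y (lk G y))

theorem mem_Dm {G : Finset (Finset ℕ)} {y : ℕ} {D : Finset ℕ} :
    D ∈ Dm G y ↔ D ⊆ (G.biUnion id).erase y ∧ ∀ B ∈ G, y ∈ B → ¬ B ⊆ insert y D := by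
  unfold Dm
  rw [mem_filter, mem_powerset]
  unfold indep
  rw [mem_filter, mem_powerset]
  constructor
  · rintro ⟨h1, _, h2⟩
    refine ⟨h1, fun B hB hy hsub => h2 B hB hy ?_⟩
    intro k hk
    rw [mem_insert]
    rcases mem_insert.1 (hsub hk) with h3 | h3
    · exact Or.inl h3
    · by_cases h4 : k = y
      · exact Or.inl h4
      right
      rw [mem_inter]
      refine ⟨h3, ?_⟩
      unfold lk
      rw [mem_erase, mem_biUnion]
      exact ⟨h4, B, mem_filter.2 ⟨hB, hy⟩, hk⟩
  · rintro ⟨h1, h2⟩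
    refine ⟨h1, inter_subset_right, fun B hB hy hsub => h2 B hB hy (hsub.trans ?_)⟩
    exact insert_subset_insert _ inter_subset_left

theorem lk_sub (G : Finset (Finset ℕ)) (y : ℕ) : lk G y ⊆ (G.biUnion id).erase y := by
  unfold lk
  exact erase_subset_erase _ (biUnion_subset_biUnion_of_subset_left id (filter_subset _ _))

theorem valid_Dm (G : Finset (Finset ℕ)) (y : ℕ) : Valid (G.biUnion id) G y (Dm G y) := by
  refine ⟨fun D hD => (mem_Dm.1 hD).1, ?_, fun D hD => (mem_Dm.1 hD).2⟩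
  intro T hT T' hT'
  rw [mem_Dm] at hT ⊢
  exact ⟨hT'.trans hT.1, fun B hB hy hsub => hT.2 B hB hy
    (hsub.trans (insert_subset_insert _ hT'))⟩

theorem coef_cast (G : Finset (Finset ℕ)) (i j : ℕ) (hij : i ≠ j) :
    (coef G i j : ℝ) = - ∑ T ∈ indep G i (lk G i),
      (∑ k ∈ lk G i, (if k = j then (1 : ℝ) else 0) - 2 * ∑ k ∈ T, (if k = j then (1 : ℝ) else 0)) := by
  unfold coef
  rw [if_neg hij]
  push_cast
  rw [zero_sub]
  congr 1
  refine sum_congr rfl fun T _ => ?_
  rw [sum_ite_eq', sum_ite_eq']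

theorem vt_Dm (G : Finset (Finset ℕ)) (i j : ℕ) (hjS : j ∈ G.biUnion id) :
    vt i (Dm G i) j = - (((((G.biUnion id).erase i) \ lk G i).powerset.card : ℤ) * coef G i j) := by
  classical
  obtain ⟨p1, p2⟩ := prod_sum (lk_sub G i) (I := indep G i (lk G i)) indep_sub
    (fun k => if k = j then (1 : ℝ) else 0)
  have hD : (((G.biUnion id).erase i).powerset.filter (fun D => D ∩ lk G i ∈ indep G i (lk G i)))
      = Dm G i := rfl
  rw [hD] at p1 p2
  unfold vt
  by_cases hij : j = i
  · rw [if_pos hij]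
    subst hij
    have h1 : coef G j j = (indep G j (lk G j)).card := by
      unfold coef
      rw [if_pos rfl]
      have hj : j ∉ lk G j := by unfold lk; exact notMem_erase _ _
      have : ∑ T ∈ indep G j (lk G j), (((if j ∈ lk G j then 1 else 0) : ℤ) -
          2 * (if j ∈ T then 1 else 0)) = 0 := by
        refine sum_eq_zero fun T hT => ?_
        rw [if_neg hj, if_neg (fun h => hj (indep_sub T hT h))]
        norm_num
      rw [this, sub_zero]
    rw [h1]
    have : ((Dm G j).card : ℝ) = (indep G j (lk G j)).card *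
        (((G.biUnion id).erase j) \ lk G j).powerset.card := p1
    have h2 : ((Dm G j).card : ℤ) = (indep G j (lk G j)).card *
        (((G.biUnion id).erase j) \ lk G j).powerset.card := by exact_mod_cast this
    rw [h2]
    ring
  · rw [if_neg hij]
    have hv := valid_Dm G i
    have h3 := leaving_eq hv.1 hv.2.1 (fun k => if k = j then (1 : ℝ) else 0)
    rw [p2] at h3
    have h4 : ∑ T ∈ Dm G i, ∑ k ∈ ((G.biUnion id).erase i).filter (fun k => k ∉ T ∧
        insert k T ∉ Dm G i), (if k = j then (1 : ℝ) else 0) =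
        (((Dm G i).filter (fun E => j ∉ E ∧ insert j E ∉ Dm G i)).card : ℝ) := by
      rw [card_eq_sum_ones, Nat.cast_sum, sum_filter]
      refine sum_congr rfl fun T hT => ?_
      rw [sum_ite_eq']
      by_cases hj : j ∉ T ∧ insert j T ∉ Dm G i
      · rw [if_pos hj, if_pos (mem_filter.2 ⟨mem_erase.2 ⟨hij, hjS⟩, hj⟩)]
        simp
      · rw [if_neg hj]
        refine if_neg ?_
        intro h
        exact hj (mem_filter.1 h).2
    rw [h4] at h3
    have h5 := coef_cast G i j (fun h => hij h.symm)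
    have h6 : (((Dm G i).filter (fun E => j ∉ E ∧ insert j E ∉ Dm G i)).card : ℝ) =
        -((((G.biUnion id).erase i) \ lk G i).powerset.card * (coef G i j : ℝ)) := by
      rw [h3, h5]
      ring
    exact_mod_cast h6

/-- the dual criterion -/
theorem exists_of_dual {G : Finset (Finset ℕ)} (hne : (G.biUnion id).Nonempty)
    (hone : ∀ B ∈ G, B.card ≠ 1) {y : ℕ → ℕ}
    (hy : ∀ i ∈ G.biUnion id, 0 < y i)
    (hc : ∀ j ∈ G.biUnion id, (0 : ℤ) ≤ ∑ i ∈ G.biUnion id, (y i : ℤ) * coef G i j) :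
    ∃ F : Finset (Finset ℕ), (∀ A ∈ F, ∀ B ∈ F, A ∪ B ∈ F) ∧ (∀ A ∈ F, ∀ B ∈ G, A ∪ B ∈ F) ∧
      (∀ j ∈ G.biUnion id, 2 * (F.filter (fun A => j ∈ A)).card ≤ F.card) ∧
      ∀ i ∈ G.biUnion id, ¬ Free F i := by
  classical
  obtain ⟨S, hS⟩ : ∃ S, S = G.biUnion id := ⟨_, rfl⟩
  have hGS : ∀ B ∈ G, B ⊆ S := fun B hB => by rw [hS]; exact subset_biUnion_of_mem id hB
  rw [← hS] at hne hy hc ⊢
  obtain ⟨m, hm⟩ : ∃ m : ℕ → ℕ, m = fun i => 2 * y i * 2 ^ (lk G i).card := ⟨_, rfl⟩
  obtain ⟨e, he⟩ := exists_emb (J := Σ i : {i // i ∈ S}, Fin (m i.1)) S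
  obtain ⟨T, hT⟩ : ∃ T, T = univ.map e := ⟨_, rfl⟩
  obtain ⟨K, hK⟩ : ∃ K : ℕ → Finset (Finset ℕ),
    K = Function.extend e (fun j => Kt S j.1.1 (Dm G j.1.1)) (fun _ => ∅) := ⟨_, rfl⟩
  have hKe : ∀ j, K (e j) = Kt S j.1.1 (Dm G j.1.1) := fun j => by
    rw [hK, e.injective.extend_apply]
  have hST : Disjoint S T := by
    rw [disjoint_right]
    intro t ht
    rw [hT, mem_map] at ht
    obtain ⟨j, _, rfl⟩ := ht
    exact he j
  have hm2 : ∀ i ∈ S, 2 ≤ m i := by
    intro i hi
    rw [hm]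
    have h1 := hy i hi
    have h2 : 0 < 2 ^ (lk G i).card := by positivity
    show 2 ≤ 2 * y i * 2 ^ (lk G i).card
    nlinarith
  have hTc : 2 ≤ T.card := by
    rw [hT, card_map, card_univ, Fintype.card_sigma]
    simp only [Fintype.card_fin]
    obtain ⟨i, hi⟩ := hne
    calc 2 ≤ m i := hm2 i hi
      _ ≤ ∑ i : {i // i ∈ S}, m i.1 :=
        single_le_sum (f := fun i : {i // i ∈ S} => m i.1) (fun _ _ => Nat.zero_le _)
          (mem_univ ⟨i, hi⟩)
  have hT' : ∀ t ∈ T, ∃ j, e j = t := by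
    intro t ht
    rw [hT, mem_map] at ht
    obtain ⟨j, _, hj⟩ := ht
    exact ⟨j, hj⟩
  have hv : ∀ i, Valid S G i (Dm G i) := fun i => by rw [hS]; exact valid_Dm G i
  have hrep : ∀ (A : Finset ℕ) (t : ℕ), A ⊆ S → t ∈ T → A ∪ T.erase t ∈ Ft S T ∅ K → A ∈ K t := by
    intro A t hA ht hmem
    unfold Ft at hmem
    rw [mem_image] at hmem
    obtain ⟨⟨B, s⟩, h1, h2⟩ := hmem
    rw [mem_filter, mem_product, mem_powerset] at h1
    obtain ⟨⟨hB, hs⟩, h3⟩ := h1
    simp only at hB hs h2 h3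
    have e1 : ∀ {A U : Finset ℕ}, A ⊆ S → U ⊆ T → (A ∪ U) ∩ S = A := by
      intro A U hA hU
      ext x
      simp only [mem_inter, mem_union]
      constructor
      · rintro ⟨h3 | h3, h4⟩
        · exact h3
        · exact absurd (hU h3) (disjoint_left.1 hST h4)
      · intro h3
        exact ⟨Or.inl h3, hA h3⟩
    have e2 : ∀ {A U : Finset ℕ}, A ⊆ S → U ⊆ T → (A ∪ U) ∩ T = U := by
      intro A U hA hU
      ext x
      simp only [mem_inter, mem_union]
      constructor
      · rintro ⟨h3 | h3, h4⟩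
        · exact absurd h4 (disjoint_left.1 hST (hA h3))
        · exact h3
      · intro h3
        exact ⟨Or.inr h3, hU h3⟩
    have h4 : B = A := by
      rw [← e1 hB (Bt_sub (s := s)), h2, e1 hA (erase_subset _ _)]
    have h5 : Bt T s = Bt T (some (some t)) := by
      rw [← e2 hB (Bt_sub (s := s)), h2, e2 hA (erase_subset _ _)]
      rfl
    have h6 := Bt_inj hTc hs (by simpa using ht) h5
    subst h6
    subst h4
    exact h3
  refine ⟨Ft S T ∅ K, ?_, ?_, ?_, ?_⟩
  · apply Ft_union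
    · intro A hA
      exact absurd hA (notMem_empty A)
    · intro t ht
      obtain ⟨j, rfl⟩ := hT' t ht
      rw [hKe]
      exact Kt_union (hv _).2.1
    · intro t ht A hA B hB
      exact absurd hB (notMem_empty B)
  · intro X hX B hB
    unfold Ft at hX
    rw [mem_image] at hX
    obtain ⟨⟨A, s⟩, h1, rfl⟩ := hX
    rw [mem_filter, mem_product, mem_powerset] at h1
    obtain ⟨⟨hA, hs⟩, h3⟩ := h1
    simp only at hA hs h3 ⊢
    have hX : A ∪ Bt T s ∪ B = (A ∪ B) ∪ Bt T s := by
      rw [union_assoc, union_comm (Bt T s), ← union_assoc]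
    rcases s with _ | _ | t
    · exact absurd h3 (notMem_empty A)
    · exact mem_Ft' (some none) (union_subset hA (hGS B hB)) (by simp) trivial hX
    · have ht : t ∈ T := by simpa using hs
      obtain ⟨j, rfl⟩ := hT' t ht
      refine mem_Ft' (some (some (e j))) (union_subset hA (hGS B hB)) hs ?_ hX
      have h4 : A ∈ K (e j) := h3
      show A ∪ B ∈ K (e j)
      rw [hKe] at h4 ⊢
      exact Kt_absorb hGS (hv _) A h4 B hB
  · intro x hx
    have h1 := Ft_count (G0 := ∅) (K := K) hST hTc hx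
    rw [sg_sum] at h1
    have h2 : ∑ t ∈ T, ∑ A ∈ S.powerset, (if A ∈ K t then sg x A else 0) =
        ∑ i ∈ S, (m i : ℤ) * vt i (Dm G i) x := by
      rw [hT, sum_map, Fintype.sum_sigma, ← sum_coe_sort S]
      refine sum_congr rfl fun i _ => ?_
      have h3 : ∀ j : Fin (m i.1), ∑ A ∈ S.powerset, (if A ∈ K (e ⟨i, j⟩) then sg x A else 0) =
          vt i.1 (Dm G i.1) x := by
        intro j
        rw [hKe]
        exact Kt_count i.2 hx (hv _).1 (hv _).2.1
      rw [sum_congr rfl (fun j _ => h3 j), sum_const, card_univ, Fintype.card_fin, nsmul_eq_mul]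
    have h3 : ∑ i ∈ S, (m i : ℤ) * vt i (Dm G i) x =
        - (2 ^ S.card * ∑ i ∈ S, (y i : ℤ) * coef G i x) := by
      rw [mul_sum, ← sum_neg_distrib]
      refine sum_congr rfl fun i hi => ?_
      rw [vt_Dm G i x (by rw [← hS]; exact hx), hm]
      have h4 : (((G.biUnion id).erase i) \ lk G i).powerset.card * 2 ^ (lk G i).card * 2 =
          2 ^ S.card := by
        have h5 : ((G.biUnion id).erase i \ lk G i).card + (lk G i).card = S.card - 1 := by
          rw [card_sdiff_add_card_eq_card (lk_sub G i), ← hS, card_erase_of_mem hi]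
        have h6 : 0 < S.card := card_pos.2 ⟨i, hi⟩
        rw [card_powerset, ← pow_add, h5, ← pow_succ]
        congr 1
        omega
      have h7 : ((2 : ℤ) ^ S.card) = (((G.biUnion id).erase i) \ lk G i).powerset.card *
          2 ^ (lk G i).card * 2 := by exact_mod_cast h4.symm
      rw [h7]
      push_cast
      ring
    rw [h2, h3] at h1
    have h4 := hc x hx
    have h5 : (0 : ℤ) ≤ 2 ^ S.card * ∑ i ∈ S, (y i : ℤ) * coef G i x :=
      mul_nonneg (by positivity) h4
    simp only [notMem_empty, if_false, sum_const_zero, zero_add] at h1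
    have h6 : (2 * ((Ft S T ∅ K).filter (fun A => x ∈ A)).card : ℤ) ≤ (Ft S T ∅ K).card := by
      linarith
    exact_mod_cast h6
  · intro i hi hfree
    obtain ⟨t, ht⟩ : ∃ t, t = e ⟨⟨i, hi⟩, ⟨0, by have := hm2 i hi; show 0 < m i; omega⟩⟩ := ⟨_, rfl⟩
    have htT : t ∈ T := by
      rw [ht, hT]
      exact mem_map_of_mem _ (mem_univ _)
    have hKt : K t = Kt S i (Dm G i) := by rw [ht, hKe]
    have h0 : (∅ : Finset ℕ) ∈ K t := by
      rw [hKt]
      unfold Kt
      rw [mem_filter]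
      exact ⟨empty_mem_powerset _, Or.inl (notMem_empty _)⟩
    have h1 : ∅ ∪ T.erase t ∈ Ft S T ∅ K :=
      mem_Ft' (some (some t)) (empty_subset _) (by simpa using htT) h0 rfl
    have h2 := (hfree _ h1).1
    rw [← insert_union] at h2
    have h3 := hrep (insert i ∅) t (by simpa using hi) htT h2
    rw [hKt] at h3
    unfold Kt at h3
    rw [mem_filter] at h3
    have h4 : (insert i (∅ : Finset ℕ)).erase i = ∅ := by simp
    rw [h4] at h3
    rcases h3.2 with h5 | h5
    · exact h5 (mem_insert_self _ _)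
    · apply h5
      rw [mem_Dm]
      refine ⟨empty_subset _, fun B hB hiB hsub => hone B hB ?_⟩
      rw [card_eq_one]
      exact ⟨i, subset_antisymm (by simpa using hsub) (singleton_subset_iff.2 hiB)⟩

end Pool.Agent.U129.UC
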