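import Pool.Agent.U129.UC.SNeg

set_option autoImplicit false

/-!
# Families of sets with at most three elements which are not forced
-/

namespace Pool.Agent.U129.UC

open Finset
open Pool.Agent.N188.FC

/-- multipliers -/
def yP (i : ℕ) : ℕ := [1, 1].getD i 0
/-- multipliers -/
def yB3 (i : ℕ) : ℕ := [3, 3, 2, 2, 2].getD i 0
/-- multipliers -/
def yS3 (i : ℕ) : ℕ := [2, 9, 9, 9, 9, 9, 9].getD i 0
/-- multipliers -/
def yDF (i : ℕ) : ℕ := [9, 9, 4, 6, 9, 9, 6].getD i 0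
/-- multipliers -/
def yBF (i : ℕ) : ℕ := [6, 6, 2, 2, 3, 3, 3, 3].getD i 0
/-- multipliers -/
def yNT (i : ℕ) : ℕ := [2, 2, 2, 3, 3, 3, 3, 3, 3].getD i 0

theorem snons_dual : ∀ N ∈ snons, ∃ n, ∃ y : ℕ → ℕ, N.biUnion id = range n ∧
    (∀ i ∈ range n, 0 < y i) ∧
    (∀ j ∈ range n, (0 : ℤ) ≤ ∑ i ∈ range n, (y i : ℤ) * coef N i j) := by
  intro N hN
  simp only [snons, List.mem_cons, List.not_mem_nil, or_false] at hN
  rcases hN with rfl | rfl | rfl | rfl | rfl | rfl | rfl | rfl | rfl | rfl | rfl | rfl | rfl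
  · exact ⟨2, yP, by decide, by decide, by decide +kernel⟩
  · exact ⟨3, yL1, by decide, by decide, by decide +kernel⟩
  · exact ⟨5, yL2, by decide, by decide, by decide +kernel⟩
  · exact ⟨7, yL3, by decide, by decide, by decide +kernel⟩
  · exact ⟨9, yL4, by decide, by decide, by decide +kernel⟩
  · exact ⟨4, yF1, by decide, by decide, by decide +kernel⟩
  · exact ⟨6, yF2, by decide, by decide, by decide +kernel⟩
  · exact ⟨8, yF3, by decide, by decide, by decide +kernel⟩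
  · exact ⟨5, yB3, by decide, by decide, by decide +kernel⟩
  · exact ⟨7, yS3, by decide, by decide, by decide +kernel⟩
  · exact ⟨7, yDF, by decide, by decide, by decide +kernel⟩
  · exact ⟨8, yBF, by decide, by decide, by decide +kernel⟩
  · exact ⟨9, yNT, by decide, by decide, by decide +kernel⟩

theorem coef_ren (σ : Equiv.Perm ℕ) (N : Finset (Finset ℕ)) (i j : ℕ) :
    coef (ren σ N) (σ i) (σ j) = coef N i j := by
  unfold coef
  rw [lk_ren, indep_ren, card_image_of_injective _ (inj_image σ),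
    sum_image (fun _ _ _ _ h => inj_image σ h)]
  have h1 : ∀ A : Finset ℕ, (σ j ∈ A.image σ) ↔ j ∈ A := by
    intro A
    rw [mem_image]
    exact ⟨fun ⟨k, hk, h⟩ => σ.injective h ▸ hk, fun h => ⟨j, h, rfl⟩⟩
  simp only [h1, EmbeddingLike.apply_eq_iff_eq]

theorem biUnion_ren (σ : Equiv.Perm ℕ) (N : Finset (Finset ℕ)) :
    (ren σ N).biUnion id = (N.biUnion id).image σ := by
  ext x
  simp only [mem_biUnion, mem_ren, id, mem_image]
  constructor
  · rintro ⟨B, ⟨A, hA, rfl⟩, hx⟩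
    obtain ⟨i, hi, rfl⟩ := mem_image.1 hx
    exact ⟨i, ⟨A, hA, hi⟩, rfl⟩
  · rintro ⟨i, ⟨A, hA, hi⟩, rfl⟩
    exact ⟨A.image σ, ⟨A, hA, rfl⟩, mem_image_of_mem _ hi⟩

/-- multipliers for an isomorphic copy -/
theorem dual_iso {N C : Finset (Finset ℕ)} (hN : N ∈ snons) (h : Iso N C) :
    ∃ y : ℕ → ℕ, (∀ i ∈ C.biUnion id, 0 < y i) ∧
      ∀ j ∈ C.biUnion id, (0 : ℤ) ≤ ∑ i ∈ C.biUnion id, (y i : ℤ) * coef C i j := by
  obtain ⟨n, y, h1, h2, h3⟩ := snons_dual N hN
  obtain ⟨σ, rfl⟩ := h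
  rw [biUnion_ren, h1]
  refine ⟨fun i => y (σ.symm i), ?_, ?_⟩
  · intro i hi
    obtain ⟨k, hk, rfl⟩ := mem_image.1 hi
    simpa using h2 k hk
  · intro j hj
    obtain ⟨k, hk, rfl⟩ := mem_image.1 hj
    rw [sum_image (fun _ _ _ _ h => σ.injective h)]
    refine (h3 k hk).trans (le_of_eq (sum_congr rfl fun i _ => ?_))
    rw [coef_ren]
    simp

/-- `A` and `B` lie in the same component of `G` -/
def Lnk (G : Finset (Finset ℕ)) (A B : Finset ℕ) : Prop :=
  Relation.EqvGen (fun A B => A ∈ G ∧ B ∈ G ∧ ¬ Disjoint A B) A B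

open scoped Classical in
/-- the component of `A` -/
noncomputable def cmp (G : Finset (Finset ℕ)) (A : Finset ℕ) : Finset (Finset ℕ) :=
  G.filter (fun B => Lnk G A B)

theorem mem_cmp {G : Finset (Finset ℕ)} {A B : Finset ℕ} : B ∈ cmp G A ↔ B ∈ G ∧ Lnk G A B := by
  classical
  unfold cmp
  rw [mem_filter]

theorem cmp_eq {G : Finset (Finset ℕ)} {A B : Finset ℕ} (h : Lnk G A B) : cmp G A = cmp G B := by
  ext C
  rw [mem_cmp, mem_cmp]
  exact ⟨fun h1 => ⟨h1.1, (h.symm).trans _ _ _ h1.2⟩, fun h1 => ⟨h1.1, h.trans _ _ _ h1.2⟩⟩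

theorem cmp_conn {G : Finset (Finset ℕ)} {A : Finset ℕ} (hA : A ∈ G) : Conn (cmp G A) := by
  classical
  refine ⟨⟨A, mem_cmp.2 ⟨hA, Relation.EqvGen.refl A⟩⟩, ?_⟩
  intro H hH hne hne2
  by_contra hcon
  push Not at hcon
  -- `H` is closed under links
  have key : ∀ B C, Relation.EqvGen (fun A B => A ∈ G ∧ B ∈ G ∧ ¬ Disjoint A B) B C →
      Lnk G A B → (B ∈ H ↔ C ∈ H) := by
    intro B C h
    induction h with
    | rel B C h =>
      intro hAB
      have hB : B ∈ cmp G A := mem_cmp.2 ⟨h.1, hAB⟩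
      have hC : C ∈ cmp G A := mem_cmp.2 ⟨h.2.1, hAB.trans _ _ _ (Relation.EqvGen.rel _ _ h)⟩
      constructor
      · intro h1
        by_contra h2
        exact h.2.2 (hcon B h1 C hC h2)
      · intro h1
        by_contra h2
        exact h.2.2 ((hcon C h1 B hB h2).symm)
    | refl B => intro _; exact Iff.rfl
    | symm B C h ih =>
      intro hAC
      exact (ih (hAC.trans _ _ _ (Relation.EqvGen.symm _ _ h))).symm
    | trans B C D h1 h2 ih1 ih2 =>
      intro hAB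
      exact (ih1 hAB).trans (ih2 (hAB.trans _ _ _ h1))
  apply hne2
  refine subset_antisymm hH ?_
  intro C hC
  obtain ⟨B, hB⟩ := hne
  have h1 := (mem_cmp.1 (hH hB)).2
  have h2 := (mem_cmp.1 hC).2
  exact ((key A B h1 (Relation.EqvGen.refl A)).2 hB |> (key A C h2 (Relation.EqvGen.refl A)).1)

theorem coef_sub {G C : Finset (Finset ℕ)} (hCG : C ⊆ G) {i : ℕ}
    (hi : ∀ B ∈ G, i ∈ B → B ∈ C) (j : ℕ) : coef G i j = coef C i j := by
  have h1 : G.filter (fun B => i ∈ B) = C.filter (fun B => i ∈ B) := by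
    ext B
    rw [mem_filter, mem_filter]
    exact ⟨fun h => ⟨hi B h.1 h.2, h.2⟩, fun h => ⟨hCG h.1, h.2⟩⟩
  have h2 : lk G i = lk C i := by unfold lk; rw [h1]
  have h3 : ∀ V, indep G i V = indep C i V := by
    intro V
    ext T
    unfold indep
    rw [mem_filter, mem_filter]
    constructor
    · rintro ⟨h4, h5⟩
      exact ⟨h4, fun B hB => h5 B (hCG hB)⟩
    · rintro ⟨h4, h5⟩
      exact ⟨h4, fun B hB hyB => h5 B (hi B hB hyB) hyB⟩
  unfold coef
  rw [h2, h3]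

theorem coef_zero {G : Finset (Finset ℕ)} {i j : ℕ} (hij : i ≠ j)
    (h : ∀ B ∈ G, i ∈ B → j ∉ B) : coef G i j = 0 := by
  have hj : j ∉ lk G i := by
    unfold lk
    rw [mem_erase, mem_biUnion]
    rintro ⟨-, B, hB, hjB⟩
    rw [mem_filter] at hB
    exact h B hB.1 hB.2 hjB
  unfold coef
  rw [if_neg hij, zero_sub, neg_eq_zero]
  refine sum_eq_zero fun T hT => ?_
  rw [if_neg hj, if_neg (fun h => hj (indep_sub T hT h))]
  norm_num

theorem not_forced {G : Finset (Finset ℕ)} (hne : (G.biUnion id).Nonempty)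
    (h1 : ∀ A ∈ G, A.card ≠ 1) (h3 : ∀ A ∈ G, A.card ≤ 3)
    (h : ∀ C ⊆ G, (∀ A ∈ C, A.card = 2 ∨ A.card = 3) → Conn C → ∃ N ∈ snons, Iso N C) :
    ∃ F : Finset (Finset ℕ), (∀ A ∈ F, ∀ B ∈ F, A ∪ B ∈ F) ∧ (∀ A ∈ F, ∀ B ∈ G, A ∪ B ∈ F) ∧
      (∀ j ∈ G.biUnion id, 2 * (F.filter (fun A => j ∈ A)).card ≤ F.card) ∧
      ∀ i ∈ G.biUnion id, ¬ Free F i := by
  classical
  have hsz : ∀ A ∈ G, A.Nonempty → A.card = 2 ∨ A.card = 3 := by
    intro A hA hne
    have := h1 A hA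
    have := h3 A hA
    have := hne.card_pos
    omega
  -- multipliers for the components
  have hY : ∀ C : Finset (Finset ℕ), ∃ y : ℕ → ℕ, (∃ N ∈ snons, Iso N C) →
      (∀ i ∈ C.biUnion id, 0 < y i) ∧
      ∀ j ∈ C.biUnion id, (0 : ℤ) ≤ ∑ i ∈ C.biUnion id, (y i : ℤ) * coef C i j := by
    intro C
    by_cases hC : ∃ N ∈ snons, Iso N C
    · obtain ⟨N, hN, hC⟩ := hC
      obtain ⟨y, hy⟩ := dual_iso hN hC
      exact ⟨y, fun _ => hy⟩
    · exact ⟨fun _ => 0, fun h => absurd h hC⟩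
  choose Y hY using hY
  -- a member containing `i`
  have hA : ∀ i, ∃ A : Finset ℕ, i ∈ G.biUnion id → A ∈ G ∧ i ∈ A := by
    intro i
    by_cases hi : i ∈ G.biUnion id
    · obtain ⟨A, hA, hiA⟩ := mem_biUnion.1 hi
      exact ⟨A, fun _ => ⟨hA, hiA⟩⟩
    · exact ⟨∅, fun h => absurd h hi⟩
  choose m hm using hA
  have hmem : ∀ i ∈ G.biUnion id, ∀ B ∈ G, i ∈ B → B ∈ cmp G (m i) := by
    intro i hi B hB hiB
    rw [mem_cmp]
    refine ⟨hB, Relation.EqvGen.rel _ _ ⟨(hm i hi).1, hB, ?_⟩⟩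
    rw [not_disjoint_iff]
    exact ⟨i, (hm i hi).2, hiB⟩
  have hcne : ∀ A ∈ G, A.Nonempty → ∀ B ∈ cmp G A, B.Nonempty := by
    intro A hA hAne B hB
    by_contra hcon
    rw [not_nonempty_iff_eq_empty] at hcon
    subst hcon
    have key : ∀ B C, Relation.EqvGen (fun A B => A ∈ G ∧ B ∈ G ∧ ¬ Disjoint A B) B C →
        (B = ∅ ↔ C = ∅) := by
      intro B C h
      induction h with
      | rel B C h =>
        obtain ⟨-, -, h⟩ := h
        rw [not_disjoint_iff] at h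
        obtain ⟨x, hx, hx'⟩ := h
        constructor
        · rintro rfl; exact absurd hx (notMem_empty _)
        · rintro rfl; exact absurd hx' (notMem_empty _)
      | refl B => exact Iff.rfl
      | symm B C h ih => exact ih.symm
      | trans B C D h1 h2 ih1 ih2 => exact ih1.trans ih2
    have := (key A ∅ (mem_cmp.1 hB).2).2 rfl
    exact hAne.ne_empty this
  have hiso : ∀ i ∈ G.biUnion id, ∃ N ∈ snons, Iso N (cmp G (m i)) := by
    intro i hi
    have h5 := hm i hi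
    refine h _ (fun B hB => (mem_cmp.1 hB).1) ?_ (cmp_conn h5.1)
    intro A hA
    exact hsz A (mem_cmp.1 hA).1 (hcne _ h5.1 ⟨i, h5.2⟩ A hA)
  have hmi : ∀ i ∈ G.biUnion id, i ∈ (cmp G (m i)).biUnion id := by
    intro i hi
    exact mem_biUnion.2 ⟨m i, hmem i hi _ (hm i hi).1 (hm i hi).2, (hm i hi).2⟩
  refine exists_of_dual hne h1 (y := fun i => Y (cmp G (m i)) i) ?_ ?_
  · intro i hi
    exact (hY _ (hiso i hi)).1 i (hmi i hi)
  · intro j hj
    have hsub : (cmp G (m j)).biUnion id ⊆ G.biUnion id :=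
      biUnion_subset_biUnion_of_subset_left id (fun B hB => (mem_cmp.1 hB).1)
    have h5 : ∑ i ∈ G.biUnion id, (Y (cmp G (m i)) i : ℤ) * coef G i j =
        ∑ i ∈ (cmp G (m j)).biUnion id, (Y (cmp G (m j)) i : ℤ) * coef (cmp G (m j)) i j := by
      symm
      refine (sum_subset_zero_on_sdiff hsub ?_ ?_)
      · intro i hi
        rw [mem_sdiff] at hi
        have hij : i ≠ j := by
          rintro rfl
          exact hi.2 (hmi i hi.1)
        rw [coef_zero hij, mul_zero]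
        intro B hB hiB hjB
        exact hi.2 (mem_biUnion.2 ⟨B, hmem j hj B hB hjB, hiB⟩)
      · intro i hi
        obtain ⟨B, hB, hiB⟩ := mem_biUnion.1 hi
        have hiG := hsub hi
        have h6 : cmp G (m i) = cmp G (m j) := by
          have h7 := (mem_cmp.1 (hmem i hiG B (mem_cmp.1 hB).1 hiB)).2
          have h8 := (mem_cmp.1 hB).2
          exact cmp_eq (h7.trans _ _ _ h8.symm)
        rw [h6, coef_sub (C := cmp G (m j)) (fun B hB => (mem_cmp.1 hB).1) ?_ j]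
        intro B' hB' hiB'
        rw [← h6]
        exact hmem i hiG B' hB' hiB'
    rw [h5]
    exact (hY _ (hiso j hj)).2 j (hmi j hj)

theorem forced_one {A : Finset ℕ} (h : A.card = 1) : Forced {A} := by
  obtain ⟨a, rfl⟩ := card_eq_one.1 h
  have h0 : Forced {{0}} := by
    refine forced_of_cert (c := fun _ => 0) (cert := fun _ => [(∅, 1)]) 0 ?_ ?_ ?_
    · decide +kernel
    · decide +kernel
    · decide +kernel
  have h1 := h0.ren (Equiv.swap 0 a)
  have h2 : ren (Equiv.swap 0 a) {{0}} = {{a}} := by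
    unfold ren
    rw [image_singleton, image_singleton, Equiv.swap_apply_left]
  rwa [h2] at h1

/-- **the classification** -/
theorem sclassification {G : Finset (Finset ℕ)} (h3 : ∀ A ∈ G, A.card ≤ 3) :
    Forced G ↔ (∃ A ∈ G, A.card = 1) ∨
      ∃ C ⊆ G, (∀ A ∈ C, A.card = 2 ∨ A.card = 3) ∧ Conn C ∧ ¬ ∃ N ∈ snons, Iso N C := by
  constructor
  · rintro ⟨x, hx, hF⟩
    by_contra hcon
    push Not at hcon
    obtain ⟨F, f1, f2, f3, f4⟩ := not_forced ⟨x, hx⟩ (fun A hA => hcon.1 A hA) h3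
      (fun C hC h3 hconn => hcon.2 C hC h3 hconn)
    rcases hF F f1 f2 with ⟨y, hy, h4⟩ | h4
    · have := f3 y hy
      omega
    · exact f4 x hx h4
  · rintro (⟨A, hA, h1⟩ | ⟨C, hCG, hC3, hC, hno⟩)
    · exact (forced_one h1).mono (singleton_subset_iff.2 hA)
    · exact ((sdichotomy hC3 hC).resolve_right hno).mono hCG

end Pool.Agent.U129.UC
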