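import Pool.Agent.U129.UC.SMin

set_option autoImplicit false

/-!
# The tables for the growth of connected families of 2-sets and 3-sets
-/

namespace Pool.Agent.U129.UC

open Finset

/-- one pair -/
def pairFam : Finset (Finset ℕ) := {{0, 1}}

/-- three sets with two common elements -/
def book3 : Finset (Finset ℕ) := {{0, 1, 2}, {0, 1, 3}, {0, 1, 4}}

/-- three sets with one common element -/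
def star3 : Finset (Finset ℕ) := {{0, 1, 2}, {0, 3, 4}, {0, 5, 6}}

/-- two pairs of sets with two common elements -/
def dfork : Finset (Finset ℕ) := {{0, 1, 2}, {0, 1, 3}, {2, 4, 5}, {4, 5, 6}}

/-- two sets with two common elements and a set at each of the other elements -/
def bfork : Finset (Finset ℕ) := {{0, 1, 2}, {0, 1, 3}, {2, 4, 5}, {3, 6, 7}}

/-- a set with one more set at each of its elements -/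
def net : Finset (Finset ℕ) := {{0, 1, 2}, {0, 3, 4}, {1, 5, 6}, {2, 7, 8}}

/-- the connected families of 2-sets and 3-sets which are not forced -/
def snons : List (Finset (Finset ℕ)) :=
  [pairFam, loosePath 1, loosePath 2, loosePath 3, loosePath 4, forkedPath 1, forkedPath 2, forkedPath 3, book3, star3, dfork, bfork, net]

/-- the check of one entry of a table -/
def SGood (N : Finset (Finset ℕ)) (B : Finset ℕ) (e : Finset ℕ × ℕ × List (ℕ × ℕ)) : Prop :=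
  e.1 = B ∧ ((e.2.1 < 26 ∧ ren (ap e.2.2) (smins.getD e.2.1 ∅) ⊆ insert B N) ∨
    (26 ≤ e.2.1 ∧ e.2.1 < 39 ∧ ren (ap e.2.2) (snons.getD (e.2.1 - 26) ∅) = insert B N))

instance (N : Finset (Finset ℕ)) (B : Finset ℕ) (e : Finset ℕ × ℕ × List (ℕ × ℕ)) :
    Decidable (SGood N B e) := by unfold SGood ren; infer_instance

/-- the check of a table -/
def STab (k : ℕ) (N : Finset (Finset ℕ)) (n : ℕ) (t : List (Finset ℕ × ℕ × List (ℕ × ℕ))) : Prop :=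
  ∀ B ∈ powersetCard k (range (n + 2)), (∃ i ∈ B, i < n) → (n + 1 ∈ B → n ∈ B) → B ∉ N →
    ∃ e ∈ t, SGood N B e

instance (k : ℕ) (N : Finset (Finset ℕ)) (n : ℕ) (t : List (Finset ℕ × ℕ × List (ℕ × ℕ))) :
    Decidable (STab k N n t) := by unfold STab; infer_instance

/-- table -/
def stP2 : List (Finset ℕ × ℕ × List (ℕ × ℕ)) :=
  [({0, 2}, 1, []),
   ({1, 2}, 1, [(0, 1)])]

/-- table -/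
def stP3 : List (Finset ℕ × ℕ × List (ℕ × ℕ)) :=
  [({0, 1, 2}, 0, []),
   ({0, 2, 3}, 2, []),
   ({1, 2, 3}, 2, [(0, 1)])]

/-- table -/
def stL12 : List (Finset ℕ × ℕ × List (ℕ × ℕ)) :=
  [({0, 1}, 0, []),
   ({0, 2}, 0, [(1, 2)]),
   ({0, 3}, 2, [(1, 3), (2, 1)]),
   ({1, 2}, 0, [(0, 1), (0, 2)]),
   ({1, 3}, 2, [(0, 1), (0, 3), (2, 0)]),
   ({2, 3}, 2, [(0, 2), (1, 3)])]

/-- table -/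
def stL13 : List (Finset ℕ × ℕ × List (ℕ × ℕ)) :=
  [({0, 1, 3}, 31, []),
   ({0, 2, 3}, 31, [(1, 2)]),
   ({0, 3, 4}, 28, [(0, 1), (0, 2)]),
   ({1, 2, 3}, 31, [(0, 1), (0, 2)]),
   ({1, 3, 4}, 28, [(1, 2)]),
   ({2, 3, 4}, 28, [])]

/-- table -/
def stL22 : List (Finset ℕ × ℕ × List (ℕ × ℕ)) :=
  [({0, 1}, 0, []),
   ({0, 2}, 0, [(1, 2)]),
   ({0, 3}, 2, [(1, 3), (2, 1)]),
   ({0, 4}, 2, [(1, 4), (2, 1), (3, 2)]),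
   ({0, 5}, 2, [(1, 5), (2, 1), (3, 2)]),
   ({1, 2}, 0, [(0, 1), (0, 2)]),
   ({1, 3}, 2, [(0, 1), (0, 3), (2, 0)]),
   ({1, 4}, 2, [(0, 1), (0, 4), (2, 0), (3, 2)]),
   ({1, 5}, 2, [(0, 1), (0, 5), (2, 0), (3, 2)]),
   ({2, 3}, 0, [(0, 2), (1, 3), (0, 4)]),
   ({2, 4}, 0, [(0, 2), (1, 4), (0, 3)]),
   ({2, 5}, 2, [(0, 2), (1, 5), (3, 1)]),
   ({3, 4}, 0, [(0, 3), (1, 4)]),
   ({3, 5}, 2, [(0, 3), (1, 5), (0, 4)]),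
   ({4, 5}, 2, [(0, 4), (1, 5)])]

/-- table -/
def stL23 : List (Finset ℕ × ℕ × List (ℕ × ℕ)) :=
  [({0, 1, 3}, 5, []),
   ({0, 1, 4}, 5, [(3, 4)]),
   ({0, 1, 5}, 32, []),
   ({0, 2, 3}, 4, [(0, 2), (1, 0), (1, 3)]),
   ({0, 2, 4}, 4, [(0, 2), (1, 0), (1, 4), (3, 1)]),
   ({0, 2, 5}, 6, [(0, 2), (1, 0), (3, 5), (4, 3)]),
   ({0, 3, 4}, 5, [(0, 3), (1, 4)]),
   ({0, 3, 5}, 7, [(1, 2), (4, 5)]),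
   ({0, 4, 5}, 7, [(1, 2), (3, 4), (3, 5)]),
   ({0, 5, 6}, 29, [(0, 3), (1, 4), (0, 1)]),
   ({1, 2, 3}, 4, [(0, 2), (0, 3)]),
   ({1, 2, 4}, 4, [(0, 2), (0, 4), (3, 0)]),
   ({1, 2, 5}, 6, [(0, 2), (3, 5), (4, 3)]),
   ({1, 3, 4}, 5, [(0, 3), (1, 4), (0, 1)]),
   ({1, 3, 5}, 7, [(0, 1), (0, 2), (4, 5)]),
   ({1, 4, 5}, 7, [(0, 1), (0, 2), (3, 4), (3, 5)]),
   ({1, 5, 6}, 29, [(0, 3), (1, 4)]),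
   ({2, 3, 5}, 6, [(0, 2), (1, 3), (0, 4), (1, 5)]),
   ({2, 4, 5}, 6, [(0, 2), (1, 4), (0, 3), (0, 5), (1, 0)]),
   ({2, 5, 6}, 35, [(0, 2), (1, 0)]),
   ({3, 4, 5}, 32, [(0, 3), (1, 4)]),
   ({3, 5, 6}, 29, [(3, 4)]),
   ({4, 5, 6}, 29, [])]

/-- table -/
def stL32 : List (Finset ℕ × ℕ × List (ℕ × ℕ)) :=
  [({0, 1}, 0, []),
   ({0, 2}, 0, [(1, 2)]),
   ({0, 3}, 2, [(1, 3), (2, 1)]),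
   ({0, 4}, 2, [(1, 4), (2, 1), (3, 2)]),
   ({0, 5}, 2, [(1, 5), (2, 1), (3, 2)]),
   ({0, 6}, 2, [(1, 6), (2, 1), (3, 2)]),
   ({0, 7}, 2, [(1, 7), (2, 1), (3, 2)]),
   ({1, 2}, 0, [(0, 1), (0, 2)]),
   ({1, 3}, 2, [(0, 1), (0, 3), (2, 0)]),
   ({1, 4}, 2, [(0, 1), (0, 4), (2, 0), (3, 2)]),
   ({1, 5}, 2, [(0, 1), (0, 5), (2, 0), (3, 2)]),
   ({1, 6}, 2, [(0, 1), (0, 6), (2, 0), (3, 2)]),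
   ({1, 7}, 2, [(0, 1), (0, 7), (2, 0), (3, 2)]),
   ({2, 3}, 0, [(0, 2), (1, 3), (0, 4)]),
   ({2, 4}, 0, [(0, 2), (1, 4), (0, 3)]),
   ({2, 5}, 2, [(0, 2), (1, 5), (3, 1)]),
   ({2, 6}, 2, [(0, 2), (1, 6), (3, 1)]),
   ({2, 7}, 2, [(0, 2), (1, 7), (3, 1)]),
   ({3, 4}, 0, [(0, 3), (1, 4)]),
   ({3, 5}, 2, [(0, 3), (1, 5), (0, 4)]),
   ({3, 6}, 2, [(0, 3), (1, 6), (0, 4)]),
   ({3, 7}, 2, [(0, 3), (1, 7), (0, 4)]),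
   ({4, 5}, 0, [(0, 4), (1, 5), (2, 6)]),
   ({4, 6}, 0, [(0, 4), (1, 6), (2, 5)]),
   ({4, 7}, 2, [(0, 4), (1, 7)]),
   ({5, 6}, 0, [(0, 5), (1, 6), (2, 4)]),
   ({5, 7}, 2, [(0, 5), (1, 7), (2, 4), (3, 6)]),
   ({6, 7}, 2, [(0, 6), (1, 7), (2, 4), (3, 5)])]

/-- table -/
def stL33 : List (Finset ℕ × ℕ × List (ℕ × ℕ)) :=
  [({0, 1, 3}, 5, []),
   ({0, 1, 4}, 5, [(3, 4)]),
   ({0, 1, 5}, 11, [(3, 5)]),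
   ({0, 1, 6}, 11, [(3, 6), (5, 3)]),
   ({0, 1, 7}, 33, []),
   ({0, 2, 3}, 4, [(0, 2), (1, 0), (1, 3)]),
   ({0, 2, 4}, 4, [(0, 2), (1, 0), (1, 4), (3, 1)]),
   ({0, 2, 5}, 6, [(0, 2), (1, 0), (3, 5), (4, 3)]),
   ({0, 2, 6}, 6, [(0, 2), (1, 0), (3, 6), (4, 3), (5, 4)]),
   ({0, 2, 7}, 6, [(0, 2), (1, 0), (3, 7), (4, 3), (5, 4)]),
   ({0, 3, 4}, 5, [(0, 3), (1, 4)]),
   ({0, 3, 5}, 7, [(1, 2), (4, 5)]),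
   ({0, 3, 6}, 7, [(1, 2), (4, 6), (5, 4)]),
   ({0, 3, 7}, 7, [(1, 2), (4, 7), (5, 4)]),
   ({0, 4, 5}, 6, [(0, 4), (1, 5), (2, 6), (3, 0), (3, 2), (1, 3)]),
   ({0, 4, 6}, 6, [(0, 4), (1, 6), (2, 5), (3, 0), (3, 2)]),
   ({0, 4, 7}, 7, [(1, 2), (3, 4), (3, 7), (5, 3)]),
   ({0, 5, 6}, 11, [(0, 5), (1, 6), (2, 4), (3, 0)]),
   ({0, 5, 7}, 13, [(1, 2), (3, 5), (4, 7), (3, 4), (6, 3)]),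
   ({0, 6, 7}, 13, [(1, 2), (3, 6), (4, 7), (5, 4)]),
   ({0, 7, 8}, 30, [(0, 5), (1, 6), (2, 4), (0, 1)]),
   ({1, 2, 3}, 4, [(0, 2), (0, 3)]),
   ({1, 2, 4}, 4, [(0, 2), (0, 4), (3, 0)]),
   ({1, 2, 5}, 6, [(0, 2), (3, 5), (4, 3)]),
   ({1, 2, 6}, 6, [(0, 2), (3, 6), (4, 3), (5, 4)]),
   ({1, 2, 7}, 6, [(0, 2), (3, 7), (4, 3), (5, 4)]),
   ({1, 3, 4}, 5, [(0, 3), (1, 4), (0, 1)]),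
   ({1, 3, 5}, 7, [(0, 1), (0, 2), (4, 5)]),
   ({1, 3, 6}, 7, [(0, 1), (0, 2), (4, 6), (5, 4)]),
   ({1, 3, 7}, 7, [(0, 1), (0, 2), (4, 7), (5, 4)]),
   ({1, 4, 5}, 6, [(0, 4), (1, 5), (2, 6), (3, 1), (0, 2)]),
   ({1, 4, 6}, 6, [(0, 4), (1, 6), (2, 5), (3, 1), (0, 2), (0, 3)]),
   ({1, 4, 7}, 7, [(0, 1), (0, 2), (3, 4), (3, 7), (5, 3)]),
   ({1, 5, 6}, 11, [(0, 5), (1, 6), (2, 4), (3, 1), (0, 3)]),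
   ({1, 5, 7}, 13, [(0, 1), (0, 2), (3, 5), (4, 7), (3, 4), (6, 3)]),
   ({1, 6, 7}, 13, [(0, 1), (0, 2), (3, 6), (4, 7), (5, 4)]),
   ({1, 7, 8}, 30, [(0, 5), (1, 6), (2, 4)]),
   ({2, 3, 5}, 5, [(0, 2), (1, 3), (0, 4), (1, 5), (0, 6)]),
   ({2, 3, 6}, 5, [(0, 2), (1, 3), (0, 4), (1, 6), (0, 5)]),
   ({2, 3, 7}, 6, [(0, 2), (1, 3), (0, 4), (1, 7), (5, 1)]),
   ({2, 4, 5}, 4, [(0, 4), (1, 2), (1, 5), (0, 6)]),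
   ({2, 4, 6}, 4, [(0, 4), (1, 2), (1, 6), (0, 5)]),
   ({2, 4, 7}, 6, [(0, 2), (1, 4), (0, 3), (0, 7), (1, 0), (5, 1)]),
   ({2, 5, 6}, 5, [(0, 5), (1, 6), (2, 4), (3, 2)]),
   ({2, 5, 7}, 7, [(0, 2), (1, 4), (0, 3), (0, 5), (1, 7), (0, 6)]),
   ({2, 6, 7}, 7, [(0, 2), (1, 4), (0, 3), (0, 6), (1, 7)]),
   ({2, 7, 8}, 15, [(0, 2), (1, 4), (0, 3), (5, 7), (6, 8)]),
   ({3, 4, 5}, 4, [(0, 4), (1, 3), (2, 5), (1, 2), (0, 6)]),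
   ({3, 4, 6}, 4, [(0, 4), (1, 3), (2, 6), (1, 2), (0, 5)]),
   ({3, 4, 7}, 6, [(0, 4), (1, 3), (1, 7), (0, 5), (0, 6)]),
   ({3, 5, 6}, 5, [(0, 5), (1, 6), (2, 4)]),
   ({3, 5, 7}, 7, [(0, 3), (1, 4), (0, 5), (1, 7), (0, 6)]),
   ({3, 6, 7}, 7, [(0, 3), (1, 4), (0, 6), (1, 7)]),
   ({3, 7, 8}, 38, [(0, 2), (1, 3), (0, 4), (1, 0), (5, 7), (6, 8)]),
   ({4, 5, 7}, 6, [(0, 4), (1, 5), (2, 6), (3, 7), (0, 2), (1, 3)]),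
   ({4, 6, 7}, 6, [(0, 4), (1, 6), (2, 5), (3, 7), (0, 2), (0, 3)]),
   ({4, 7, 8}, 15, [(0, 4), (1, 2), (1, 3), (1, 5), (0, 6), (1, 7), (0, 8), (1, 0)]),
   ({5, 6, 7}, 33, [(0, 5), (1, 6), (2, 4)]),
   ({5, 7, 8}, 30, [(5, 6)]),
   ({6, 7, 8}, 30, [])]

/-- table -/
def stL42 : List (Finset ℕ × ℕ × List (ℕ × ℕ)) :=
  [({0, 1}, 0, []),
   ({0, 2}, 0, [(1, 2)]),
   ({0, 3}, 2, [(1, 3), (2, 1)]),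
   ({0, 4}, 2, [(1, 4), (2, 1), (3, 2)]),
   ({0, 5}, 2, [(1, 5), (2, 1), (3, 2)]),
   ({0, 6}, 2, [(1, 6), (2, 1), (3, 2)]),
   ({0, 7}, 2, [(1, 7), (2, 1), (3, 2)]),
   ({0, 8}, 2, [(1, 8), (2, 1), (3, 2)]),
   ({0, 9}, 2, [(1, 9), (2, 1), (3, 2)]),
   ({1, 2}, 0, [(0, 1), (0, 2)]),
   ({1, 3}, 2, [(0, 1), (0, 3), (2, 0)]),
   ({1, 4}, 2, [(0, 1), (0, 4), (2, 0), (3, 2)]),
   ({1, 5}, 2, [(0, 1), (0, 5), (2, 0), (3, 2)]),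
   ({1, 6}, 2, [(0, 1), (0, 6), (2, 0), (3, 2)]),
   ({1, 7}, 2, [(0, 1), (0, 7), (2, 0), (3, 2)]),
   ({1, 8}, 2, [(0, 1), (0, 8), (2, 0), (3, 2)]),
   ({1, 9}, 2, [(0, 1), (0, 9), (2, 0), (3, 2)]),
   ({2, 3}, 0, [(0, 2), (1, 3), (0, 4)]),
   ({2, 4}, 0, [(0, 2), (1, 4), (0, 3)]),
   ({2, 5}, 2, [(0, 2), (1, 5), (3, 1)]),
   ({2, 6}, 2, [(0, 2), (1, 6), (3, 1)]),
   ({2, 7}, 2, [(0, 2), (1, 7), (3, 1)]),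
   ({2, 8}, 2, [(0, 2), (1, 8), (3, 1)]),
   ({2, 9}, 2, [(0, 2), (1, 9), (3, 1)]),
   ({3, 4}, 0, [(0, 3), (1, 4)]),
   ({3, 5}, 2, [(0, 3), (1, 5), (0, 4)]),
   ({3, 6}, 2, [(0, 3), (1, 6), (0, 4)]),
   ({3, 7}, 2, [(0, 3), (1, 7), (0, 4)]),
   ({3, 8}, 2, [(0, 3), (1, 8), (0, 4)]),
   ({3, 9}, 2, [(0, 3), (1, 9), (0, 4)]),
   ({4, 5}, 0, [(0, 4), (1, 5), (2, 6)]),
   ({4, 6}, 0, [(0, 4), (1, 6), (2, 5)]),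
   ({4, 7}, 2, [(0, 4), (1, 7)]),
   ({4, 8}, 2, [(0, 4), (1, 8)]),
   ({4, 9}, 2, [(0, 4), (1, 9)]),
   ({5, 6}, 0, [(0, 5), (1, 6), (2, 4)]),
   ({5, 7}, 2, [(0, 5), (1, 7), (2, 4), (3, 6)]),
   ({5, 8}, 2, [(0, 5), (1, 8), (2, 4), (3, 6)]),
   ({5, 9}, 2, [(0, 5), (1, 9), (2, 4), (3, 6)]),
   ({6, 7}, 0, [(0, 6), (1, 7), (2, 8)]),
   ({6, 8}, 0, [(0, 6), (1, 8), (2, 7)]),
   ({6, 9}, 2, [(0, 6), (1, 9), (2, 4), (3, 5)]),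
   ({7, 8}, 0, [(0, 7), (1, 8), (2, 6)]),
   ({7, 9}, 2, [(0, 7), (1, 9), (2, 6), (3, 8)]),
   ({8, 9}, 2, [(0, 8), (1, 9), (2, 6), (3, 7)])]

/-- table -/
def stL43 : List (Finset ℕ × ℕ × List (ℕ × ℕ)) :=
  [({0, 1, 3}, 5, []),
   ({0, 1, 4}, 5, [(3, 4)]),
   ({0, 1, 5}, 11, [(3, 5)]),
   ({0, 1, 6}, 11, [(3, 6), (5, 3)]),
   ({0, 1, 7}, 18, [(3, 7), (5, 3), (5, 8)]),
   ({0, 1, 8}, 18, [(3, 8), (5, 3)]),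
   ({0, 1, 9}, 22, [(3, 9), (5, 3), (7, 5), (8, 7)]),
   ({0, 2, 3}, 4, [(0, 2), (1, 0), (1, 3)]),
   ({0, 2, 4}, 4, [(0, 2), (1, 0), (1, 4), (3, 1)]),
   ({0, 2, 5}, 6, [(0, 2), (1, 0), (3, 5), (4, 3)]),
   ({0, 2, 6}, 6, [(0, 2), (1, 0), (3, 6), (4, 3), (5, 4)]),
   ({0, 2, 7}, 6, [(0, 2), (1, 0), (3, 7), (4, 3), (5, 4)]),
   ({0, 2, 8}, 6, [(0, 2), (1, 0), (3, 8), (4, 3), (5, 4)]),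
   ({0, 2, 9}, 6, [(0, 2), (1, 0), (3, 9), (4, 3), (5, 4)]),
   ({0, 3, 4}, 5, [(0, 3), (1, 4)]),
   ({0, 3, 5}, 7, [(1, 2), (4, 5)]),
   ({0, 3, 6}, 7, [(1, 2), (4, 6), (5, 4)]),
   ({0, 3, 7}, 7, [(1, 2), (4, 7), (5, 4)]),
   ({0, 3, 8}, 7, [(1, 2), (4, 8), (5, 4)]),
   ({0, 3, 9}, 7, [(1, 2), (4, 9), (5, 4)]),
   ({0, 4, 5}, 6, [(0, 4), (1, 5), (2, 6), (3, 0), (3, 2), (1, 3)]),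
   ({0, 4, 6}, 6, [(0, 4), (1, 6), (2, 5), (3, 0), (3, 2)]),
   ({0, 4, 7}, 7, [(1, 2), (3, 4), (3, 7), (5, 3)]),
   ({0, 4, 8}, 7, [(1, 2), (3, 4), (3, 8), (5, 3)]),
   ({0, 4, 9}, 7, [(1, 2), (3, 4), (3, 9), (5, 3)]),
   ({0, 5, 6}, 6, [(0, 6), (1, 5), (2, 4), (3, 0), (2, 7), (1, 8)]),
   ({0, 5, 7}, 7, [(0, 5), (1, 6), (2, 4), (3, 7), (2, 0), (2, 8)]),
   ({0, 5, 8}, 7, [(0, 5), (1, 6), (2, 4), (3, 8), (2, 0), (2, 7)]),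
   ({0, 5, 9}, 13, [(1, 2), (3, 5), (4, 9), (3, 4), (6, 3), (7, 6)]),
   ({0, 6, 7}, 6, [(0, 6), (1, 7), (2, 8), (3, 0)]),
   ({0, 6, 8}, 6, [(0, 6), (1, 8), (2, 7), (3, 0)]),
   ({0, 6, 9}, 13, [(1, 2), (3, 6), (4, 9), (5, 4), (7, 5)]),
   ({0, 7, 8}, 18, [(0, 7), (1, 8), (2, 6), (3, 0), (3, 1)]),
   ({0, 7, 9}, 23, [(1, 2), (3, 7), (4, 9), (5, 4), (6, 3)]),
   ({0, 8, 9}, 23, [(1, 2), (3, 8), (4, 9), (5, 4), (6, 3), (7, 6)]),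
   ({0, 9, 10}, 25, [(0, 2), (1, 4), (0, 3), (5, 6), (7, 9), (8, 10)]),
   ({1, 2, 3}, 4, [(0, 2), (0, 3)]),
   ({1, 2, 4}, 4, [(0, 2), (0, 4), (3, 0)]),
   ({1, 2, 5}, 6, [(0, 2), (3, 5), (4, 3)]),
   ({1, 2, 6}, 6, [(0, 2), (3, 6), (4, 3), (5, 4)]),
   ({1, 2, 7}, 6, [(0, 2), (3, 7), (4, 3), (5, 4)]),
   ({1, 2, 8}, 6, [(0, 2), (3, 8), (4, 3), (5, 4)]),
   ({1, 2, 9}, 6, [(0, 2), (3, 9), (4, 3), (5, 4)]),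
   ({1, 3, 4}, 5, [(0, 3), (1, 4), (0, 1)]),
   ({1, 3, 5}, 7, [(0, 1), (0, 2), (4, 5)]),
   ({1, 3, 6}, 7, [(0, 1), (0, 2), (4, 6), (5, 4)]),
   ({1, 3, 7}, 7, [(0, 1), (0, 2), (4, 7), (5, 4)]),
   ({1, 3, 8}, 7, [(0, 1), (0, 2), (4, 8), (5, 4)]),
   ({1, 3, 9}, 7, [(0, 1), (0, 2), (4, 9), (5, 4)]),
   ({1, 4, 5}, 6, [(0, 4), (1, 5), (2, 6), (3, 1), (0, 2)]),
   ({1, 4, 6}, 6, [(0, 4), (1, 6), (2, 5), (3, 1), (0, 2), (0, 3)]),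
   ({1, 4, 7}, 7, [(0, 1), (0, 2), (3, 4), (3, 7), (5, 3)]),
   ({1, 4, 8}, 7, [(0, 1), (0, 2), (3, 4), (3, 8), (5, 3)]),
   ({1, 4, 9}, 7, [(0, 1), (0, 2), (3, 4), (3, 9), (5, 3)]),
   ({1, 5, 6}, 6, [(0, 6), (1, 5), (2, 4), (3, 1), (2, 7), (3, 8)]),
   ({1, 5, 7}, 7, [(0, 5), (1, 6), (2, 4), (3, 7), (2, 1), (0, 8)]),
   ({1, 5, 8}, 7, [(0, 5), (1, 6), (2, 4), (3, 8), (2, 1), (0, 7)]),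
   ({1, 5, 9}, 13, [(0, 1), (0, 2), (3, 5), (4, 9), (3, 4), (6, 3), (7, 6)]),
   ({1, 6, 7}, 6, [(0, 6), (1, 7), (2, 8), (3, 1)]),
   ({1, 6, 8}, 6, [(0, 6), (1, 8), (2, 7), (3, 1)]),
   ({1, 6, 9}, 13, [(0, 1), (0, 2), (3, 6), (4, 9), (5, 4), (7, 5)]),
   ({1, 7, 8}, 18, [(0, 7), (1, 8), (2, 6), (3, 1)]),
   ({1, 7, 9}, 23, [(0, 1), (0, 2), (3, 7), (4, 9), (5, 4), (6, 3)]),
   ({1, 8, 9}, 23, [(0, 1), (0, 2), (3, 8), (4, 9), (5, 4), (6, 3), (7, 6)]),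
   ({1, 9, 10}, 25, [(0, 2), (1, 4), (0, 3), (0, 1), (5, 6), (7, 9), (8, 10)]),
   ({2, 3, 5}, 5, [(0, 2), (1, 3), (0, 4), (1, 5), (0, 6)]),
   ({2, 3, 6}, 5, [(0, 2), (1, 3), (0, 4), (1, 6), (0, 5)]),
   ({2, 3, 7}, 6, [(0, 2), (1, 3), (0, 4), (1, 7), (5, 1)]),
   ({2, 3, 8}, 6, [(0, 2), (1, 3), (0, 4), (1, 8), (5, 1)]),
   ({2, 3, 9}, 6, [(0, 2), (1, 3), (0, 4), (1, 9), (5, 1)]),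
   ({2, 4, 5}, 4, [(0, 4), (1, 2), (1, 5), (0, 6)]),
   ({2, 4, 6}, 4, [(0, 4), (1, 2), (1, 6), (0, 5)]),
   ({2, 4, 7}, 6, [(0, 2), (1, 4), (0, 3), (0, 7), (1, 0), (5, 1)]),
   ({2, 4, 8}, 6, [(0, 2), (1, 4), (0, 3), (0, 8), (1, 0), (5, 1)]),
   ({2, 4, 9}, 6, [(0, 2), (1, 4), (0, 3), (0, 9), (1, 0), (5, 1)]),
   ({2, 5, 6}, 5, [(0, 5), (1, 6), (2, 4), (3, 2)]),
   ({2, 5, 7}, 7, [(0, 2), (1, 4), (0, 3), (0, 5), (1, 7), (0, 6)]),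
   ({2, 5, 8}, 7, [(0, 2), (1, 4), (0, 3), (0, 5), (1, 8), (0, 6)]),
   ({2, 5, 9}, 7, [(0, 2), (1, 4), (0, 3), (0, 5), (1, 9), (0, 6)]),
   ({2, 6, 7}, 6, [(0, 6), (1, 7), (2, 8), (3, 2)]),
   ({2, 6, 8}, 6, [(0, 6), (1, 8), (2, 7), (3, 2)]),
   ({2, 6, 9}, 7, [(0, 2), (1, 4), (0, 3), (0, 6), (1, 9)]),
   ({2, 7, 8}, 11, [(0, 7), (1, 8), (2, 6), (3, 2)]),
   ({2, 7, 9}, 13, [(0, 2), (1, 4), (0, 3), (0, 7), (1, 9), (5, 6), (0, 8)]),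
   ({2, 8, 9}, 13, [(0, 2), (1, 4), (0, 3), (0, 8), (1, 9), (5, 6)]),
   ({2, 9, 10}, 15, [(0, 2), (1, 4), (0, 3), (5, 9), (6, 10), (7, 5), (8, 6)]),
   ({3, 4, 5}, 4, [(0, 4), (1, 3), (2, 5), (1, 2), (0, 6)]),
   ({3, 4, 6}, 4, [(0, 4), (1, 3), (2, 6), (1, 2), (0, 5)]),
   ({3, 4, 7}, 6, [(0, 4), (1, 3), (1, 7), (0, 5), (0, 6)]),
   ({3, 4, 8}, 6, [(0, 4), (1, 3), (1, 8), (0, 5), (0, 6)]),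
   ({3, 4, 9}, 6, [(0, 4), (1, 3), (1, 9), (0, 5), (0, 6)]),
   ({3, 5, 6}, 5, [(0, 5), (1, 6), (2, 4)]),
   ({3, 5, 7}, 7, [(0, 3), (1, 4), (0, 5), (1, 7), (0, 6)]),
   ({3, 5, 8}, 7, [(0, 3), (1, 4), (0, 5), (1, 8), (0, 6)]),
   ({3, 5, 9}, 7, [(0, 3), (1, 4), (0, 5), (1, 9), (0, 6)]),
   ({3, 6, 7}, 6, [(0, 6), (1, 7), (2, 8)]),
   ({3, 6, 8}, 6, [(0, 6), (1, 8), (2, 7)]),
   ({3, 6, 9}, 7, [(0, 3), (1, 4), (0, 6), (1, 9)]),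
   ({3, 7, 8}, 11, [(0, 7), (1, 8), (2, 6)]),
   ({3, 7, 9}, 13, [(0, 3), (1, 4), (0, 7), (1, 9), (5, 6), (0, 8)]),
   ({3, 8, 9}, 13, [(0, 3), (1, 4), (0, 8), (1, 9), (5, 6)]),
   ({3, 9, 10}, 24, [(0, 4), (1, 2), (1, 3), (1, 6), (0, 5), (7, 9), (8, 10)]),
   ({4, 5, 7}, 5, [(0, 4), (1, 5), (2, 6), (3, 7), (0, 8)]),
   ({4, 5, 8}, 5, [(0, 4), (1, 5), (2, 6), (3, 8), (0, 7)]),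
   ({4, 5, 9}, 6, [(0, 4), (1, 5), (2, 6), (3, 9), (0, 2), (1, 3)]),
   ({4, 6, 7}, 4, [(0, 6), (1, 4), (2, 7), (3, 5), (1, 8)]),
   ({4, 6, 8}, 4, [(0, 6), (1, 4), (2, 8), (3, 5), (1, 7)]),
   ({4, 6, 9}, 6, [(0, 4), (1, 6), (2, 5), (3, 9), (0, 2), (0, 3)]),
   ({4, 7, 8}, 5, [(0, 7), (1, 8), (2, 6), (3, 4), (3, 5)]),
   ({4, 7, 9}, 7, [(0, 4), (1, 6), (2, 5), (3, 7), (0, 9), (2, 8)]),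
   ({4, 8, 9}, 7, [(0, 4), (1, 6), (2, 5), (3, 8), (0, 9), (2, 7)]),
   ({4, 9, 10}, 15, [(0, 4), (1, 2), (1, 3), (1, 5), (0, 6), (1, 9), (0, 10), (7, 0), (8, 1)]),
   ({5, 6, 7}, 4, [(0, 6), (1, 5), (2, 7), (3, 4), (3, 8)]),
   ({5, 6, 8}, 4, [(0, 6), (1, 5), (2, 8), (3, 4), (3, 7)]),
   ({5, 6, 9}, 6, [(0, 6), (1, 5), (2, 4), (3, 9), (2, 7), (1, 8)]),
   ({5, 7, 8}, 5, [(0, 7), (1, 8), (2, 6), (3, 5)]),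
   ({5, 7, 9}, 7, [(0, 5), (1, 6), (2, 4), (3, 7), (2, 9), (0, 8)]),
   ({5, 8, 9}, 7, [(0, 5), (1, 6), (2, 4), (3, 8), (2, 9), (0, 7)]),
   ({5, 9, 10}, 24, [(0, 4), (1, 5), (2, 6), (3, 2), (0, 3), (1, 9), (0, 10), (1, 0)]),
   ({6, 7, 9}, 6, [(0, 6), (1, 7), (2, 8), (3, 9)]),
   ({6, 8, 9}, 6, [(0, 6), (1, 8), (2, 7), (3, 9)]),
   ({6, 9, 10}, 15, [(0, 6), (1, 4), (2, 5), (3, 7), (1, 8), (2, 9), (0, 10), (3, 2), (1, 3)]),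
   ({7, 8, 9}, 22, [(0, 7), (1, 8), (2, 6), (3, 9), (0, 3), (1, 0)]),
   ({7, 9, 10}, 25, [(0, 4), (1, 6), (2, 5), (3, 2), (0, 3), (0, 7), (1, 8)]),
   ({8, 9, 10}, 25, [(0, 4), (1, 6), (2, 5), (3, 2), (0, 3), (0, 8), (1, 7), (1, 0)])]

/-- table -/
def stF12 : List (Finset ℕ × ℕ × List (ℕ × ℕ)) :=
  [({0, 1}, 0, []),
   ({0, 2}, 0, [(1, 2)]),
   ({0, 3}, 0, [(1, 3), (2, 1)]),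
   ({0, 4}, 2, [(1, 4), (2, 1), (3, 2)]),
   ({1, 2}, 0, [(0, 1), (0, 2)]),
   ({1, 3}, 0, [(0, 1), (0, 3), (2, 0)]),
   ({1, 4}, 2, [(0, 1), (0, 4), (2, 0), (3, 2)]),
   ({2, 3}, 2, [(0, 2), (1, 3)]),
   ({2, 4}, 2, [(0, 2), (1, 4), (3, 1)]),
   ({3, 4}, 2, [(0, 3), (1, 4), (2, 0), (2, 1)])]

/-- table -/
def stF13 : List (Finset ℕ × ℕ × List (ℕ × ℕ)) :=
  [({0, 1, 4}, 34, []),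
   ({0, 2, 3}, 3, []),
   ({0, 2, 4}, 4, []),
   ({0, 3, 4}, 4, [(2, 3)]),
   ({0, 4, 5}, 6, []),
   ({1, 2, 3}, 3, [(0, 1)]),
   ({1, 2, 4}, 4, [(0, 1)]),
   ({1, 3, 4}, 4, [(0, 1), (2, 3)]),
   ({1, 4, 5}, 6, [(0, 1)]),
   ({2, 3, 4}, 5, []),
   ({2, 4, 5}, 32, [(3, 4), (3, 5)]),
   ({3, 4, 5}, 32, [(2, 3), (2, 4), (2, 5)])]

/-- table -/
def stF22 : List (Finset ℕ × ℕ × List (ℕ × ℕ)) :=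
  [({0, 1}, 0, []),
   ({0, 2}, 0, [(1, 2)]),
   ({0, 3}, 2, [(1, 3), (2, 1)]),
   ({0, 4}, 2, [(1, 4), (2, 1), (3, 2)]),
   ({0, 5}, 0, [(1, 5), (2, 1)]),
   ({0, 6}, 2, [(1, 6), (2, 1), (3, 2)]),
   ({1, 2}, 0, [(0, 1), (0, 2)]),
   ({1, 3}, 2, [(0, 1), (0, 3), (2, 0)]),
   ({1, 4}, 2, [(0, 1), (0, 4), (2, 0), (3, 2)]),
   ({1, 5}, 0, [(0, 1), (0, 5), (2, 0)]),
   ({1, 6}, 2, [(0, 1), (0, 6), (2, 0), (3, 2)]),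
   ({2, 3}, 0, [(0, 2), (1, 3), (0, 4)]),
   ({2, 4}, 0, [(0, 2), (1, 4), (0, 3)]),
   ({2, 5}, 2, [(0, 2), (1, 5), (3, 1)]),
   ({2, 6}, 2, [(0, 2), (1, 6), (3, 1)]),
   ({3, 4}, 0, [(0, 3), (1, 4)]),
   ({3, 5}, 2, [(0, 3), (1, 5), (0, 4)]),
   ({3, 6}, 2, [(0, 3), (1, 6), (0, 4)]),
   ({4, 5}, 2, [(0, 4), (1, 5)]),
   ({4, 6}, 2, [(0, 4), (1, 6)]),
   ({5, 6}, 2, [(0, 5), (1, 6), (2, 0), (3, 1)])]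

/-- table -/
def stF23 : List (Finset ℕ × ℕ × List (ℕ × ℕ)) :=
  [({0, 1, 3}, 5, []),
   ({0, 1, 4}, 5, [(3, 4)]),
   ({0, 1, 6}, 10, [(3, 5), (4, 6)]),
   ({0, 2, 3}, 4, [(3, 5), (4, 3)]),
   ({0, 2, 4}, 4, [(3, 5)]),
   ({0, 2, 5}, 3, [(3, 5)]),
   ({0, 2, 6}, 4, [(3, 5), (4, 6)]),
   ({0, 3, 4}, 5, [(0, 3), (1, 4)]),
   ({0, 3, 5}, 4, [(2, 5), (3, 2), (4, 3)]),
   ({0, 3, 6}, 6, [(3, 5), (4, 3), (4, 6)]),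
   ({0, 4, 5}, 4, [(2, 5), (3, 2)]),
   ({0, 4, 6}, 6, [(3, 5), (3, 6)]),
   ({0, 5, 6}, 4, [(2, 5), (3, 2), (4, 6)]),
   ({0, 6, 7}, 6, [(3, 5), (4, 6), (3, 7)]),
   ({1, 2, 3}, 4, [(0, 1), (3, 5), (4, 3)]),
   ({1, 2, 4}, 4, [(0, 1), (3, 5)]),
   ({1, 2, 5}, 3, [(0, 1), (3, 5)]),
   ({1, 2, 6}, 4, [(0, 1), (3, 5), (4, 6)]),
   ({1, 3, 4}, 5, [(0, 3), (1, 4), (0, 1)]),
   ({1, 3, 5}, 4, [(0, 1), (2, 5), (3, 2), (4, 3)]),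
   ({1, 3, 6}, 6, [(0, 1), (3, 5), (4, 3), (4, 6)]),
   ({1, 4, 5}, 4, [(0, 1), (2, 5), (3, 2)]),
   ({1, 4, 6}, 6, [(0, 1), (3, 5), (3, 6)]),
   ({1, 5, 6}, 4, [(0, 1), (2, 5), (3, 2), (4, 6)]),
   ({1, 6, 7}, 6, [(0, 1), (3, 5), (4, 6), (3, 7)]),
   ({2, 3, 5}, 5, [(3, 5), (4, 3)]),
   ({2, 3, 6}, 6, [(0, 2), (1, 3), (0, 4), (1, 6), (5, 1)]),
   ({2, 4, 5}, 5, [(3, 5)]),
   ({2, 4, 6}, 6, [(0, 2), (1, 4), (0, 3), (0, 6), (1, 0), (5, 1)]),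
   ({2, 5, 6}, 5, [(3, 5), (4, 6)]),
   ({2, 6, 7}, 12, [(3, 5), (4, 3)]),
   ({3, 4, 5}, 9, [(3, 5), (4, 3)]),
   ({3, 4, 6}, 36, [(3, 5), (4, 3)]),
   ({3, 5, 6}, 11, [(3, 5), (4, 3)]),
   ({3, 6, 7}, 33, [(3, 4), (5, 6), (5, 7)]),
   ({4, 5, 6}, 11, [(3, 5)]),
   ({4, 6, 7}, 33, [(5, 6), (5, 7)]),
   ({5, 6, 7}, 37, [(3, 5), (4, 3)])]

/-- table -/
def stF32 : List (Finset ℕ × ℕ × List (ℕ × ℕ)) :=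
  [({0, 1}, 0, []),
   ({0, 2}, 0, [(1, 2)]),
   ({0, 3}, 2, [(1, 3), (2, 1)]),
   ({0, 4}, 2, [(1, 4), (2, 1), (3, 2)]),
   ({0, 5}, 2, [(1, 5), (2, 1), (3, 2)]),
   ({0, 6}, 2, [(1, 6), (2, 1), (3, 2)]),
   ({0, 7}, 0, [(1, 7), (2, 1)]),
   ({0, 8}, 2, [(1, 8), (2, 1), (3, 2)]),
   ({1, 2}, 0, [(0, 1), (0, 2)]),
   ({1, 3}, 2, [(0, 1), (0, 3), (2, 0)]),
   ({1, 4}, 2, [(0, 1), (0, 4), (2, 0), (3, 2)]),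
   ({1, 5}, 2, [(0, 1), (0, 5), (2, 0), (3, 2)]),
   ({1, 6}, 2, [(0, 1), (0, 6), (2, 0), (3, 2)]),
   ({1, 7}, 0, [(0, 1), (0, 7), (2, 0)]),
   ({1, 8}, 2, [(0, 1), (0, 8), (2, 0), (3, 2)]),
   ({2, 3}, 0, [(0, 2), (1, 3), (0, 4)]),
   ({2, 4}, 0, [(0, 2), (1, 4), (0, 3)]),
   ({2, 5}, 2, [(0, 2), (1, 5), (3, 1)]),
   ({2, 6}, 2, [(0, 2), (1, 6), (3, 1)]),
   ({2, 7}, 2, [(0, 2), (1, 7), (3, 1)]),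
   ({2, 8}, 2, [(0, 2), (1, 8), (3, 1)]),
   ({3, 4}, 0, [(0, 3), (1, 4)]),
   ({3, 5}, 2, [(0, 3), (1, 5), (0, 4)]),
   ({3, 6}, 2, [(0, 3), (1, 6), (0, 4)]),
   ({3, 7}, 2, [(0, 3), (1, 7), (0, 4)]),
   ({3, 8}, 2, [(0, 3), (1, 8), (0, 4)]),
   ({4, 5}, 0, [(0, 4), (1, 5), (2, 6)]),
   ({4, 6}, 0, [(0, 4), (1, 6), (2, 5)]),
   ({4, 7}, 2, [(0, 4), (1, 7)]),
   ({4, 8}, 2, [(0, 4), (1, 8)]),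
   ({5, 6}, 0, [(0, 5), (1, 6), (2, 4)]),
   ({5, 7}, 2, [(0, 5), (1, 7), (2, 4), (3, 6)]),
   ({5, 8}, 2, [(0, 5), (1, 8), (2, 4), (3, 6)]),
   ({6, 7}, 2, [(0, 6), (1, 7), (2, 4), (3, 5)]),
   ({6, 8}, 2, [(0, 6), (1, 8), (2, 4), (3, 5)]),
   ({7, 8}, 2, [(0, 7), (1, 8), (2, 0), (3, 1)])]

/-- table -/
def stF33 : List (Finset ℕ × ℕ × List (ℕ × ℕ)) :=
  [({0, 1, 3}, 5, []),
   ({0, 1, 4}, 5, [(3, 4)]),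
   ({0, 1, 5}, 10, [(3, 7), (4, 5), (4, 3), (6, 4)]),
   ({0, 1, 6}, 10, [(3, 7), (4, 6), (5, 3)]),
   ({0, 1, 8}, 10, [(3, 7), (4, 8), (5, 3), (6, 4)]),
   ({0, 2, 3}, 4, [(3, 7), (4, 3)]),
   ({0, 2, 4}, 4, [(3, 7)]),
   ({0, 2, 5}, 4, [(3, 7), (4, 5)]),
   ({0, 2, 6}, 4, [(3, 7), (4, 6)]),
   ({0, 2, 7}, 3, [(3, 7)]),
   ({0, 2, 8}, 4, [(3, 7), (4, 8)]),
   ({0, 3, 4}, 5, [(0, 3), (1, 4)]),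
   ({0, 3, 5}, 6, [(3, 7), (4, 3)]),
   ({0, 3, 6}, 6, [(3, 7), (4, 3), (5, 6)]),
   ({0, 3, 7}, 4, [(2, 7), (3, 2), (4, 3)]),
   ({0, 3, 8}, 6, [(3, 7), (4, 3), (5, 8)]),
   ({0, 4, 5}, 6, [(3, 7)]),
   ({0, 4, 6}, 6, [(3, 7), (5, 6)]),
   ({0, 4, 7}, 4, [(2, 7), (3, 2)]),
   ({0, 4, 8}, 6, [(3, 7), (5, 8)]),
   ({0, 5, 6}, 6, [(3, 7), (4, 5), (4, 6)]),
   ({0, 5, 7}, 4, [(2, 7), (3, 2), (4, 5)]),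
   ({0, 5, 8}, 6, [(3, 7), (4, 5), (4, 8)]),
   ({0, 6, 7}, 4, [(2, 7), (3, 2), (4, 6)]),
   ({0, 6, 8}, 6, [(3, 7), (4, 6), (5, 8)]),
   ({0, 7, 8}, 4, [(2, 7), (3, 2), (4, 8)]),
   ({0, 8, 9}, 6, [(3, 7), (4, 8), (5, 9)]),
   ({1, 2, 3}, 4, [(0, 1), (3, 7), (4, 3)]),
   ({1, 2, 4}, 4, [(0, 1), (3, 7)]),
   ({1, 2, 5}, 4, [(0, 1), (3, 7), (4, 5)]),
   ({1, 2, 6}, 4, [(0, 1), (3, 7), (4, 6)]),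
   ({1, 2, 7}, 3, [(0, 1), (3, 7)]),
   ({1, 2, 8}, 4, [(0, 1), (3, 7), (4, 8)]),
   ({1, 3, 4}, 5, [(0, 3), (1, 4), (0, 1)]),
   ({1, 3, 5}, 6, [(0, 1), (3, 7), (4, 3)]),
   ({1, 3, 6}, 6, [(0, 1), (3, 7), (4, 3), (5, 6)]),
   ({1, 3, 7}, 4, [(0, 1), (2, 7), (3, 2), (4, 3)]),
   ({1, 3, 8}, 6, [(0, 1), (3, 7), (4, 3), (5, 8)]),
   ({1, 4, 5}, 6, [(0, 1), (3, 7)]),
   ({1, 4, 6}, 6, [(0, 1), (3, 7), (5, 6)]),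
   ({1, 4, 7}, 4, [(0, 1), (2, 7), (3, 2)]),
   ({1, 4, 8}, 6, [(0, 1), (3, 7), (5, 8)]),
   ({1, 5, 6}, 6, [(0, 1), (3, 7), (4, 5), (4, 6)]),
   ({1, 5, 7}, 4, [(0, 1), (2, 7), (3, 2), (4, 5)]),
   ({1, 5, 8}, 6, [(0, 1), (3, 7), (4, 5), (4, 8)]),
   ({1, 6, 7}, 4, [(0, 1), (2, 7), (3, 2), (4, 6)]),
   ({1, 6, 8}, 6, [(0, 1), (3, 7), (4, 6), (5, 8)]),
   ({1, 7, 8}, 4, [(0, 1), (2, 7), (3, 2), (4, 8)]),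
   ({1, 8, 9}, 6, [(0, 1), (3, 7), (4, 8), (5, 9)]),
   ({2, 3, 5}, 5, [(0, 2), (1, 3), (0, 4), (1, 5), (0, 6)]),
   ({2, 3, 6}, 5, [(0, 2), (1, 3), (0, 4), (1, 6), (0, 5)]),
   ({2, 3, 7}, 5, [(3, 7), (4, 3)]),
   ({2, 3, 8}, 6, [(0, 2), (1, 3), (0, 4), (1, 8), (5, 1)]),
   ({2, 4, 5}, 4, [(0, 4), (1, 2), (1, 5), (0, 6)]),
   ({2, 4, 6}, 4, [(0, 4), (1, 2), (1, 6), (0, 5)]),
   ({2, 4, 7}, 5, [(3, 7)]),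
   ({2, 4, 8}, 6, [(0, 2), (1, 4), (0, 3), (0, 8), (1, 0), (5, 1)]),
   ({2, 5, 6}, 5, [(0, 5), (1, 6), (2, 4), (3, 2)]),
   ({2, 5, 7}, 5, [(3, 7), (4, 5)]),
   ({2, 5, 8}, 7, [(0, 2), (1, 4), (0, 3), (0, 5), (1, 8), (0, 6)]),
   ({2, 6, 7}, 5, [(3, 7), (4, 6)]),
   ({2, 6, 8}, 7, [(0, 2), (1, 4), (0, 3), (0, 6), (1, 8)]),
   ({2, 7, 8}, 5, [(3, 7), (4, 8)]),
   ({2, 8, 9}, 12, [(3, 7), (4, 3), (5, 4), (6, 8), (5, 9)]),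
   ({3, 4, 5}, 4, [(0, 4), (1, 3), (2, 5), (1, 2), (0, 6)]),
   ({3, 4, 6}, 4, [(0, 4), (1, 3), (2, 6), (1, 2), (0, 5)]),
   ({3, 4, 7}, 6, [(0, 4), (1, 3), (1, 7), (0, 5), (0, 6)]),
   ({3, 4, 8}, 6, [(0, 4), (1, 3), (1, 8), (0, 5), (0, 6)]),
   ({3, 5, 6}, 5, [(0, 5), (1, 6), (2, 4)]),
   ({3, 5, 7}, 7, [(0, 3), (1, 4), (0, 5), (1, 7), (0, 6)]),
   ({3, 5, 8}, 7, [(0, 3), (1, 4), (0, 5), (1, 8), (0, 6)]),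
   ({3, 6, 7}, 7, [(0, 3), (1, 4), (0, 6), (1, 7)]),
   ({3, 6, 8}, 7, [(0, 3), (1, 4), (0, 6), (1, 8)]),
   ({3, 7, 8}, 11, [(3, 7), (4, 3), (5, 4), (6, 8)]),
   ({3, 8, 9}, 21, [(3, 7), (4, 3), (5, 4), (6, 8), (5, 9), (6, 5)]),
   ({4, 5, 7}, 6, [(0, 4), (1, 5), (2, 6), (3, 7), (0, 2), (1, 3)]),
   ({4, 5, 8}, 6, [(0, 4), (1, 5), (2, 6), (3, 8), (0, 2), (1, 3)]),
   ({4, 6, 7}, 6, [(0, 4), (1, 6), (2, 5), (3, 7), (0, 2), (0, 3)]),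
   ({4, 6, 8}, 6, [(0, 4), (1, 6), (2, 5), (3, 8), (0, 2), (0, 3)]),
   ({4, 7, 8}, 11, [(3, 7), (5, 3), (6, 8)]),
   ({4, 8, 9}, 15, [(0, 4), (1, 2), (1, 3), (1, 5), (0, 6), (1, 8), (0, 9), (7, 0)]),
   ({5, 6, 7}, 16, [(2, 7), (3, 2), (4, 5), (4, 6)]),
   ({5, 6, 8}, 19, [(3, 7), (5, 3), (6, 5)]),
   ({5, 7, 8}, 18, [(3, 7), (5, 3), (6, 5), (6, 8)]),
   ({5, 8, 9}, 22, [(3, 7), (5, 3), (6, 5)]),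
   ({6, 7, 8}, 18, [(3, 7), (5, 3), (5, 8)]),
   ({6, 8, 9}, 22, [(3, 7), (5, 3)]),
   ({7, 8, 9}, 20, [(3, 7), (5, 3), (6, 8), (5, 9), (6, 5)])]

/-- table -/
def stB32 : List (Finset ℕ × ℕ × List (ℕ × ℕ)) :=
  [({0, 1}, 0, []),
   ({0, 2}, 0, [(1, 2)]),
   ({0, 3}, 0, [(1, 3), (2, 1)]),
   ({0, 4}, 0, [(1, 4), (2, 1)]),
   ({0, 5}, 2, [(1, 5), (2, 1), (3, 2)]),
   ({1, 2}, 0, [(0, 1), (0, 2)]),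
   ({1, 3}, 0, [(0, 1), (0, 3), (2, 0)]),
   ({1, 4}, 0, [(0, 1), (0, 4), (2, 0)]),
   ({1, 5}, 2, [(0, 1), (0, 5), (2, 0), (3, 2)]),
   ({2, 3}, 2, [(0, 2), (1, 3)]),
   ({2, 4}, 2, [(0, 2), (1, 4), (3, 1)]),
   ({2, 5}, 2, [(0, 2), (1, 5), (3, 1)]),
   ({3, 4}, 2, [(0, 3), (1, 4), (2, 0), (2, 1)]),
   ({3, 5}, 2, [(0, 3), (1, 5), (2, 0), (2, 1)]),
   ({4, 5}, 2, [(0, 4), (1, 5), (2, 0), (3, 1)])]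

/-- table -/
def stB33 : List (Finset ℕ × ℕ × List (ℕ × ℕ)) :=
  [({0, 1, 5}, 8, []),
   ({0, 2, 3}, 3, []),
   ({0, 2, 4}, 3, [(3, 4)]),
   ({0, 2, 5}, 4, [(4, 5)]),
   ({0, 3, 4}, 3, [(2, 3), (2, 4)]),
   ({0, 3, 5}, 4, [(2, 3), (4, 5)]),
   ({0, 4, 5}, 4, [(2, 4), (3, 2), (3, 5)]),
   ({0, 5, 6}, 6, [(4, 5), (4, 6)]),
   ({1, 2, 3}, 3, [(0, 1)]),
   ({1, 2, 4}, 3, [(0, 1), (3, 4)]),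
   ({1, 2, 5}, 4, [(0, 1), (4, 5)]),
   ({1, 3, 4}, 3, [(0, 1), (2, 3), (2, 4)]),
   ({1, 3, 5}, 4, [(0, 1), (2, 3), (4, 5)]),
   ({1, 4, 5}, 4, [(0, 1), (2, 4), (3, 2), (3, 5)]),
   ({1, 5, 6}, 6, [(0, 1), (4, 5), (4, 6)]),
   ({2, 3, 4}, 5, []),
   ({2, 3, 5}, 5, [(4, 5)]),
   ({2, 4, 5}, 5, [(3, 4), (3, 5)]),
   ({2, 5, 6}, 10, []),
   ({3, 4, 5}, 5, [(2, 3), (2, 4), (2, 5)]),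
   ({3, 5, 6}, 10, [(2, 3)]),
   ({4, 5, 6}, 10, [(2, 4), (3, 2)])]

/-- table -/
def stS32 : List (Finset ℕ × ℕ × List (ℕ × ℕ)) :=
  [({0, 1}, 0, []),
   ({0, 2}, 0, [(1, 2)]),
   ({0, 3}, 0, [(1, 3), (2, 4)]),
   ({0, 4}, 0, [(1, 4), (2, 3)]),
   ({0, 5}, 0, [(1, 5), (2, 6)]),
   ({0, 6}, 0, [(1, 6), (2, 5)]),
   ({0, 7}, 2, [(1, 7), (2, 1), (3, 2)]),
   ({1, 2}, 0, [(0, 1), (0, 2)]),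
   ({1, 3}, 2, [(0, 1), (0, 3), (2, 0)]),
   ({1, 4}, 2, [(0, 1), (0, 4), (2, 0), (3, 2)]),
   ({1, 5}, 2, [(0, 1), (0, 5), (2, 0), (3, 2)]),
   ({1, 6}, 2, [(0, 1), (0, 6), (2, 0), (3, 2)]),
   ({1, 7}, 2, [(0, 1), (0, 7), (2, 0), (3, 2)]),
   ({2, 3}, 2, [(0, 2), (1, 3)]),
   ({2, 4}, 2, [(0, 2), (1, 4), (3, 1)]),
   ({2, 5}, 2, [(0, 2), (1, 5), (3, 1)]),
   ({2, 6}, 2, [(0, 2), (1, 6), (3, 1)]),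
   ({2, 7}, 2, [(0, 2), (1, 7), (3, 1)]),
   ({3, 4}, 0, [(0, 3), (1, 4), (2, 0)]),
   ({3, 5}, 2, [(0, 3), (1, 5), (2, 0), (2, 4)]),
   ({3, 6}, 2, [(0, 3), (1, 6), (2, 0), (2, 4)]),
   ({3, 7}, 2, [(0, 3), (1, 7), (2, 0), (2, 4)]),
   ({4, 5}, 2, [(0, 4), (1, 5), (2, 0)]),
   ({4, 6}, 2, [(0, 4), (1, 6), (2, 0)]),
   ({4, 7}, 2, [(0, 4), (1, 7), (2, 0)]),
   ({5, 6}, 0, [(0, 5), (1, 6), (2, 0)]),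
   ({5, 7}, 2, [(0, 5), (1, 7), (2, 0), (3, 6)]),
   ({6, 7}, 2, [(0, 6), (1, 7), (2, 0), (3, 5)])]

/-- table -/
def stS33 : List (Finset ℕ × ℕ × List (ℕ × ℕ)) :=
  [({0, 1, 3}, 4, [(2, 3)]),
   ({0, 1, 4}, 4, [(2, 4), (3, 2)]),
   ({0, 1, 5}, 4, [(2, 5), (3, 2), (4, 6)]),
   ({0, 1, 6}, 4, [(2, 6), (3, 2), (4, 5)]),
   ({0, 1, 7}, 6, [(3, 7), (4, 3), (5, 4)]),
   ({0, 2, 3}, 4, [(1, 2), (1, 3)]),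
   ({0, 2, 4}, 4, [(1, 2), (1, 4), (3, 1)]),
   ({0, 2, 5}, 4, [(1, 2), (1, 5), (3, 1), (4, 6)]),
   ({0, 2, 6}, 4, [(1, 2), (1, 6), (3, 1), (4, 5)]),
   ({0, 2, 7}, 6, [(1, 2), (3, 7), (4, 3), (5, 4)]),
   ({0, 3, 5}, 4, [(1, 3), (2, 5), (1, 4), (1, 6)]),
   ({0, 3, 6}, 4, [(1, 3), (2, 6), (1, 4), (1, 5)]),
   ({0, 3, 7}, 6, [(1, 3), (2, 4), (1, 7), (2, 1), (5, 2)]),
   ({0, 4, 5}, 4, [(1, 4), (2, 5), (1, 6)]),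
   ({0, 4, 6}, 4, [(1, 4), (2, 6), (1, 5)]),
   ({0, 4, 7}, 6, [(1, 4), (2, 3), (2, 7), (5, 2)]),
   ({0, 5, 7}, 6, [(1, 5), (2, 6), (3, 7), (4, 1), (4, 2)]),
   ({0, 6, 7}, 6, [(1, 6), (2, 5), (3, 7), (4, 1)]),
   ({0, 7, 8}, 14, []),
   ({1, 2, 3}, 5, [(0, 1), (0, 2)]),
   ({1, 2, 4}, 5, [(0, 1), (0, 2), (3, 4)]),
   ({1, 2, 5}, 5, [(0, 1), (0, 2), (3, 5), (4, 6)]),
   ({1, 2, 6}, 5, [(0, 1), (0, 2), (3, 6), (4, 5)]),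
   ({1, 2, 7}, 12, [(0, 1), (0, 2), (3, 7), (4, 3), (5, 4), (6, 5)]),
   ({1, 3, 4}, 5, [(0, 3), (1, 4), (2, 0), (2, 1)]),
   ({1, 3, 5}, 7, []),
   ({1, 3, 6}, 7, [(5, 6)]),
   ({1, 3, 7}, 7, [(5, 7)]),
   ({1, 4, 5}, 7, [(3, 4)]),
   ({1, 4, 6}, 7, [(3, 4), (5, 6)]),
   ({1, 4, 7}, 7, [(3, 4), (5, 7)]),
   ({1, 5, 6}, 5, [(0, 5), (1, 6), (2, 0), (3, 1), (4, 2)]),
   ({1, 5, 7}, 7, [(3, 5), (4, 6), (3, 7)]),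
   ({1, 6, 7}, 7, [(3, 6), (4, 5), (4, 7)]),
   ({1, 7, 8}, 15, []),
   ({2, 3, 4}, 5, [(0, 3), (1, 4), (2, 0)]),
   ({2, 3, 5}, 7, [(1, 2)]),
   ({2, 3, 6}, 7, [(1, 2), (5, 6)]),
   ({2, 3, 7}, 7, [(1, 2), (5, 7)]),
   ({2, 4, 5}, 7, [(1, 2), (3, 4)]),
   ({2, 4, 6}, 7, [(1, 2), (3, 4), (5, 6)]),
   ({2, 4, 7}, 7, [(1, 2), (3, 4), (5, 7)]),
   ({2, 5, 6}, 5, [(0, 5), (1, 6), (2, 0), (3, 2), (4, 1)]),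
   ({2, 5, 7}, 7, [(1, 2), (3, 5), (4, 6), (3, 7)]),
   ({2, 6, 7}, 7, [(1, 2), (3, 6), (4, 5), (4, 7)]),
   ({2, 7, 8}, 15, [(1, 2)]),
   ({3, 4, 5}, 5, [(0, 3), (1, 4), (2, 0), (2, 5), (1, 6)]),
   ({3, 4, 6}, 5, [(0, 3), (1, 4), (2, 0), (2, 6), (1, 5)]),
   ({3, 4, 7}, 12, [(0, 3), (1, 4), (2, 0), (2, 7), (5, 2), (6, 5)]),
   ({3, 5, 6}, 5, [(0, 5), (1, 6), (2, 0)]),
   ({3, 5, 7}, 7, [(1, 3), (2, 4), (1, 5), (2, 6), (1, 7)]),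
   ({3, 6, 7}, 7, [(1, 3), (2, 4), (1, 6), (2, 5), (2, 7)]),
   ({3, 7, 8}, 15, [(1, 3), (2, 4)]),
   ({4, 5, 6}, 5, [(0, 5), (1, 6), (2, 0), (3, 4)]),
   ({4, 5, 7}, 7, [(1, 4), (2, 3), (2, 5), (1, 6), (2, 7)]),
   ({4, 6, 7}, 7, [(1, 4), (2, 3), (2, 6), (1, 5), (1, 7)]),
   ({4, 7, 8}, 15, [(1, 4), (2, 3), (2, 1)]),
   ({5, 6, 7}, 12, [(0, 5), (1, 6), (2, 0), (3, 7), (4, 1), (4, 3)]),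
   ({5, 7, 8}, 15, [(1, 5), (2, 6), (3, 1), (4, 2)]),
   ({6, 7, 8}, 15, [(1, 6), (2, 5), (3, 1), (4, 2), (4, 3)])]

/-- table -/
def stDF2 : List (Finset ℕ × ℕ × List (ℕ × ℕ)) :=
  [({0, 1}, 0, []),
   ({0, 2}, 0, [(1, 2)]),
   ({0, 3}, 0, [(1, 3), (2, 1)]),
   ({0, 4}, 2, [(1, 4), (2, 1), (3, 2)]),
   ({0, 5}, 2, [(1, 5), (2, 1), (3, 2)]),
   ({0, 6}, 2, [(1, 6), (2, 1), (3, 2)]),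
   ({0, 7}, 2, [(1, 7), (2, 1), (3, 2)]),
   ({1, 2}, 0, [(0, 1), (0, 2)]),
   ({1, 3}, 0, [(0, 1), (0, 3), (2, 0)]),
   ({1, 4}, 2, [(0, 1), (0, 4), (2, 0), (3, 2)]),
   ({1, 5}, 2, [(0, 1), (0, 5), (2, 0), (3, 2)]),
   ({1, 6}, 2, [(0, 1), (0, 6), (2, 0), (3, 2)]),
   ({1, 7}, 2, [(0, 1), (0, 7), (2, 0), (3, 2)]),
   ({2, 3}, 2, [(0, 2), (1, 3)]),
   ({2, 4}, 0, [(0, 2), (1, 4), (0, 5)]),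
   ({2, 5}, 0, [(0, 2), (1, 5), (0, 4)]),
   ({2, 6}, 2, [(0, 2), (1, 6), (3, 1)]),
   ({2, 7}, 2, [(0, 2), (1, 7), (3, 1)]),
   ({3, 4}, 2, [(0, 3), (1, 4), (2, 0), (2, 1)]),
   ({3, 5}, 2, [(0, 3), (1, 5), (2, 0), (2, 1)]),
   ({3, 6}, 2, [(0, 3), (1, 6), (2, 0), (2, 1)]),
   ({3, 7}, 2, [(0, 3), (1, 7), (2, 0), (2, 1)]),
   ({4, 5}, 0, [(0, 4), (1, 5)]),
   ({4, 6}, 0, [(0, 4), (1, 6), (2, 5)]),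
   ({4, 7}, 2, [(0, 4), (1, 7), (3, 5)]),
   ({5, 6}, 0, [(0, 5), (1, 6), (2, 4)]),
   ({5, 7}, 2, [(0, 5), (1, 7), (3, 4)]),
   ({6, 7}, 2, [(0, 6), (1, 7), (2, 4), (3, 5)])]

/-- table -/
def stDF3 : List (Finset ℕ × ℕ × List (ℕ × ℕ)) :=
  [({0, 1, 4}, 5, [(3, 4), (3, 5)]),
   ({0, 1, 5}, 5, [(3, 5)]),
   ({0, 1, 6}, 9, [(3, 6)]),
   ({0, 1, 7}, 10, [(4, 7), (5, 4), (6, 5)]),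
   ({0, 2, 3}, 3, []),
   ({0, 2, 4}, 4, []),
   ({0, 2, 5}, 4, [(4, 5)]),
   ({0, 2, 6}, 4, [(4, 6)]),
   ({0, 2, 7}, 4, [(4, 7)]),
   ({0, 3, 4}, 4, [(2, 3)]),
   ({0, 3, 5}, 4, [(2, 3), (4, 5)]),
   ({0, 3, 6}, 4, [(2, 3), (4, 6)]),
   ({0, 3, 7}, 4, [(2, 3), (4, 7)]),
   ({0, 4, 5}, 5, [(0, 4), (1, 5), (3, 0), (3, 1)]),
   ({0, 4, 6}, 4, [(0, 4), (1, 5), (2, 6), (3, 2)]),
   ({0, 4, 7}, 6, [(5, 7)]),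
   ({0, 5, 6}, 4, [(0, 5), (1, 4), (2, 6), (3, 2), (1, 0)]),
   ({0, 5, 7}, 6, [(4, 5), (4, 7)]),
   ({0, 6, 7}, 6, [(4, 6), (5, 7)]),
   ({0, 7, 8}, 6, [(4, 7), (5, 8)]),
   ({1, 2, 3}, 3, [(0, 1)]),
   ({1, 2, 4}, 4, [(0, 1)]),
   ({1, 2, 5}, 4, [(0, 1), (4, 5)]),
   ({1, 2, 6}, 4, [(0, 1), (4, 6)]),
   ({1, 2, 7}, 4, [(0, 1), (4, 7)]),
   ({1, 3, 4}, 4, [(0, 1), (2, 3)]),
   ({1, 3, 5}, 4, [(0, 1), (2, 3), (4, 5)]),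
   ({1, 3, 6}, 4, [(0, 1), (2, 3), (4, 6)]),
   ({1, 3, 7}, 4, [(0, 1), (2, 3), (4, 7)]),
   ({1, 4, 5}, 5, [(0, 4), (1, 5), (3, 1)]),
   ({1, 4, 6}, 4, [(0, 4), (1, 5), (2, 6), (3, 2), (0, 1)]),
   ({1, 4, 7}, 6, [(0, 1), (5, 7)]),
   ({1, 5, 6}, 4, [(0, 5), (1, 4), (2, 6), (3, 2)]),
   ({1, 5, 7}, 6, [(0, 1), (4, 5), (4, 7)]),
   ({1, 6, 7}, 6, [(0, 1), (4, 6), (5, 7)]),
   ({1, 7, 8}, 6, [(0, 1), (4, 7), (5, 8)]),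
   ({2, 3, 4}, 4, [(0, 4), (1, 2), (1, 5), (0, 6)]),
   ({2, 3, 5}, 4, [(0, 5), (1, 2), (1, 4), (1, 6)]),
   ({2, 3, 6}, 5, [(4, 6)]),
   ({2, 3, 7}, 5, [(4, 7)]),
   ({2, 4, 6}, 3, [(0, 4), (1, 2), (1, 5), (3, 6)]),
   ({2, 4, 7}, 4, [(0, 4), (1, 2), (1, 5), (3, 7), (0, 6)]),
   ({2, 5, 6}, 3, [(0, 5), (1, 2), (1, 4), (3, 6)]),
   ({2, 5, 7}, 4, [(0, 5), (1, 2), (1, 4), (3, 7), (1, 6)]),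
   ({2, 6, 7}, 5, [(0, 4), (1, 5), (3, 6), (0, 7)]),
   ({2, 7, 8}, 12, [(6, 7), (6, 8)]),
   ({3, 4, 5}, 9, []),
   ({3, 4, 6}, 4, [(0, 4), (1, 5), (2, 6), (3, 2), (0, 3)]),
   ({3, 4, 7}, 6, [(0, 4), (1, 5), (3, 6), (0, 3), (1, 7)]),
   ({3, 5, 6}, 4, [(0, 5), (1, 4), (2, 6), (3, 2), (1, 3)]),
   ({3, 5, 7}, 6, [(0, 5), (1, 4), (3, 6), (1, 3), (0, 7)]),
   ({3, 6, 7}, 16, []),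
   ({3, 7, 8}, 17, [(6, 7), (6, 8)]),
   ({4, 5, 7}, 10, [(0, 4), (1, 5), (3, 6), (0, 7), (1, 0), (3, 1)]),
   ({4, 6, 7}, 4, [(0, 4), (1, 5), (2, 6), (3, 2), (0, 7)]),
   ({4, 7, 8}, 6, [(0, 4), (1, 5), (3, 6), (0, 7), (1, 8)]),
   ({5, 6, 7}, 4, [(0, 5), (1, 4), (2, 6), (3, 2), (1, 7)]),
   ({5, 7, 8}, 6, [(0, 5), (1, 4), (3, 6), (1, 7), (0, 8)]),
   ({6, 7, 8}, 17, [(0, 4), (1, 5), (3, 6), (3, 7), (3, 8)])]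

/-- table -/
def stBF2 : List (Finset ℕ × ℕ × List (ℕ × ℕ)) :=
  [({0, 1}, 0, []),
   ({0, 2}, 0, [(1, 2)]),
   ({0, 3}, 0, [(1, 3), (2, 1)]),
   ({0, 4}, 2, [(1, 4), (2, 1), (3, 2)]),
   ({0, 5}, 2, [(1, 5), (2, 1), (3, 2)]),
   ({0, 6}, 2, [(1, 6), (2, 1), (3, 2)]),
   ({0, 7}, 2, [(1, 7), (2, 1), (3, 2)]),
   ({0, 8}, 2, [(1, 8), (2, 1), (3, 2)]),
   ({1, 2}, 0, [(0, 1), (0, 2)]),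
   ({1, 3}, 0, [(0, 1), (0, 3), (2, 0)]),
   ({1, 4}, 2, [(0, 1), (0, 4), (2, 0), (3, 2)]),
   ({1, 5}, 2, [(0, 1), (0, 5), (2, 0), (3, 2)]),
   ({1, 6}, 2, [(0, 1), (0, 6), (2, 0), (3, 2)]),
   ({1, 7}, 2, [(0, 1), (0, 7), (2, 0), (3, 2)]),
   ({1, 8}, 2, [(0, 1), (0, 8), (2, 0), (3, 2)]),
   ({2, 3}, 2, [(0, 2), (1, 3)]),
   ({2, 4}, 0, [(0, 2), (1, 4), (0, 5)]),
   ({2, 5}, 0, [(0, 2), (1, 5), (0, 4)]),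
   ({2, 6}, 2, [(0, 2), (1, 6), (3, 1)]),
   ({2, 7}, 2, [(0, 2), (1, 7), (3, 1)]),
   ({2, 8}, 2, [(0, 2), (1, 8), (3, 1)]),
   ({3, 4}, 2, [(0, 3), (1, 4), (2, 0), (2, 1)]),
   ({3, 5}, 2, [(0, 3), (1, 5), (2, 0), (2, 1)]),
   ({3, 6}, 0, [(0, 3), (1, 6), (2, 7)]),
   ({3, 7}, 0, [(0, 3), (1, 7), (2, 6)]),
   ({3, 8}, 2, [(0, 3), (1, 8), (2, 0), (2, 1)]),
   ({4, 5}, 0, [(0, 4), (1, 5)]),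
   ({4, 6}, 2, [(0, 4), (1, 6), (3, 5)]),
   ({4, 7}, 2, [(0, 4), (1, 7), (3, 5)]),
   ({4, 8}, 2, [(0, 4), (1, 8), (3, 5)]),
   ({5, 6}, 2, [(0, 5), (1, 6), (3, 4)]),
   ({5, 7}, 2, [(0, 5), (1, 7), (3, 4)]),
   ({5, 8}, 2, [(0, 5), (1, 8), (3, 4)]),
   ({6, 7}, 0, [(0, 6), (1, 7), (2, 3)]),
   ({6, 8}, 2, [(0, 6), (1, 8), (2, 3), (2, 7)]),
   ({7, 8}, 2, [(0, 7), (1, 8), (2, 3), (2, 6)])]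

/-- table -/
def stBF3 : List (Finset ℕ × ℕ × List (ℕ × ℕ)) :=
  [({0, 1, 4}, 5, [(3, 4), (3, 5)]),
   ({0, 1, 5}, 5, [(3, 5)]),
   ({0, 1, 6}, 5, [(2, 3), (2, 6), (4, 7)]),
   ({0, 1, 7}, 5, [(2, 3), (2, 7), (4, 6)]),
   ({0, 1, 8}, 10, [(4, 8), (5, 4), (6, 5)]),
   ({0, 2, 3}, 3, []),
   ({0, 2, 4}, 4, []),
   ({0, 2, 5}, 4, [(4, 5)]),
   ({0, 2, 6}, 4, [(4, 6)]),
   ({0, 2, 7}, 4, [(4, 7)]),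
   ({0, 2, 8}, 4, [(4, 8)]),
   ({0, 3, 4}, 4, [(2, 3)]),
   ({0, 3, 5}, 4, [(2, 3), (4, 5)]),
   ({0, 3, 6}, 4, [(2, 3), (4, 6)]),
   ({0, 3, 7}, 4, [(2, 3), (4, 7)]),
   ({0, 3, 8}, 4, [(2, 3), (4, 8)]),
   ({0, 4, 5}, 5, [(0, 4), (1, 5), (3, 0), (3, 1)]),
   ({0, 4, 6}, 6, [(5, 6)]),
   ({0, 4, 7}, 6, [(5, 7)]),
   ({0, 4, 8}, 6, [(5, 8)]),
   ({0, 5, 6}, 6, [(4, 5), (4, 6)]),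
   ({0, 5, 7}, 6, [(4, 5), (4, 7)]),
   ({0, 5, 8}, 6, [(4, 5), (4, 8)]),
   ({0, 6, 7}, 5, [(0, 6), (1, 7), (2, 3), (2, 0), (4, 1)]),
   ({0, 6, 8}, 6, [(4, 6), (5, 8)]),
   ({0, 7, 8}, 6, [(4, 7), (5, 8)]),
   ({0, 8, 9}, 6, [(4, 8), (5, 9)]),
   ({1, 2, 3}, 3, [(0, 1)]),
   ({1, 2, 4}, 4, [(0, 1)]),
   ({1, 2, 5}, 4, [(0, 1), (4, 5)]),
   ({1, 2, 6}, 4, [(0, 1), (4, 6)]),
   ({1, 2, 7}, 4, [(0, 1), (4, 7)]),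
   ({1, 2, 8}, 4, [(0, 1), (4, 8)]),
   ({1, 3, 4}, 4, [(0, 1), (2, 3)]),
   ({1, 3, 5}, 4, [(0, 1), (2, 3), (4, 5)]),
   ({1, 3, 6}, 4, [(0, 1), (2, 3), (4, 6)]),
   ({1, 3, 7}, 4, [(0, 1), (2, 3), (4, 7)]),
   ({1, 3, 8}, 4, [(0, 1), (2, 3), (4, 8)]),
   ({1, 4, 5}, 5, [(0, 4), (1, 5), (3, 1)]),
   ({1, 4, 6}, 6, [(0, 1), (5, 6)]),
   ({1, 4, 7}, 6, [(0, 1), (5, 7)]),
   ({1, 4, 8}, 6, [(0, 1), (5, 8)]),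
   ({1, 5, 6}, 6, [(0, 1), (4, 5), (4, 6)]),
   ({1, 5, 7}, 6, [(0, 1), (4, 5), (4, 7)]),
   ({1, 5, 8}, 6, [(0, 1), (4, 5), (4, 8)]),
   ({1, 6, 7}, 5, [(0, 6), (1, 7), (2, 3), (2, 1), (4, 0)]),
   ({1, 6, 8}, 6, [(0, 1), (4, 6), (5, 8)]),
   ({1, 7, 8}, 6, [(0, 1), (4, 7), (5, 8)]),
   ({1, 8, 9}, 6, [(0, 1), (4, 8), (5, 9)]),
   ({2, 3, 4}, 5, []),
   ({2, 3, 5}, 5, [(4, 5)]),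
   ({2, 3, 6}, 5, [(4, 6)]),
   ({2, 3, 7}, 5, [(4, 7)]),
   ({2, 3, 8}, 5, [(4, 8)]),
   ({2, 4, 6}, 6, [(0, 2), (1, 4), (0, 5), (3, 6), (1, 0)]),
   ({2, 4, 7}, 6, [(0, 2), (1, 4), (0, 5), (3, 7), (1, 0)]),
   ({2, 4, 8}, 6, [(0, 2), (1, 4), (0, 5), (3, 8), (1, 0)]),
   ({2, 5, 6}, 6, [(0, 2), (1, 5), (0, 4), (3, 6)]),
   ({2, 5, 7}, 6, [(0, 2), (1, 5), (0, 4), (3, 7)]),
   ({2, 5, 8}, 6, [(0, 2), (1, 5), (0, 4), (3, 8)]),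
   ({2, 6, 7}, 9, [(4, 6), (5, 7)]),
   ({2, 6, 8}, 11, [(4, 6), (5, 8), (4, 7)]),
   ({2, 7, 8}, 11, [(4, 7), (5, 8)]),
   ({2, 8, 9}, 12, [(6, 8), (7, 9)]),
   ({3, 4, 5}, 9, []),
   ({3, 4, 6}, 6, [(0, 3), (1, 6), (2, 7), (0, 4), (5, 1)]),
   ({3, 4, 7}, 6, [(0, 3), (1, 7), (2, 6), (0, 4), (5, 1)]),
   ({3, 4, 8}, 11, [(6, 8)]),
   ({3, 5, 6}, 6, [(0, 3), (1, 6), (2, 7), (0, 5), (4, 0), (4, 1)]),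
   ({3, 5, 7}, 6, [(0, 3), (1, 7), (2, 6), (0, 5), (4, 0), (4, 1)]),
   ({3, 5, 8}, 11, [(4, 5), (6, 8)]),
   ({3, 6, 8}, 6, [(0, 3), (1, 6), (2, 7), (0, 8), (4, 0), (5, 1)]),
   ({3, 7, 8}, 6, [(0, 3), (1, 7), (2, 6), (0, 8), (4, 0), (5, 1)]),
   ({3, 8, 9}, 12, [(2, 3), (4, 6), (5, 7), (4, 8), (5, 9)]),
   ({4, 5, 6}, 16, []),
   ({4, 5, 7}, 16, [(6, 7)]),
   ({4, 5, 8}, 17, []),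
   ({4, 6, 7}, 16, [(2, 3), (4, 6), (5, 7)]),
   ({4, 6, 8}, 18, []),
   ({4, 7, 8}, 18, [(6, 7)]),
   ({4, 8, 9}, 20, []),
   ({5, 6, 7}, 16, [(2, 3), (4, 6), (5, 7), (4, 5)]),
   ({5, 6, 8}, 18, [(4, 5)]),
   ({5, 7, 8}, 18, [(4, 5), (6, 7)]),
   ({5, 8, 9}, 20, [(4, 5)]),
   ({6, 7, 8}, 17, [(2, 3), (4, 6), (5, 7)]),
   ({6, 8, 9}, 20, [(2, 3), (4, 6), (5, 7)]),
   ({7, 8, 9}, 20, [(2, 3), (4, 7), (5, 6), (5, 4)])]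

/-- table -/
def stNT2 : List (Finset ℕ × ℕ × List (ℕ × ℕ)) :=
  [({0, 1}, 0, []),
   ({0, 2}, 0, [(1, 2)]),
   ({0, 3}, 0, [(1, 3), (2, 4)]),
   ({0, 4}, 0, [(1, 4), (2, 3)]),
   ({0, 5}, 2, [(1, 5), (2, 1), (3, 2)]),
   ({0, 6}, 2, [(1, 6), (2, 1), (3, 2)]),
   ({0, 7}, 2, [(1, 7), (2, 1), (3, 2)]),
   ({0, 8}, 2, [(1, 8), (2, 1), (3, 2)]),
   ({0, 9}, 2, [(1, 9), (2, 1), (3, 2)]),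
   ({1, 2}, 0, [(0, 1), (0, 2)]),
   ({1, 3}, 2, [(0, 1), (0, 3), (2, 0)]),
   ({1, 4}, 2, [(0, 1), (0, 4), (2, 0), (3, 2)]),
   ({1, 5}, 0, [(0, 1), (0, 5), (2, 6)]),
   ({1, 6}, 0, [(0, 1), (0, 6), (2, 5)]),
   ({1, 7}, 2, [(0, 1), (0, 7), (2, 0), (3, 2)]),
   ({1, 8}, 2, [(0, 1), (0, 8), (2, 0), (3, 2)]),
   ({1, 9}, 2, [(0, 1), (0, 9), (2, 0), (3, 2)]),
   ({2, 3}, 2, [(0, 2), (1, 3)]),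
   ({2, 4}, 2, [(0, 2), (1, 4), (3, 1)]),
   ({2, 5}, 2, [(0, 2), (1, 5), (3, 1)]),
   ({2, 6}, 2, [(0, 2), (1, 6), (3, 1)]),
   ({2, 7}, 0, [(0, 2), (1, 7), (0, 8)]),
   ({2, 8}, 0, [(0, 2), (1, 8), (0, 7)]),
   ({2, 9}, 2, [(0, 2), (1, 9), (3, 1)]),
   ({3, 4}, 0, [(0, 3), (1, 4), (2, 0)]),
   ({3, 5}, 2, [(0, 3), (1, 5), (2, 0), (2, 4)]),
   ({3, 6}, 2, [(0, 3), (1, 6), (2, 0), (2, 4)]),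
   ({3, 7}, 2, [(0, 3), (1, 7), (2, 0), (2, 4)]),
   ({3, 8}, 2, [(0, 3), (1, 8), (2, 0), (2, 4)]),
   ({3, 9}, 2, [(0, 3), (1, 9), (2, 0), (2, 4)]),
   ({4, 5}, 2, [(0, 4), (1, 5), (2, 0)]),
   ({4, 6}, 2, [(0, 4), (1, 6), (2, 0)]),
   ({4, 7}, 2, [(0, 4), (1, 7), (2, 0)]),
   ({4, 8}, 2, [(0, 4), (1, 8), (2, 0)]),
   ({4, 9}, 2, [(0, 4), (1, 9), (2, 0)]),
   ({5, 6}, 0, [(0, 5), (1, 6), (2, 1)]),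
   ({5, 7}, 2, [(0, 5), (1, 7), (2, 1), (3, 6)]),
   ({5, 8}, 2, [(0, 5), (1, 8), (2, 1), (3, 6)]),
   ({5, 9}, 2, [(0, 5), (1, 9), (2, 1), (3, 6)]),
   ({6, 7}, 2, [(0, 6), (1, 7), (2, 1), (3, 5)]),
   ({6, 8}, 2, [(0, 6), (1, 8), (2, 1), (3, 5)]),
   ({6, 9}, 2, [(0, 6), (1, 9), (2, 1), (3, 5)]),
   ({7, 8}, 0, [(0, 7), (1, 8)]),
   ({7, 9}, 2, [(0, 7), (1, 9), (3, 8)]),
   ({8, 9}, 2, [(0, 8), (1, 9), (3, 7)])]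

/-- table -/
def stNT3 : List (Finset ℕ × ℕ × List (ℕ × ℕ)) :=
  [({0, 1, 3}, 4, [(2, 3)]),
   ({0, 1, 4}, 4, [(2, 4), (3, 2)]),
   ({0, 1, 5}, 4, [(0, 1), (2, 5), (3, 2), (4, 6)]),
   ({0, 1, 6}, 4, [(0, 1), (2, 6), (3, 2), (4, 5)]),
   ({0, 1, 7}, 5, [(3, 7), (4, 8)]),
   ({0, 1, 8}, 5, [(3, 8), (4, 7)]),
   ({0, 1, 9}, 6, [(3, 9), (4, 3), (5, 4)]),
   ({0, 2, 3}, 4, [(1, 2), (1, 3)]),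
   ({0, 2, 4}, 4, [(1, 2), (1, 4), (3, 1)]),
   ({0, 2, 5}, 5, [(1, 2), (3, 5), (4, 6)]),
   ({0, 2, 6}, 5, [(1, 2), (3, 6), (4, 5)]),
   ({0, 2, 7}, 4, [(0, 2), (1, 0), (1, 7), (3, 1), (4, 8)]),
   ({0, 2, 8}, 4, [(0, 2), (1, 0), (1, 8), (3, 1), (4, 7)]),
   ({0, 2, 9}, 6, [(1, 2), (3, 9), (4, 3), (5, 4)]),
   ({0, 3, 5}, 6, [(1, 3), (2, 4), (1, 5), (2, 1)]),
   ({0, 3, 6}, 6, [(1, 3), (2, 4), (1, 6), (2, 1), (5, 2)]),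
   ({0, 3, 7}, 6, [(1, 3), (2, 4), (1, 7), (2, 1), (5, 2)]),
   ({0, 3, 8}, 6, [(1, 3), (2, 4), (1, 8), (2, 1), (5, 2)]),
   ({0, 3, 9}, 6, [(1, 3), (2, 4), (1, 9), (2, 1), (5, 2)]),
   ({0, 4, 5}, 6, [(1, 4), (2, 3), (2, 5)]),
   ({0, 4, 6}, 6, [(1, 4), (2, 3), (2, 6), (5, 2)]),
   ({0, 4, 7}, 6, [(1, 4), (2, 3), (2, 7), (5, 2)]),
   ({0, 4, 8}, 6, [(1, 4), (2, 3), (2, 8), (5, 2)]),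
   ({0, 4, 9}, 6, [(1, 4), (2, 3), (2, 9), (5, 2)]),
   ({0, 5, 6}, 5, [(0, 5), (1, 6), (2, 1), (3, 0), (4, 2)]),
   ({0, 5, 7}, 7, [(3, 5), (4, 7), (3, 6)]),
   ({0, 5, 8}, 7, [(3, 5), (4, 8), (3, 6)]),
   ({0, 5, 9}, 7, [(3, 5), (4, 9), (3, 6)]),
   ({0, 6, 7}, 7, [(3, 6), (4, 7)]),
   ({0, 6, 8}, 7, [(3, 6), (4, 8)]),
   ({0, 6, 9}, 7, [(3, 6), (4, 9)]),
   ({0, 7, 8}, 5, [(0, 7), (1, 8), (3, 0), (4, 1)]),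
   ({0, 7, 9}, 7, [(1, 2), (3, 7), (4, 9), (5, 8)]),
   ({0, 8, 9}, 7, [(1, 2), (3, 8), (4, 9), (5, 7)]),
   ({0, 9, 10}, 15, [(5, 9), (6, 10), (7, 5), (8, 6)]),
   ({1, 2, 3}, 5, [(0, 1), (0, 2)]),
   ({1, 2, 4}, 5, [(0, 1), (0, 2), (3, 4)]),
   ({1, 2, 5}, 4, [(0, 1), (0, 2), (0, 5), (3, 0), (4, 6)]),
   ({1, 2, 6}, 4, [(0, 1), (0, 2), (0, 6), (3, 0), (4, 5)]),
   ({1, 2, 7}, 4, [(0, 2), (0, 7), (3, 0), (4, 8)]),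
   ({1, 2, 8}, 4, [(0, 2), (0, 8), (3, 0), (4, 7)]),
   ({1, 2, 9}, 6, [(0, 1), (0, 2), (3, 9), (4, 5), (4, 6)]),
   ({1, 3, 4}, 5, [(0, 3), (1, 4), (2, 0), (2, 1)]),
   ({1, 3, 5}, 6, [(0, 1), (0, 5), (2, 6), (4, 0), (4, 2)]),
   ({1, 3, 6}, 6, [(0, 1), (0, 6), (2, 5), (4, 0)]),
   ({1, 3, 7}, 7, [(5, 7)]),
   ({1, 3, 8}, 7, [(5, 8)]),
   ({1, 3, 9}, 7, [(5, 9)]),
   ({1, 4, 5}, 6, [(0, 1), (0, 5), (2, 6), (3, 4), (3, 0), (3, 2)]),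
   ({1, 4, 6}, 6, [(0, 1), (0, 6), (2, 5), (3, 4), (3, 0)]),
   ({1, 4, 7}, 7, [(3, 4), (5, 7)]),
   ({1, 4, 8}, 7, [(3, 4), (5, 8)]),
   ({1, 4, 9}, 7, [(3, 4), (5, 9)]),
   ({1, 5, 7}, 6, [(0, 1), (0, 5), (2, 6), (3, 7), (4, 0), (4, 2)]),
   ({1, 5, 8}, 6, [(0, 1), (0, 5), (2, 6), (3, 8), (4, 0), (4, 2)]),
   ({1, 5, 9}, 6, [(0, 1), (0, 5), (2, 6), (3, 9), (4, 0), (4, 2)]),
   ({1, 6, 7}, 6, [(0, 1), (0, 6), (2, 5), (3, 7), (4, 0)]),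
   ({1, 6, 8}, 6, [(0, 1), (0, 6), (2, 5), (3, 8), (4, 0)]),
   ({1, 6, 9}, 6, [(0, 1), (0, 6), (2, 5), (3, 9), (4, 0)]),
   ({1, 7, 8}, 5, [(0, 7), (1, 8), (3, 1), (4, 0)]),
   ({1, 7, 9}, 7, [(0, 1), (0, 2), (3, 7), (4, 9), (5, 8)]),
   ({1, 8, 9}, 7, [(0, 1), (0, 2), (3, 8), (4, 9), (5, 7)]),
   ({1, 9, 10}, 15, [(0, 1), (3, 5), (4, 6), (3, 9), (4, 10), (7, 3), (8, 4)]),
   ({2, 3, 4}, 5, [(0, 3), (1, 4), (2, 0)]),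
   ({2, 3, 5}, 7, [(1, 2)]),
   ({2, 3, 6}, 7, [(1, 2), (5, 6)]),
   ({2, 3, 7}, 6, [(0, 2), (1, 7), (0, 8), (4, 0), (5, 1)]),
   ({2, 3, 8}, 6, [(0, 2), (1, 8), (0, 7), (4, 0), (5, 1)]),
   ({2, 3, 9}, 7, [(1, 2), (5, 9)]),
   ({2, 4, 5}, 7, [(1, 2), (3, 4)]),
   ({2, 4, 6}, 7, [(1, 2), (3, 4), (5, 6)]),
   ({2, 4, 7}, 6, [(0, 2), (1, 7), (0, 8), (3, 4), (3, 0), (5, 1)]),
   ({2, 4, 8}, 6, [(0, 2), (1, 8), (0, 7), (3, 4), (3, 0), (5, 1)]),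
   ({2, 4, 9}, 7, [(1, 2), (3, 4), (5, 9)]),
   ({2, 5, 6}, 5, [(0, 5), (1, 6), (2, 1), (3, 2), (4, 0)]),
   ({2, 5, 7}, 6, [(0, 2), (1, 7), (0, 8), (3, 5), (4, 0), (3, 1)]),
   ({2, 5, 8}, 6, [(0, 2), (1, 8), (0, 7), (3, 5), (4, 0), (3, 1)]),
   ({2, 5, 9}, 7, [(0, 1), (0, 2), (3, 5), (4, 6), (3, 9)]),
   ({2, 6, 7}, 6, [(0, 2), (1, 7), (0, 8), (3, 6), (4, 0), (5, 1)]),
   ({2, 6, 8}, 6, [(0, 2), (1, 8), (0, 7), (3, 6), (4, 0), (5, 1)]),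
   ({2, 6, 9}, 7, [(0, 1), (0, 2), (3, 6), (4, 5), (4, 9)]),
   ({2, 7, 9}, 6, [(0, 2), (1, 7), (0, 8), (3, 9), (4, 0), (5, 1)]),
   ({2, 8, 9}, 6, [(0, 2), (1, 8), (0, 7), (3, 9), (4, 0), (5, 1)]),
   ({2, 9, 10}, 15, [(0, 2), (1, 0), (3, 7), (4, 8), (5, 9), (6, 10)]),
   ({3, 4, 5}, 11, [(0, 3), (1, 4), (2, 0), (2, 5)]),
   ({3, 4, 6}, 11, [(0, 3), (1, 4), (2, 0), (2, 6), (5, 2)]),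
   ({3, 4, 7}, 11, [(0, 3), (1, 4), (2, 0), (2, 7), (1, 2), (5, 1), (6, 8)]),
   ({3, 4, 8}, 11, [(0, 3), (1, 4), (2, 0), (2, 8), (1, 2), (5, 1), (6, 7)]),
   ({3, 4, 9}, 21, [(0, 3), (1, 4), (2, 0), (2, 9), (5, 2), (6, 5), (7, 6), (8, 7)]),
   ({3, 5, 6}, 11, [(0, 5), (1, 6), (2, 1), (4, 0), (4, 2)]),
   ({3, 5, 7}, 13, []),
   ({3, 5, 8}, 13, [(7, 8)]),
   ({3, 5, 9}, 13, [(7, 9)]),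
   ({3, 6, 7}, 13, [(5, 6)]),
   ({3, 6, 8}, 13, [(5, 6), (7, 8)]),
   ({3, 6, 9}, 13, [(5, 6), (7, 9)]),
   ({3, 7, 8}, 11, [(0, 7), (1, 8), (4, 0), (5, 1), (6, 4)]),
   ({3, 7, 9}, 13, [(1, 2), (5, 7), (6, 8), (5, 9)]),
   ({3, 8, 9}, 13, [(1, 2), (5, 8), (6, 7), (6, 9)]),
   ({3, 9, 10}, 24, []),
   ({4, 5, 6}, 11, [(0, 5), (1, 6), (2, 1), (3, 4), (3, 0), (3, 2)]),
   ({4, 5, 7}, 13, [(3, 4)]),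
   ({4, 5, 8}, 13, [(3, 4), (7, 8)]),
   ({4, 5, 9}, 13, [(3, 4), (7, 9)]),
   ({4, 6, 7}, 13, [(3, 4), (5, 6)]),
   ({4, 6, 8}, 13, [(3, 4), (5, 6), (7, 8)]),
   ({4, 6, 9}, 13, [(3, 4), (5, 6), (7, 9)]),
   ({4, 7, 8}, 11, [(0, 7), (1, 8), (3, 4), (3, 0), (5, 1), (6, 3)]),
   ({4, 7, 9}, 13, [(1, 2), (3, 4), (5, 7), (6, 8), (5, 9)]),
   ({4, 8, 9}, 13, [(1, 2), (3, 4), (5, 8), (6, 7), (6, 9)]),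
   ({4, 9, 10}, 24, [(3, 4)]),
   ({5, 6, 7}, 11, [(0, 5), (1, 6), (2, 1), (3, 7), (4, 2), (4, 8)]),
   ({5, 6, 8}, 11, [(0, 5), (1, 6), (2, 1), (3, 8), (4, 2), (4, 7)]),
   ({5, 6, 9}, 21, [(0, 5), (1, 6), (2, 1), (3, 9), (4, 0), (4, 2), (4, 3), (7, 4), (8, 7)]),
   ({5, 7, 8}, 11, [(0, 7), (1, 8), (3, 5), (4, 1), (3, 0)]),
   ({5, 7, 9}, 13, [(0, 1), (0, 2), (3, 5), (4, 6), (3, 7), (4, 8), (3, 9)]),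
   ({5, 8, 9}, 13, [(0, 1), (0, 2), (3, 5), (4, 6), (3, 8), (4, 7), (4, 9)]),
   ({5, 9, 10}, 24, [(0, 1), (3, 5), (4, 6)]),
   ({6, 7, 8}, 11, [(0, 7), (1, 8), (3, 6), (4, 1), (5, 0), (3, 5)]),
   ({6, 7, 9}, 13, [(0, 1), (0, 2), (3, 6), (4, 5), (4, 7), (3, 8), (4, 9)]),
   ({6, 8, 9}, 13, [(0, 1), (0, 2), (3, 6), (4, 5), (4, 8), (3, 7), (3, 9)]),
   ({6, 9, 10}, 24, [(0, 1), (3, 6), (4, 5), (4, 3)]),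
   ({7, 8, 9}, 21, [(0, 7), (1, 8), (3, 9), (4, 0), (5, 1), (6, 3)]),
   ({7, 9, 10}, 24, [(0, 2), (1, 0), (3, 7), (4, 8), (5, 3), (6, 4)]),
   ({8, 9, 10}, 24, [(0, 2), (1, 0), (3, 8), (4, 7), (5, 3), (6, 4), (6, 5)])]

theorem sokP2 : STab 2 (pairFam) 2 stP2 := by decide +kernel

theorem sokP3 : STab 3 (pairFam) 2 stP3 := by decide +kernel

theorem sokL12 : STab 2 (loosePath 1) 3 stL12 := by decide +kernel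

theorem sokL13 : STab 3 (loosePath 1) 3 stL13 := by decide +kernel

theorem sokL22 : STab 2 (loosePath 2) 5 stL22 := by decide +kernel

theorem sokL23 : STab 3 (loosePath 2) 5 stL23 := by decide +kernel

theorem sokL32 : STab 2 (loosePath 3) 7 stL32 := by decide +kernel

theorem sokL33 : STab 3 (loosePath 3) 7 stL33 := by decide +kernel

theorem sokL42 : STab 2 (loosePath 4) 9 stL42 := by decide +kernel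

theorem sokL43 : STab 3 (loosePath 4) 9 stL43 := by decide +kernel

theorem sokF12 : STab 2 (forkedPath 1) 4 stF12 := by decide +kernel

theorem sokF13 : STab 3 (forkedPath 1) 4 stF13 := by decide +kernel

theorem sokF22 : STab 2 (forkedPath 2) 6 stF22 := by decide +kernel

theorem sokF23 : STab 3 (forkedPath 2) 6 stF23 := by decide +kernel

theorem sokF32 : STab 2 (forkedPath 3) 8 stF32 := by decide +kernel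

theorem sokF33 : STab 3 (forkedPath 3) 8 stF33 := by decide +kernel

theorem sokB32 : STab 2 (book3) 5 stB32 := by decide +kernel

theorem sokB33 : STab 3 (book3) 5 stB33 := by decide +kernel

theorem sokS32 : STab 2 (star3) 7 stS32 := by decide +kernel

theorem sokS33 : STab 3 (star3) 7 stS33 := by decide +kernel

theorem sokDF2 : STab 2 (dfork) 7 stDF2 := by decide +kernel

theorem sokDF3 : STab 3 (dfork) 7 stDF3 := by decide +kernel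

theorem sokBF2 : STab 2 (bfork) 8 stBF2 := by decide +kernel

theorem sokBF3 : STab 3 (bfork) 8 stBF3 := by decide +kernel

theorem sokNT2 : STab 2 (net) 9 stNT2 := by decide +kernel

theorem sokNT3 : STab 3 (net) 9 stNT3 := by decide +kernel

end Pool.Agent.U129.UC
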