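import Pool.Agent.U129.UC.Min
import Pool.Agent.U129.UC.Perm

set_option autoImplicit false

/-!
# The tables for the growth of connected families of 3-sets
-/

namespace Pool.Agent.U129.UC

open Finset

/-- the loose path with `n` sets -/
def loosePath (n : ℕ) : Finset (Finset ℕ) := (range n).image (fun i => {2 * i, 2 * i + 1, 2 * i + 2})

/-- the loose path with `n` sets and one more set which shares two elements with the first one -/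
def forkedPath (n : ℕ) : Finset (Finset ℕ) := insert {0, 1, 2 * n + 1} (loosePath n)

/-- the connected families of 3-sets which are not FC -/
def nons : List (Finset (Finset ℕ)) :=
  [loosePath 1, loosePath 2, loosePath 3, loosePath 4, forkedPath 1, forkedPath 2, forkedPath 3]

/-- the check of one entry of a table -/
def Good (N : Finset (Finset ℕ)) (B : Finset ℕ) (e : Finset ℕ × ℕ × List (ℕ × ℕ)) : Prop :=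
  e.1 = B ∧ ((e.2.1 < 17 ∧ ren (ap e.2.2) (mins.getD e.2.1 ∅) ⊆ insert B N) ∨
    (17 ≤ e.2.1 ∧ e.2.1 < 24 ∧ ren (ap e.2.2) (nons.getD (e.2.1 - 17) ∅) = insert B N))

instance (N : Finset (Finset ℕ)) (B : Finset ℕ) (e : Finset ℕ × ℕ × List (ℕ × ℕ)) :
    Decidable (Good N B e) := by unfold Good ren; infer_instance

/-- the check of a table -/
def Tab (N : Finset (Finset ℕ)) (n : ℕ) (t : List (Finset ℕ × ℕ × List (ℕ × ℕ))) : Prop :=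
  ∀ B ∈ powersetCard 3 (range (n + 2)), (∃ i ∈ B, i < n) → (n + 1 ∈ B → n ∈ B) → B ∉ N →
    ∃ e ∈ t, Good N B e

instance (N : Finset (Finset ℕ)) (n : ℕ) (t : List (Finset ℕ × ℕ × List (ℕ × ℕ))) :
    Decidable (Tab N n t) := by unfold Tab; infer_instance

/-- table -/
def tL1 : List (Finset ℕ × ℕ × List (ℕ × ℕ)) :=
  [({0, 1, 3}, 21, []),
   ({0, 2, 3}, 21, [(1, 2)]),
   ({0, 3, 4}, 18, [(0, 1), (0, 2)]),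
   ({1, 2, 3}, 21, [(0, 1), (0, 2)]),
   ({1, 3, 4}, 18, [(1, 2)]),
   ({2, 3, 4}, 18, [])]

/-- table -/
def tL2 : List (Finset ℕ × ℕ × List (ℕ × ℕ)) :=
  [({0, 1, 3}, 3, []),
   ({0, 1, 4}, 3, [(3, 4)]),
   ({0, 1, 5}, 22, []),
   ({0, 2, 3}, 2, [(0, 2), (1, 0), (1, 3)]),
   ({0, 2, 4}, 2, [(0, 2), (1, 0), (1, 4), (3, 1)]),
   ({0, 2, 5}, 4, [(0, 2), (1, 0), (3, 5), (4, 3)]),
   ({0, 3, 4}, 3, [(0, 3), (1, 4)]),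
   ({0, 3, 5}, 5, [(1, 2), (4, 5)]),
   ({0, 4, 5}, 5, [(1, 2), (3, 4), (3, 5)]),
   ({0, 5, 6}, 19, [(0, 3), (1, 4), (0, 1)]),
   ({1, 2, 3}, 2, [(0, 2), (0, 3)]),
   ({1, 2, 4}, 2, [(0, 2), (0, 4), (3, 0)]),
   ({1, 2, 5}, 4, [(0, 2), (3, 5), (4, 3)]),
   ({1, 3, 4}, 3, [(0, 3), (1, 4), (0, 1)]),
   ({1, 3, 5}, 5, [(0, 1), (0, 2), (4, 5)]),
   ({1, 4, 5}, 5, [(0, 1), (0, 2), (3, 4), (3, 5)]),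
   ({1, 5, 6}, 19, [(0, 3), (1, 4)]),
   ({2, 3, 5}, 4, [(0, 2), (1, 3), (0, 4), (1, 5)]),
   ({2, 4, 5}, 4, [(0, 2), (1, 4), (0, 3), (0, 5), (1, 0)]),
   ({2, 5, 6}, 6, [(0, 2), (1, 0)]),
   ({3, 4, 5}, 22, [(0, 3), (1, 4)]),
   ({3, 5, 6}, 19, [(3, 4)]),
   ({4, 5, 6}, 19, [])]

/-- table -/
def tL3 : List (Finset ℕ × ℕ × List (ℕ × ℕ)) :=
  [({0, 1, 3}, 3, []),
   ({0, 1, 4}, 3, [(3, 4)]),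
   ({0, 1, 5}, 8, [(3, 5)]),
   ({0, 1, 6}, 8, [(3, 6), (5, 3)]),
   ({0, 1, 7}, 23, []),
   ({0, 2, 3}, 2, [(0, 2), (1, 0), (1, 3)]),
   ({0, 2, 4}, 2, [(0, 2), (1, 0), (1, 4), (3, 1)]),
   ({0, 2, 5}, 4, [(0, 2), (1, 0), (3, 5), (4, 3)]),
   ({0, 2, 6}, 4, [(0, 2), (1, 0), (3, 6), (4, 3), (5, 4)]),
   ({0, 2, 7}, 4, [(0, 2), (1, 0), (3, 7), (4, 3), (5, 4)]),
   ({0, 3, 4}, 3, [(0, 3), (1, 4)]),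
   ({0, 3, 5}, 5, [(1, 2), (4, 5)]),
   ({0, 3, 6}, 5, [(1, 2), (4, 6), (5, 4)]),
   ({0, 3, 7}, 5, [(1, 2), (4, 7), (5, 4)]),
   ({0, 4, 5}, 4, [(0, 4), (1, 5), (2, 6), (3, 0), (3, 2), (1, 3)]),
   ({0, 4, 6}, 4, [(0, 4), (1, 6), (2, 5), (3, 0), (3, 2)]),
   ({0, 4, 7}, 5, [(1, 2), (3, 4), (3, 7), (5, 3)]),
   ({0, 5, 6}, 8, [(0, 5), (1, 6), (2, 4), (3, 0)]),
   ({0, 5, 7}, 11, [(1, 2), (3, 5), (4, 7), (3, 4), (6, 3)]),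
   ({0, 6, 7}, 11, [(1, 2), (3, 6), (4, 7), (5, 4)]),
   ({0, 7, 8}, 20, [(0, 5), (1, 6), (2, 4), (0, 1)]),
   ({1, 2, 3}, 2, [(0, 2), (0, 3)]),
   ({1, 2, 4}, 2, [(0, 2), (0, 4), (3, 0)]),
   ({1, 2, 5}, 4, [(0, 2), (3, 5), (4, 3)]),
   ({1, 2, 6}, 4, [(0, 2), (3, 6), (4, 3), (5, 4)]),
   ({1, 2, 7}, 4, [(0, 2), (3, 7), (4, 3), (5, 4)]),
   ({1, 3, 4}, 3, [(0, 3), (1, 4), (0, 1)]),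
   ({1, 3, 5}, 5, [(0, 1), (0, 2), (4, 5)]),
   ({1, 3, 6}, 5, [(0, 1), (0, 2), (4, 6), (5, 4)]),
   ({1, 3, 7}, 5, [(0, 1), (0, 2), (4, 7), (5, 4)]),
   ({1, 4, 5}, 4, [(0, 4), (1, 5), (2, 6), (3, 1), (0, 2)]),
   ({1, 4, 6}, 4, [(0, 4), (1, 6), (2, 5), (3, 1), (0, 2), (0, 3)]),
   ({1, 4, 7}, 5, [(0, 1), (0, 2), (3, 4), (3, 7), (5, 3)]),
   ({1, 5, 6}, 8, [(0, 5), (1, 6), (2, 4), (3, 1), (0, 3)]),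
   ({1, 5, 7}, 11, [(0, 1), (0, 2), (3, 5), (4, 7), (3, 4), (6, 3)]),
   ({1, 6, 7}, 11, [(0, 1), (0, 2), (3, 6), (4, 7), (5, 4)]),
   ({1, 7, 8}, 20, [(0, 5), (1, 6), (2, 4)]),
   ({2, 3, 5}, 3, [(0, 2), (1, 3), (0, 4), (1, 5), (0, 6)]),
   ({2, 3, 6}, 3, [(0, 2), (1, 3), (0, 4), (1, 6), (0, 5)]),
   ({2, 3, 7}, 4, [(0, 2), (1, 3), (0, 4), (1, 7), (5, 1)]),
   ({2, 4, 5}, 2, [(0, 4), (1, 2), (1, 5), (0, 6)]),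
   ({2, 4, 6}, 2, [(0, 4), (1, 2), (1, 6), (0, 5)]),
   ({2, 4, 7}, 4, [(0, 2), (1, 4), (0, 3), (0, 7), (1, 0), (5, 1)]),
   ({2, 5, 6}, 3, [(0, 5), (1, 6), (2, 4), (3, 2)]),
   ({2, 5, 7}, 5, [(0, 2), (1, 4), (0, 3), (0, 5), (1, 7), (0, 6)]),
   ({2, 6, 7}, 5, [(0, 2), (1, 4), (0, 3), (0, 6), (1, 7)]),
   ({2, 7, 8}, 6, [(0, 2), (1, 0), (5, 7), (6, 8)]),
   ({3, 4, 5}, 2, [(0, 4), (1, 3), (2, 5), (1, 2), (0, 6)]),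
   ({3, 4, 6}, 2, [(0, 4), (1, 3), (2, 6), (1, 2), (0, 5)]),
   ({3, 4, 7}, 4, [(0, 4), (1, 3), (1, 7), (0, 5), (0, 6)]),
   ({3, 5, 6}, 3, [(0, 5), (1, 6), (2, 4)]),
   ({3, 5, 7}, 5, [(0, 3), (1, 4), (0, 5), (1, 7), (0, 6)]),
   ({3, 6, 7}, 5, [(0, 3), (1, 4), (0, 6), (1, 7)]),
   ({3, 7, 8}, 12, [(0, 2), (1, 3), (0, 4), (1, 0), (5, 7), (6, 8)]),
   ({4, 5, 7}, 4, [(0, 4), (1, 5), (2, 6), (3, 7), (0, 2), (1, 3)]),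
   ({4, 6, 7}, 4, [(0, 4), (1, 6), (2, 5), (3, 7), (0, 2), (0, 3)]),
   ({4, 7, 8}, 6, [(0, 4), (1, 2), (1, 3), (1, 5), (0, 6), (1, 7), (0, 8)]),
   ({5, 6, 7}, 23, [(0, 5), (1, 6), (2, 4)]),
   ({5, 7, 8}, 20, [(5, 6)]),
   ({6, 7, 8}, 20, [])]

/-- table -/
def tL4 : List (Finset ℕ × ℕ × List (ℕ × ℕ)) :=
  [({0, 1, 3}, 3, []),
   ({0, 1, 4}, 3, [(3, 4)]),
   ({0, 1, 5}, 8, [(3, 5)]),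
   ({0, 1, 6}, 6, [(0, 6), (1, 4), (2, 5), (3, 7), (1, 8), (2, 0), (2, 1)]),
   ({0, 1, 7}, 10, [(3, 7), (4, 3), (5, 4), (5, 8)]),
   ({0, 1, 8}, 10, [(3, 8), (4, 3), (5, 4)]),
   ({0, 1, 9}, 14, [(3, 9), (5, 3), (7, 5), (8, 7)]),
   ({0, 2, 3}, 2, [(0, 2), (1, 0), (1, 3)]),
   ({0, 2, 4}, 2, [(0, 2), (1, 0), (1, 4), (3, 1)]),
   ({0, 2, 5}, 4, [(0, 2), (1, 0), (3, 5), (4, 3)]),
   ({0, 2, 6}, 4, [(0, 2), (1, 0), (3, 6), (4, 3), (5, 4)]),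
   ({0, 2, 7}, 4, [(0, 2), (1, 0), (3, 7), (4, 3), (5, 4)]),
   ({0, 2, 8}, 4, [(0, 2), (1, 0), (3, 8), (4, 3), (5, 4)]),
   ({0, 2, 9}, 4, [(0, 2), (1, 0), (3, 9), (4, 3), (5, 4)]),
   ({0, 3, 4}, 3, [(0, 3), (1, 4)]),
   ({0, 3, 5}, 5, [(1, 2), (4, 5)]),
   ({0, 3, 6}, 5, [(1, 2), (4, 6), (5, 4)]),
   ({0, 3, 7}, 5, [(1, 2), (4, 7), (5, 4)]),
   ({0, 3, 8}, 5, [(1, 2), (4, 8), (5, 4)]),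
   ({0, 3, 9}, 5, [(1, 2), (4, 9), (5, 4)]),
   ({0, 4, 5}, 4, [(0, 4), (1, 5), (2, 6), (3, 0), (3, 2), (1, 3)]),
   ({0, 4, 6}, 4, [(0, 4), (1, 6), (2, 5), (3, 0), (3, 2)]),
   ({0, 4, 7}, 5, [(1, 2), (3, 4), (3, 7), (5, 3)]),
   ({0, 4, 8}, 5, [(1, 2), (3, 4), (3, 8), (5, 3)]),
   ({0, 4, 9}, 5, [(1, 2), (3, 4), (3, 9), (5, 3)]),
   ({0, 5, 6}, 4, [(0, 6), (1, 5), (2, 4), (3, 0), (2, 7), (1, 8)]),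
   ({0, 5, 7}, 5, [(0, 5), (1, 6), (2, 4), (3, 7), (2, 0), (2, 8)]),
   ({0, 5, 8}, 5, [(0, 5), (1, 6), (2, 4), (3, 8), (2, 0), (2, 7)]),
   ({0, 5, 9}, 11, [(1, 2), (3, 5), (4, 9), (3, 4), (6, 3), (7, 6)]),
   ({0, 6, 7}, 4, [(0, 6), (1, 7), (2, 8), (3, 0)]),
   ({0, 6, 8}, 4, [(0, 6), (1, 8), (2, 7), (3, 0)]),
   ({0, 6, 9}, 6, [(0, 6), (1, 4), (2, 5), (3, 7), (1, 8), (2, 0), (2, 9)]),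
   ({0, 7, 8}, 10, [(0, 7), (1, 8), (2, 6), (3, 0), (2, 1), (3, 2)]),
   ({0, 7, 9}, 15, [(1, 2), (3, 7), (4, 9), (5, 4), (6, 3)]),
   ({0, 8, 9}, 15, [(1, 2), (3, 8), (4, 9), (5, 4), (6, 3), (7, 6)]),
   ({0, 9, 10}, 16, [(0, 2), (1, 4), (0, 3), (5, 6), (7, 9), (8, 10)]),
   ({1, 2, 3}, 2, [(0, 2), (0, 3)]),
   ({1, 2, 4}, 2, [(0, 2), (0, 4), (3, 0)]),
   ({1, 2, 5}, 4, [(0, 2), (3, 5), (4, 3)]),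
   ({1, 2, 6}, 4, [(0, 2), (3, 6), (4, 3), (5, 4)]),
   ({1, 2, 7}, 4, [(0, 2), (3, 7), (4, 3), (5, 4)]),
   ({1, 2, 8}, 4, [(0, 2), (3, 8), (4, 3), (5, 4)]),
   ({1, 2, 9}, 4, [(0, 2), (3, 9), (4, 3), (5, 4)]),
   ({1, 3, 4}, 3, [(0, 3), (1, 4), (0, 1)]),
   ({1, 3, 5}, 5, [(0, 1), (0, 2), (4, 5)]),
   ({1, 3, 6}, 5, [(0, 1), (0, 2), (4, 6), (5, 4)]),
   ({1, 3, 7}, 5, [(0, 1), (0, 2), (4, 7), (5, 4)]),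
   ({1, 3, 8}, 5, [(0, 1), (0, 2), (4, 8), (5, 4)]),
   ({1, 3, 9}, 5, [(0, 1), (0, 2), (4, 9), (5, 4)]),
   ({1, 4, 5}, 4, [(0, 4), (1, 5), (2, 6), (3, 1), (0, 2)]),
   ({1, 4, 6}, 4, [(0, 4), (1, 6), (2, 5), (3, 1), (0, 2), (0, 3)]),
   ({1, 4, 7}, 5, [(0, 1), (0, 2), (3, 4), (3, 7), (5, 3)]),
   ({1, 4, 8}, 5, [(0, 1), (0, 2), (3, 4), (3, 8), (5, 3)]),
   ({1, 4, 9}, 5, [(0, 1), (0, 2), (3, 4), (3, 9), (5, 3)]),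
   ({1, 5, 6}, 4, [(0, 6), (1, 5), (2, 4), (3, 1), (2, 7), (3, 8)]),
   ({1, 5, 7}, 5, [(0, 5), (1, 6), (2, 4), (3, 7), (2, 1), (0, 8)]),
   ({1, 5, 8}, 5, [(0, 5), (1, 6), (2, 4), (3, 8), (2, 1), (0, 7)]),
   ({1, 5, 9}, 11, [(0, 1), (0, 2), (3, 5), (4, 9), (3, 4), (6, 3), (7, 6)]),
   ({1, 6, 7}, 4, [(0, 6), (1, 7), (2, 8), (3, 1)]),
   ({1, 6, 8}, 4, [(0, 6), (1, 8), (2, 7), (3, 1)]),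
   ({1, 6, 9}, 6, [(0, 6), (1, 4), (2, 5), (3, 7), (1, 8), (2, 1), (0, 9)]),
   ({1, 7, 8}, 10, [(0, 7), (1, 8), (2, 6), (3, 1), (2, 0)]),
   ({1, 7, 9}, 15, [(0, 1), (0, 2), (3, 7), (4, 9), (5, 4), (6, 3)]),
   ({1, 8, 9}, 15, [(0, 1), (0, 2), (3, 8), (4, 9), (5, 4), (6, 3), (7, 6)]),
   ({1, 9, 10}, 16, [(0, 2), (1, 4), (0, 3), (0, 1), (5, 6), (7, 9), (8, 10)]),
   ({2, 3, 5}, 3, [(0, 2), (1, 3), (0, 4), (1, 5), (0, 6)]),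
   ({2, 3, 6}, 3, [(0, 2), (1, 3), (0, 4), (1, 6), (0, 5)]),
   ({2, 3, 7}, 4, [(0, 2), (1, 3), (0, 4), (1, 7), (5, 1)]),
   ({2, 3, 8}, 4, [(0, 2), (1, 3), (0, 4), (1, 8), (5, 1)]),
   ({2, 3, 9}, 4, [(0, 2), (1, 3), (0, 4), (1, 9), (5, 1)]),
   ({2, 4, 5}, 2, [(0, 4), (1, 2), (1, 5), (0, 6)]),
   ({2, 4, 6}, 2, [(0, 4), (1, 2), (1, 6), (0, 5)]),
   ({2, 4, 7}, 4, [(0, 2), (1, 4), (0, 3), (0, 7), (1, 0), (5, 1)]),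
   ({2, 4, 8}, 4, [(0, 2), (1, 4), (0, 3), (0, 8), (1, 0), (5, 1)]),
   ({2, 4, 9}, 4, [(0, 2), (1, 4), (0, 3), (0, 9), (1, 0), (5, 1)]),
   ({2, 5, 6}, 3, [(0, 5), (1, 6), (2, 4), (3, 2)]),
   ({2, 5, 7}, 5, [(0, 2), (1, 4), (0, 3), (0, 5), (1, 7), (0, 6)]),
   ({2, 5, 8}, 5, [(0, 2), (1, 4), (0, 3), (0, 5), (1, 8), (0, 6)]),
   ({2, 5, 9}, 5, [(0, 2), (1, 4), (0, 3), (0, 5), (1, 9), (0, 6)]),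
   ({2, 6, 7}, 4, [(0, 6), (1, 7), (2, 8), (3, 2)]),
   ({2, 6, 8}, 4, [(0, 6), (1, 8), (2, 7), (3, 2)]),
   ({2, 6, 9}, 5, [(0, 2), (1, 4), (0, 3), (0, 6), (1, 9)]),
   ({2, 7, 8}, 6, [(0, 2), (1, 0), (5, 7), (6, 8)]),
   ({2, 7, 9}, 6, [(0, 2), (1, 0), (5, 7), (6, 9)]),
   ({2, 8, 9}, 6, [(0, 2), (1, 0), (5, 8), (6, 9)]),
   ({2, 9, 10}, 6, [(0, 2), (1, 0), (5, 9), (6, 10)]),
   ({3, 4, 5}, 2, [(0, 4), (1, 3), (2, 5), (1, 2), (0, 6)]),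
   ({3, 4, 6}, 2, [(0, 4), (1, 3), (2, 6), (1, 2), (0, 5)]),
   ({3, 4, 7}, 4, [(0, 4), (1, 3), (1, 7), (0, 5), (0, 6)]),
   ({3, 4, 8}, 4, [(0, 4), (1, 3), (1, 8), (0, 5), (0, 6)]),
   ({3, 4, 9}, 4, [(0, 4), (1, 3), (1, 9), (0, 5), (0, 6)]),
   ({3, 5, 6}, 3, [(0, 5), (1, 6), (2, 4)]),
   ({3, 5, 7}, 5, [(0, 3), (1, 4), (0, 5), (1, 7), (0, 6)]),
   ({3, 5, 8}, 5, [(0, 3), (1, 4), (0, 5), (1, 8), (0, 6)]),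
   ({3, 5, 9}, 5, [(0, 3), (1, 4), (0, 5), (1, 9), (0, 6)]),
   ({3, 6, 7}, 4, [(0, 6), (1, 7), (2, 8)]),
   ({3, 6, 8}, 4, [(0, 6), (1, 8), (2, 7)]),
   ({3, 6, 9}, 5, [(0, 3), (1, 4), (0, 6), (1, 9)]),
   ({3, 7, 8}, 8, [(0, 7), (1, 8), (2, 6)]),
   ({3, 7, 9}, 11, [(0, 3), (1, 4), (0, 7), (1, 9), (5, 6), (0, 8)]),
   ({3, 8, 9}, 11, [(0, 3), (1, 4), (0, 8), (1, 9), (5, 6)]),
   ({3, 9, 10}, 12, [(0, 2), (1, 3), (0, 4), (1, 0), (5, 9), (6, 10), (7, 5), (8, 6)]),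
   ({4, 5, 7}, 3, [(0, 4), (1, 5), (2, 6), (3, 7), (0, 8)]),
   ({4, 5, 8}, 3, [(0, 4), (1, 5), (2, 6), (3, 8), (0, 7)]),
   ({4, 5, 9}, 4, [(0, 4), (1, 5), (2, 6), (3, 9), (0, 2), (1, 3)]),
   ({4, 6, 7}, 2, [(0, 6), (1, 4), (2, 7), (3, 5), (1, 8)]),
   ({4, 6, 8}, 2, [(0, 6), (1, 4), (2, 8), (3, 5), (1, 7)]),
   ({4, 6, 9}, 4, [(0, 4), (1, 6), (2, 5), (3, 9), (0, 2), (0, 3)]),
   ({4, 7, 8}, 3, [(0, 7), (1, 8), (2, 6), (3, 4), (3, 5)]),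
   ({4, 7, 9}, 5, [(0, 4), (1, 6), (2, 5), (3, 7), (0, 9), (2, 8)]),
   ({4, 8, 9}, 5, [(0, 4), (1, 6), (2, 5), (3, 8), (0, 9), (2, 7)]),
   ({4, 9, 10}, 6, [(0, 4), (1, 2), (1, 3), (1, 5), (0, 6), (1, 9), (0, 10)]),
   ({5, 6, 7}, 2, [(0, 6), (1, 5), (2, 7), (3, 4), (3, 8)]),
   ({5, 6, 8}, 2, [(0, 6), (1, 5), (2, 8), (3, 4), (3, 7)]),
   ({5, 6, 9}, 4, [(0, 6), (1, 5), (2, 4), (3, 9), (2, 7), (1, 8)]),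
   ({5, 7, 8}, 3, [(0, 7), (1, 8), (2, 6), (3, 5)]),
   ({5, 7, 9}, 5, [(0, 5), (1, 6), (2, 4), (3, 7), (2, 9), (0, 8)]),
   ({5, 8, 9}, 5, [(0, 5), (1, 6), (2, 4), (3, 8), (2, 9), (0, 7)]),
   ({5, 9, 10}, 12, [(0, 4), (1, 5), (2, 6), (3, 2), (0, 3), (1, 9), (0, 10)]),
   ({6, 7, 9}, 4, [(0, 6), (1, 7), (2, 8), (3, 9)]),
   ({6, 8, 9}, 4, [(0, 6), (1, 8), (2, 7), (3, 9)]),
   ({6, 9, 10}, 6, [(0, 6), (1, 4), (2, 5), (3, 7), (1, 8), (2, 9), (0, 10)]),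
   ({7, 8, 9}, 14, [(0, 7), (1, 8), (2, 6), (3, 9), (0, 3), (1, 0)]),
   ({7, 9, 10}, 16, [(0, 4), (1, 6), (2, 5), (3, 2), (0, 3), (0, 7), (1, 8)]),
   ({8, 9, 10}, 16, [(0, 4), (1, 6), (2, 5), (3, 2), (0, 3), (0, 8), (1, 7), (1, 0)])]

/-- table -/
def tF1 : List (Finset ℕ × ℕ × List (ℕ × ℕ)) :=
  [({0, 1, 4}, 1, []),
   ({0, 2, 3}, 0, []),
   ({0, 2, 4}, 2, []),
   ({0, 3, 4}, 2, [(2, 3)]),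
   ({0, 4, 5}, 4, []),
   ({1, 2, 3}, 0, [(0, 1)]),
   ({1, 2, 4}, 2, [(0, 1)]),
   ({1, 3, 4}, 2, [(0, 1), (2, 3)]),
   ({1, 4, 5}, 4, [(0, 1)]),
   ({2, 3, 4}, 3, []),
   ({2, 4, 5}, 22, [(3, 4), (3, 5)]),
   ({3, 4, 5}, 22, [(2, 3), (2, 4), (2, 5)])]

/-- table -/
def tF2 : List (Finset ℕ × ℕ × List (ℕ × ℕ)) :=
  [({0, 1, 3}, 1, [(3, 5), (4, 3)]),
   ({0, 1, 4}, 1, [(3, 5)]),
   ({0, 1, 6}, 1, [(3, 5), (4, 6)]),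
   ({0, 2, 3}, 2, [(3, 5), (4, 3)]),
   ({0, 2, 4}, 2, [(3, 5)]),
   ({0, 2, 5}, 0, [(3, 5)]),
   ({0, 2, 6}, 2, [(3, 5), (4, 6)]),
   ({0, 3, 4}, 3, [(0, 3), (1, 4)]),
   ({0, 3, 5}, 2, [(2, 5), (3, 2), (4, 3)]),
   ({0, 3, 6}, 4, [(3, 5), (4, 3), (4, 6)]),
   ({0, 4, 5}, 2, [(2, 5), (3, 2)]),
   ({0, 4, 6}, 4, [(3, 5), (3, 6)]),
   ({0, 5, 6}, 2, [(2, 5), (3, 2), (4, 6)]),
   ({0, 6, 7}, 4, [(3, 5), (4, 6), (3, 7)]),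
   ({1, 2, 3}, 2, [(0, 1), (3, 5), (4, 3)]),
   ({1, 2, 4}, 2, [(0, 1), (3, 5)]),
   ({1, 2, 5}, 0, [(0, 1), (3, 5)]),
   ({1, 2, 6}, 2, [(0, 1), (3, 5), (4, 6)]),
   ({1, 3, 4}, 3, [(0, 3), (1, 4), (0, 1)]),
   ({1, 3, 5}, 2, [(0, 1), (2, 5), (3, 2), (4, 3)]),
   ({1, 3, 6}, 4, [(0, 1), (3, 5), (4, 3), (4, 6)]),
   ({1, 4, 5}, 2, [(0, 1), (2, 5), (3, 2)]),
   ({1, 4, 6}, 4, [(0, 1), (3, 5), (3, 6)]),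
   ({1, 5, 6}, 2, [(0, 1), (2, 5), (3, 2), (4, 6)]),
   ({1, 6, 7}, 4, [(0, 1), (3, 5), (4, 6), (3, 7)]),
   ({2, 3, 5}, 3, [(3, 5), (4, 3)]),
   ({2, 3, 6}, 4, [(0, 2), (1, 3), (0, 4), (1, 6), (5, 1)]),
   ({2, 4, 5}, 3, [(3, 5)]),
   ({2, 4, 6}, 4, [(0, 2), (1, 4), (0, 3), (0, 6), (1, 0), (5, 1)]),
   ({2, 5, 6}, 3, [(3, 5), (4, 6)]),
   ({2, 6, 7}, 6, [(0, 2), (1, 0), (5, 6), (5, 7)]),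
   ({3, 4, 5}, 7, [(3, 5), (4, 3)]),
   ({3, 4, 6}, 9, [(3, 5), (4, 3)]),
   ({3, 5, 6}, 8, [(3, 5), (4, 3)]),
   ({3, 6, 7}, 23, [(3, 4), (5, 6), (5, 7)]),
   ({4, 5, 6}, 8, [(3, 5)]),
   ({4, 6, 7}, 23, [(5, 6), (5, 7)]),
   ({5, 6, 7}, 10, [(3, 5), (4, 3)])]

/-- table -/
def tF3 : List (Finset ℕ × ℕ × List (ℕ × ℕ)) :=
  [({0, 1, 3}, 1, [(3, 7), (4, 3)]),
   ({0, 1, 4}, 1, [(3, 7)]),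
   ({0, 1, 5}, 1, [(3, 7), (4, 5)]),
   ({0, 1, 6}, 1, [(3, 7), (4, 6)]),
   ({0, 1, 8}, 1, [(3, 7), (4, 8)]),
   ({0, 2, 3}, 2, [(3, 7), (4, 3)]),
   ({0, 2, 4}, 2, [(3, 7)]),
   ({0, 2, 5}, 2, [(3, 7), (4, 5)]),
   ({0, 2, 6}, 2, [(3, 7), (4, 6)]),
   ({0, 2, 7}, 0, [(3, 7)]),
   ({0, 2, 8}, 2, [(3, 7), (4, 8)]),
   ({0, 3, 4}, 3, [(0, 3), (1, 4)]),
   ({0, 3, 5}, 4, [(3, 7), (4, 3)]),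
   ({0, 3, 6}, 4, [(3, 7), (4, 3), (5, 6)]),
   ({0, 3, 7}, 2, [(2, 7), (3, 2), (4, 3)]),
   ({0, 3, 8}, 4, [(3, 7), (4, 3), (5, 8)]),
   ({0, 4, 5}, 4, [(3, 7)]),
   ({0, 4, 6}, 4, [(3, 7), (5, 6)]),
   ({0, 4, 7}, 2, [(2, 7), (3, 2)]),
   ({0, 4, 8}, 4, [(3, 7), (5, 8)]),
   ({0, 5, 6}, 4, [(3, 7), (4, 5), (4, 6)]),
   ({0, 5, 7}, 2, [(2, 7), (3, 2), (4, 5)]),
   ({0, 5, 8}, 4, [(3, 7), (4, 5), (4, 8)]),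
   ({0, 6, 7}, 2, [(2, 7), (3, 2), (4, 6)]),
   ({0, 6, 8}, 4, [(3, 7), (4, 6), (5, 8)]),
   ({0, 7, 8}, 2, [(2, 7), (3, 2), (4, 8)]),
   ({0, 8, 9}, 4, [(3, 7), (4, 8), (5, 9)]),
   ({1, 2, 3}, 2, [(0, 1), (3, 7), (4, 3)]),
   ({1, 2, 4}, 2, [(0, 1), (3, 7)]),
   ({1, 2, 5}, 2, [(0, 1), (3, 7), (4, 5)]),
   ({1, 2, 6}, 2, [(0, 1), (3, 7), (4, 6)]),
   ({1, 2, 7}, 0, [(0, 1), (3, 7)]),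
   ({1, 2, 8}, 2, [(0, 1), (3, 7), (4, 8)]),
   ({1, 3, 4}, 3, [(0, 3), (1, 4), (0, 1)]),
   ({1, 3, 5}, 4, [(0, 1), (3, 7), (4, 3)]),
   ({1, 3, 6}, 4, [(0, 1), (3, 7), (4, 3), (5, 6)]),
   ({1, 3, 7}, 2, [(0, 1), (2, 7), (3, 2), (4, 3)]),
   ({1, 3, 8}, 4, [(0, 1), (3, 7), (4, 3), (5, 8)]),
   ({1, 4, 5}, 4, [(0, 1), (3, 7)]),
   ({1, 4, 6}, 4, [(0, 1), (3, 7), (5, 6)]),
   ({1, 4, 7}, 2, [(0, 1), (2, 7), (3, 2)]),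
   ({1, 4, 8}, 4, [(0, 1), (3, 7), (5, 8)]),
   ({1, 5, 6}, 4, [(0, 1), (3, 7), (4, 5), (4, 6)]),
   ({1, 5, 7}, 2, [(0, 1), (2, 7), (3, 2), (4, 5)]),
   ({1, 5, 8}, 4, [(0, 1), (3, 7), (4, 5), (4, 8)]),
   ({1, 6, 7}, 2, [(0, 1), (2, 7), (3, 2), (4, 6)]),
   ({1, 6, 8}, 4, [(0, 1), (3, 7), (4, 6), (5, 8)]),
   ({1, 7, 8}, 2, [(0, 1), (2, 7), (3, 2), (4, 8)]),
   ({1, 8, 9}, 4, [(0, 1), (3, 7), (4, 8), (5, 9)]),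
   ({2, 3, 5}, 3, [(0, 2), (1, 3), (0, 4), (1, 5), (0, 6)]),
   ({2, 3, 6}, 3, [(0, 2), (1, 3), (0, 4), (1, 6), (0, 5)]),
   ({2, 3, 7}, 3, [(3, 7), (4, 3)]),
   ({2, 3, 8}, 4, [(0, 2), (1, 3), (0, 4), (1, 8), (5, 1)]),
   ({2, 4, 5}, 2, [(0, 4), (1, 2), (1, 5), (0, 6)]),
   ({2, 4, 6}, 2, [(0, 4), (1, 2), (1, 6), (0, 5)]),
   ({2, 4, 7}, 3, [(3, 7)]),
   ({2, 4, 8}, 4, [(0, 2), (1, 4), (0, 3), (0, 8), (1, 0), (5, 1)]),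
   ({2, 5, 6}, 3, [(0, 5), (1, 6), (2, 4), (3, 2)]),
   ({2, 5, 7}, 3, [(3, 7), (4, 5)]),
   ({2, 5, 8}, 5, [(0, 2), (1, 4), (0, 3), (0, 5), (1, 8), (0, 6)]),
   ({2, 6, 7}, 3, [(3, 7), (4, 6)]),
   ({2, 6, 8}, 5, [(0, 2), (1, 4), (0, 3), (0, 6), (1, 8)]),
   ({2, 7, 8}, 3, [(3, 7), (4, 8)]),
   ({2, 8, 9}, 6, [(0, 2), (1, 0), (5, 8), (6, 9)]),
   ({3, 4, 5}, 2, [(0, 4), (1, 3), (2, 5), (1, 2), (0, 6)]),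
   ({3, 4, 6}, 2, [(0, 4), (1, 3), (2, 6), (1, 2), (0, 5)]),
   ({3, 4, 7}, 4, [(0, 4), (1, 3), (1, 7), (0, 5), (0, 6)]),
   ({3, 4, 8}, 4, [(0, 4), (1, 3), (1, 8), (0, 5), (0, 6)]),
   ({3, 5, 6}, 3, [(0, 5), (1, 6), (2, 4)]),
   ({3, 5, 7}, 5, [(0, 3), (1, 4), (0, 5), (1, 7), (0, 6)]),
   ({3, 5, 8}, 5, [(0, 3), (1, 4), (0, 5), (1, 8), (0, 6)]),
   ({3, 6, 7}, 5, [(0, 3), (1, 4), (0, 6), (1, 7)]),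
   ({3, 6, 8}, 5, [(0, 3), (1, 4), (0, 6), (1, 8)]),
   ({3, 7, 8}, 8, [(3, 7), (4, 3), (5, 4), (6, 8)]),
   ({3, 8, 9}, 12, [(0, 2), (1, 3), (0, 4), (1, 0), (5, 8), (6, 9), (7, 5), (7, 6)]),
   ({4, 5, 7}, 4, [(0, 4), (1, 5), (2, 6), (3, 7), (0, 2), (1, 3)]),
   ({4, 5, 8}, 4, [(0, 4), (1, 5), (2, 6), (3, 8), (0, 2), (1, 3)]),
   ({4, 6, 7}, 4, [(0, 4), (1, 6), (2, 5), (3, 7), (0, 2), (0, 3)]),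
   ({4, 6, 8}, 4, [(0, 4), (1, 6), (2, 5), (3, 8), (0, 2), (0, 3)]),
   ({4, 7, 8}, 6, [(0, 4), (1, 2), (1, 3), (1, 5), (0, 6), (1, 7), (0, 8)]),
   ({4, 8, 9}, 6, [(0, 4), (1, 2), (1, 3), (1, 5), (0, 6), (1, 8), (0, 9)]),
   ({5, 6, 7}, 9, [(2, 7), (3, 2), (4, 5), (4, 6)]),
   ({5, 6, 8}, 13, [(3, 7), (5, 3), (6, 5)]),
   ({5, 7, 8}, 10, [(3, 7), (4, 3), (5, 4), (6, 5), (6, 8)]),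
   ({5, 8, 9}, 14, [(3, 7), (5, 3), (6, 5)]),
   ({6, 7, 8}, 10, [(3, 7), (4, 3), (5, 4), (5, 8)]),
   ({6, 8, 9}, 14, [(3, 7), (5, 3)]),
   ({7, 8, 9}, 10, [(3, 7), (4, 3), (5, 4), (6, 8), (5, 9)])]

theorem okL1 : Tab (loosePath 1) 3 tL1 := by decide +kernel

theorem okL2 : Tab (loosePath 2) 5 tL2 := by decide +kernel

theorem okL3 : Tab (loosePath 3) 7 tL3 := by decide +kernel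

theorem okL4 : Tab (loosePath 4) 9 tL4 := by decide +kernel

theorem okF1 : Tab (forkedPath 1) 4 tF1 := by decide +kernel

theorem okF2 : Tab (forkedPath 2) 6 tF2 := by decide +kernel

theorem okF3 : Tab (forkedPath 3) 8 tF3 := by decide +kernel

end Pool.Agent.U129.UC
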